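import Pool.Agent.H87.WL.Defs
import Pool.Agent.H3.LC.Mertens

/-!
# WL MuL: the sum of the reciprocals of the primes in `(P, P']`

* `mu_large`: Mertens (`Pool.Agent.H3.LC`: `mertensM_ge`, `mertensM_le`, `mertensM n = ∑_{d ∈ Ioc 0 n} Λ(d)/d`
  `= log n + O(1)`; the prime powers contribute `O(1)`) gives `∑_{y < p ≤ z} (log p)/p ≥ log z - log y - C`, so
  `∑_{y < p ≤ z} 1/p ≥ (log z - log y - C)/log z`. With `y = ⌊L^b⌋`, `z = ⌊L^(2b)⌋`, `L = log x` large, this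
  is at least `1/4` (also with `z` replaced by any number between `z/2` and `z`, needed for the last block:
  `p2_ge`). Take `B' = 2^j B` with `j ≥ 4 M`.
* `p2_le`, `p2_ge`: `Nat.pow_log_le_self`, `Nat.lt_pow_succ_log_self`, `Nat.div_mul_le_self`.
* `mu_le`: `∑_{p ≤ P'} 1/p ≤ ∑_{n ≤ P'} 1/n ≤ 1 + log P'`.
* `card_dvd`: the product of the different primes `p | m` divides `m`, and is at least `2^card`.
* `mu_ppc`: at most `Nat.log 2 m` primes are left out, each at least `P`.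
-/

set_option autoImplicit false

namespace Pool.Agent.H87.WL

open Finset
open Pool.Agent.H91.EHA (Lam lamR hR ramS psiA err)

theorem p2_le (x B B' : ℕ) (h : 1 ≤ P1 x B) (h' : P1 x B ≤ P1 x B') : P2 x B B' ≤ P1 x B' := by
  unfold P2
  have hq : P1 x B' / P1 x B ≠ 0 := by
    have := (Nat.one_le_div_iff (show 0 < P1 x B by omega)).2 h'
    omega
  calc P1 x B * 2 ^ Nat.log 2 (P1 x B' / P1 x B) ≤ P1 x B * (P1 x B' / P1 x B) :=
        Nat.mul_le_mul_left _ (Nat.pow_log_le_self 2 hq)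
    _ ≤ P1 x B' := Nat.mul_div_le _ _

theorem p2_ge (x B B' : ℕ) (h : 1 ≤ P1 x B) (h' : P1 x B ≤ P1 x B') : P1 x B' < 2 * P2 x B B' := by
  unfold P2
  have h1 : P1 x B' / P1 x B + 1 ≤ 2 ^ (Nat.log 2 (P1 x B' / P1 x B) + 1) :=
    Nat.lt_pow_succ_log_self (by norm_num) _
  have h2 : P1 x B' < P1 x B * (P1 x B' / P1 x B + 1) := Nat.lt_mul_div_succ _ (by omega)
  calc P1 x B' < P1 x B * (P1 x B' / P1 x B + 1) := h2
    _ ≤ P1 x B * 2 ^ (Nat.log 2 (P1 x B' / P1 x B) + 1) := Nat.mul_le_mul_left _ h1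
    _ = 2 * (P1 x B * 2 ^ Nat.log 2 (P1 x B' / P1 x B)) := by rw [pow_succ]; ring

private lemma mul_pp_union {a b c : ℕ} (h1 : a ≤ b) (h2 : b ≤ c) :
    Mu (PP a c) = Mu (PP a b) + Mu (PP b c) := by
  unfold Mu PP
  rw [← Finset.sum_union]
  · congr 1
    ext p
    simp only [mem_filter, mem_union, mem_Ioc]
    constructor
    · rintro ⟨⟨h3, h4⟩, h5⟩
      rcases Nat.lt_or_ge b p with h | h
      · exact Or.inr ⟨⟨h, h4⟩, h5⟩
      · exact Or.inl ⟨⟨h3, h⟩, h5⟩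
    · rintro (⟨⟨h3, h4⟩, h5⟩ | ⟨⟨h3, h4⟩, h5⟩)
      · exact ⟨⟨h3, h4.trans h2⟩, h5⟩
      · exact ⟨⟨lt_of_le_of_lt h1 h3, h4⟩, h5⟩
  · rw [Finset.disjoint_left]
    intro p hp hp'
    simp only [mem_filter, mem_Ioc] at hp hp'
    omega

private lemma mul_block {C : ℝ} (hC : ∀ n : ℕ, 1 ≤ n →
    |∑ p ∈ (Icc 1 n).filter Nat.Prime, Real.log p / p - Real.log n| ≤ C) {y z : ℕ} (hy : 2 ≤ y)
    (hyC : 4 * C ≤ Real.log y) (hz : y ^ 2 ≤ z) : 1 / 4 ≤ Mu (PP y z) := by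
  have hyz : y ≤ z := by nlinarith
  have hy0 : (0 : ℝ) < y := by exact_mod_cast (show 0 < y by omega)
  have hy1 : (1 : ℝ) < y := by exact_mod_cast (show 1 < y by omega)
  have hz0 : (0 : ℝ) < z := by exact_mod_cast (show 0 < z by omega)
  have hlogy : 0 < Real.log y := Real.log_pos hy1
  have hlogz : 2 * Real.log y ≤ Real.log z := by
    have h1 : ((y : ℝ)) ^ 2 ≤ z := by exact_mod_cast hz
    have h2 := Real.log_le_log (by positivity) h1
    rwa [Real.log_pow, Nat.cast_ofNat] at h2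
  have h1 := abs_le.1 (hC y (by omega))
  have h2 := abs_le.1 (hC z (by omega))
  have h3 : ∑ p ∈ (Icc 1 z).filter Nat.Prime, Real.log p / p =
      ∑ p ∈ (Icc 1 y).filter Nat.Prime, Real.log p / p + ∑ p ∈ PP y z, Real.log p / p := by
    rw [← Finset.sum_union]
    · congr 1
      ext p
      simp only [PP, mem_filter, mem_union, mem_Ioc, mem_Icc]
      constructor
      · rintro ⟨⟨h3, h4⟩, h5⟩
        rcases Nat.lt_or_ge y p with h | h
        · exact Or.inr ⟨⟨h, h4⟩, h5⟩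
        · exact Or.inl ⟨⟨h3, h⟩, h5⟩
      · rintro (⟨⟨h3, h4⟩, h5⟩ | ⟨⟨h3, h4⟩, h5⟩)
        · exact ⟨⟨h3, h4.trans hyz⟩, h5⟩
        · exact ⟨⟨by omega, h4⟩, h5⟩
    · rw [Finset.disjoint_left]
      intro p hp hp'
      simp only [PP, mem_filter, mem_Ioc, mem_Icc] at hp hp'
      omega
  have h4 : ∑ p ∈ PP y z, Real.log p / p ≤ Real.log z * Mu (PP y z) := by
    unfold Mu
    rw [mul_sum]
    refine sum_le_sum fun p hp => ?_
    simp only [PP, mem_filter, mem_Ioc] at hp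
    have hp0 : (0 : ℝ) < p := by exact_mod_cast (show 0 < p by omega)
    have : Real.log p ≤ Real.log z := Real.log_le_log hp0 (by exact_mod_cast hp.1.2)
    rw [div_eq_mul_one_div]
    exact mul_le_mul_of_nonneg_right this (by positivity)
  have h5 : Real.log z * (1 / 4) ≤ Real.log z * Mu (PP y z) := by nlinarith [h1.1, h1.2, h2.1, h2.2]
  exact le_of_mul_le_mul_left h5 (by linarith)

private lemma mul_P1_ge {x b K : ℕ} (hb : 1 ≤ b) (hK : 1 ≤ K) (hx : (K : ℝ) ≤ Real.log x) :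
    K ≤ P1 x b := by
  unfold P1
  apply Nat.le_floor
  have h1 : (1 : ℝ) ≤ Real.log x := by
    have : (1 : ℝ) ≤ K := by exact_mod_cast hK
    linarith
  exact hx.trans (le_self_pow₀ h1 (by omega))

private lemma mul_P1_sq {x b : ℕ} (hx : (0 : ℝ) ≤ Real.log x) :
    P1 x b ^ 2 ≤ P1 x (2 * b) := by
  unfold P1
  apply Nat.le_floor
  have h1 : ((⌊Real.log x ^ b⌋₊ : ℕ) : ℝ) ≤ Real.log x ^ b := Nat.floor_le (by positivity)
  have h2 : (((⌊Real.log x ^ b⌋₊ : ℕ) : ℝ)) ^ 2 ≤ (Real.log x ^ b) ^ 2 :=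
    pow_le_pow_left₀ (Nat.cast_nonneg _) h1 2
  rw [Nat.cast_pow, mul_comm 2 b, pow_mul]
  exact h2

private lemma mul_log_ge (K : ℕ) : ∃ x0 : ℕ, ∀ x : ℕ, x0 ≤ x → (K : ℝ) ≤ Real.log x := by
  refine ⟨⌈Real.exp K⌉₊, fun x hx => ?_⟩
  have h1 : Real.exp K ≤ x := (Nat.le_ceil _).trans (by exact_mod_cast hx)
  have := Real.log_le_log (Real.exp_pos _) h1
  rwa [Real.log_exp] at this

theorem mu_large (M : ℝ) (B : ℕ) (hB : 1 ≤ B) : ∃ B' : ℕ, B ≤ B' ∧ ∃ x0 : ℕ, ∀ x : ℕ, x0 ≤ x →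
    M ≤ Mu (PP (P1 x B) (P2 x B B')) := by
  obtain ⟨C, hC0, hC⟩ := Pool.Agent.H3.LC.mertens
  obtain ⟨J, hJ⟩ := exists_nat_ge (4 * M)
  -- K with log K ≥ 4 C
  obtain ⟨K0, hK0⟩ := exists_nat_ge (Real.exp (4 * C))
  set K := max K0 3 with hK
  have hK3 : 3 ≤ K := le_max_right _ _
  have hKlog : ∀ y : ℕ, K ≤ y → 4 * C ≤ Real.log y := by
    intro y hy
    have h1 : Real.exp (4 * C) ≤ y :=
      hK0.trans (by exact_mod_cast (le_max_left K0 3).trans hy)
    have := Real.log_le_log (Real.exp_pos _) h1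
    rwa [Real.log_exp] at this
  obtain ⟨x0, hx0⟩ := mul_log_ge K
  refine ⟨2 ^ (J + 1) * B, ?_, x0, ?_⟩
  · exact Nat.le_mul_of_pos_left B (by positivity)
  intro x hx
  have hL := hx0 x hx
  have hL0 : (0 : ℝ) ≤ Real.log x := le_trans (by positivity) hL
  have hb : ∀ j : ℕ, 1 ≤ 2 ^ j * B := fun j => Nat.mul_pos (by positivity) hB
  have hge : ∀ j : ℕ, K ≤ P1 x (2 ^ j * B) := fun j => mul_P1_ge (hb j) (by omega) hL
  have hsq : ∀ j : ℕ, P1 x (2 ^ j * B) ^ 2 ≤ P1 x (2 ^ (j + 1) * B) := by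
    intro j
    have := mul_P1_sq (x := x) (b := 2 ^ j * B) hL0
    rwa [show 2 * (2 ^ j * B) = 2 ^ (j + 1) * B by rw [pow_succ]; ring] at this
  have hmono1 : ∀ j : ℕ, P1 x (2 ^ j * B) ≤ P1 x (2 ^ (j + 1) * B) := by
    intro j
    have h1 := hsq j
    have h2 := hge j
    nlinarith
  have hmono : ∀ j : ℕ, P1 x B ≤ P1 x (2 ^ j * B) := by
    intro j
    induction j with
    | zero => simp
    | succ j ih => exact ih.trans (hmono1 j)
  have hmain : ∀ j : ℕ, (j : ℝ) / 4 ≤ Mu (PP (P1 x B) (P1 x (2 ^ j * B))) := by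
    intro j
    induction j with
    | zero => simpa using Mu_nonneg _
    | succ j ih =>
      rw [mul_pp_union (hmono j) (hmono1 j)]
      have := mul_block hC (y := P1 x (2 ^ j * B)) (z := P1 x (2 ^ (j + 1) * B))
        (by have := hge j; omega) (hKlog _ (hge j)) (hsq j)
      push_cast
      linarith
  have hP : P1 x (2 ^ J * B) ≤ P2 x B (2 ^ (J + 1) * B) := by
    have h1 := p2_ge x B (2 ^ (J + 1) * B) (by have := hge 0; simp at this; omega)
      (hmono (J + 1))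
    have h2 := hsq J
    have h3 := hge J
    nlinarith
  have h1 := hmain J
  have h2 : Mu (PP (P1 x B) (P1 x (2 ^ J * B))) ≤ Mu (PP (P1 x B) (P2 x B (2 ^ (J + 1) * B))) := by
    apply Mu_mono
    intro p hp
    simp only [PP, mem_filter, mem_Ioc] at hp ⊢
    exact ⟨⟨hp.1.1, hp.1.2.trans hP⟩, hp.2⟩
  linarith

theorem mu_le (P P' : ℕ) (hP : 1 ≤ P') : Mu (PP P P') ≤ 1 + Real.log P' := by
  have h1 : Mu (PP P P') ≤ ∑ n ∈ Icc 1 P', 1 / (n : ℝ) := by
    unfold Mu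
    apply sum_le_sum_of_subset_of_nonneg
    · intro p hp
      simp only [PP, mem_filter, mem_Ioc, mem_Icc] at hp ⊢
      omega
    · intro n _ _
      positivity
  have h2 : ∑ n ∈ Icc 1 P', 1 / (n : ℝ) = ((harmonic P' : ℚ) : ℝ) := by
    rw [harmonic_eq_sum_Icc]
    push_cast
    exact sum_congr rfl fun n _ => one_div _
  rw [h2] at h1
  exact h1.trans (harmonic_le_one_add_log P')

theorem card_dvd (P P' m : ℕ) (hm : 1 ≤ m) :
    ((PP P P').filter (fun p => p ∣ m)).card ≤ Nat.log 2 m := by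
  set S := (PP P P').filter (fun p => p ∣ m) with hS
  have h1 : ∏ p ∈ S, p ∣ m := by
    apply Finset.prod_primes_dvd
    · intro p hp
      simp only [hS, PP, mem_filter, mem_Ioc] at hp
      exact hp.1.2.prime
    · intro p hp
      exact (mem_filter.1 hp).2
  have h2 : 2 ^ S.card ≤ ∏ p ∈ S, p := by
    apply Finset.pow_card_le_prod
    intro p hp
    simp only [hS, PP, mem_filter, mem_Ioc] at hp
    exact hp.1.2.two_le
  have h3 : ∏ p ∈ S, p ≤ m := Nat.le_of_dvd (by omega) h1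
  exact Nat.le_log_of_pow_le (by norm_num) (h2.trans h3)

theorem mu_ppc (P P' m : ℕ) (hm : 1 ≤ m) (hP : 1 ≤ P) :
    Mu (PP P P') - (Nat.log 2 m : ℝ) / P ≤ Mu (PPc P P' m) := by
  have h1 : Mu (PP P P') = Mu ((PP P P').filter (fun p => p ∣ m)) + Mu (PPc P P' m) := by
    unfold Mu PPc
    exact (Finset.sum_filter_add_sum_filter_not _ _ _).symm
  have hP0 : (0 : ℝ) < P := by exact_mod_cast hP
  have h2 : Mu ((PP P P').filter (fun p => p ∣ m)) ≤ (Nat.log 2 m : ℝ) / P := by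
    calc Mu ((PP P P').filter (fun p => p ∣ m))
        ≤ ∑ _p ∈ (PP P P').filter (fun p => p ∣ m), 1 / (P : ℝ) := by
          unfold Mu
          refine sum_le_sum fun p hp => ?_
          simp only [PP, mem_filter, mem_Ioc] at hp
          have : (P : ℝ) ≤ p := by exact_mod_cast hp.1.1.1.le
          exact one_div_le_one_div_of_le hP0 this
      _ = (((PP P P').filter (fun p => p ∣ m)).card : ℝ) / P := by
          rw [sum_const, nsmul_eq_mul]; ring
      _ ≤ (Nat.log 2 m : ℝ) / P := by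
          have : (((PP P P').filter (fun p => p ∣ m)).card : ℝ) ≤ (Nat.log 2 m : ℝ) := by
            exact_mod_cast card_dvd P P' m hm
          gcongr
  linarith

end Pool.Agent.H87.WL
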