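import Pool.Agent.H87.WL.Defs
import Pool.Agent.H92.EH3.DivBound

/-!
# WL PiPsi: primes and prime powers

* `pin_le`: the primes `n ≤ x^{1-δ}` in the class are at most `x^{1-δ}/q + 1`; for the others
  `Λ(n) = log n ≥ (1-δ) log x`.
* `psi_le`: `Λ(p) = log p ≤ log x`.
* `pps_avg`: `pps` runs over the proper prime powers `n = p^j ≤ x`, `j ≥ 2`: `Λ(n) ≤ log x`, and there are at
  most `2 √x log x` of them (for each `j ≤ 2 log x` at most `√x`). For `n ≠ a` the number of `q` with `q | n - a` is at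
  most `τ(|n-a|) ≤ C x^{1/10}` (divisor bound: see how `hdiv` is obtained in the proof of
  `Pool.Agent.H91.EHA.err_of_psi`, file FinA.lean); for `n = a` all `q` count: at most `Q` of them for every `a`.
  Total `H · 2 √x log x · C x^{1/10} · log x + H Q log x ≤ H x^{4/5} + H Q log x`.
-/

set_option autoImplicit false

namespace Pool.Agent.H87.WL

open Finset
open Pool.Agent.H91.EHA (Lam lamR hR ramS psiA err)

/-- the primes `p ≤ x` in the class of `a` modulo `q`, as counted in `err` -/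
noncomputable def pin (x q a : ℕ) : ℕ :=
  ((Icc 1 x).filter (fun p : ℕ => Nat.Prime p ∧ ((p : ZMod q) = (a : ZMod q)))).card

/-- the contribution of the numbers which are not primes to `psiA x q a` -/
noncomputable def pps (x q a : ℕ) : ℝ :=
  ∑ n ∈ (Icc 1 x).filter (fun n => n ≡ a [MOD q] ∧ ¬ n.Prime), Lam n

private theorem pipsi_Lam_nonneg (n : ℕ) : 0 ≤ Lam n := ArithmeticFunction.vonMangoldt_nonneg

private theorem pipsi_Lam_le (n : ℕ) : Lam n ≤ Real.log n := ArithmeticFunction.vonMangoldt_le_log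

private theorem pipsi_pin (x q a : ℕ) : pin x q a =
    ((Icc 1 x).filter (fun n : ℕ => n ≡ a [MOD q] ∧ n.Prime)).card := by
  unfold pin
  congr 1
  refine filter_congr fun n _ => ?_
  rw [ZMod.natCast_eq_natCast_iff n a q]
  tauto

theorem pin_eq (x q a : ℕ) :
    (pin x q a : ℝ) = err x q (a : ZMod q) + (Nat.primeCounting x : ℝ) / (q.totient : ℝ) := by
  unfold pin err
  ring

private theorem pipsi_count (q a : ℕ) (hq : 1 ≤ q) (y : ℝ) (hy : 0 ≤ y) :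
    (((Ioc 0 ⌊y⌋₊).filter (fun n : ℕ => n ≡ a [MOD q])).card : ℝ) ≤ y / q + 1 := by
  have h1 := Nat.Ioc_filter_modEq_card 0 ⌊y⌋₊ (show 0 < q by omega) a
  have hq' : (0 : ℝ) < q := by exact_mod_cast (show 0 < q by omega)
  have hy1 : ((⌊y⌋₊ : ℕ) : ℝ) ≤ y := Nat.floor_le hy
  have h2 : ((((Ioc 0 ⌊y⌋₊).filter (fun n : ℕ => n ≡ a [MOD q])).card : ℤ) : ℝ) ≤ y / q + 1 := by
    rw [h1]
    push_cast
    rw [max_le_iff]
    constructor
    · have h3 : ((⌊(((⌊y⌋₊ : ℕ) : ℚ) - (a : ℚ)) / (q : ℚ)⌋ : ℤ) : ℝ) ≤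
          (((⌊y⌋₊ : ℕ) : ℝ) - (a : ℝ)) / (q : ℝ) := by
        have := Int.floor_le ((((⌊y⌋₊ : ℕ) : ℚ) - (a : ℚ)) / (q : ℚ))
        have h4 : (((⌊(((⌊y⌋₊ : ℕ) : ℚ) - (a : ℚ)) / (q : ℚ)⌋ : ℤ) : ℚ) : ℝ) ≤
            (((((⌊y⌋₊ : ℕ) : ℚ) - (a : ℚ)) / (q : ℚ) : ℚ) : ℝ) := by exact_mod_cast this
        push_cast at h4
        exact h4
      have h3' : ((0 : ℝ) - (a : ℝ)) / (q : ℝ) - 1 ≤
          ((⌊((0 : ℚ) - (a : ℚ)) / (q : ℚ)⌋ : ℤ) : ℝ) := by
        have := (Int.sub_one_lt_floor (((0 : ℚ) - (a : ℚ)) / (q : ℚ))).le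
        have h4 : ((((((0 : ℚ) - (a : ℚ)) / (q : ℚ)) - 1 : ℚ)) : ℝ) ≤
            (((⌊((0 : ℚ) - (a : ℚ)) / (q : ℚ)⌋ : ℤ) : ℚ) : ℝ) := by exact_mod_cast this
        push_cast at h4
        exact h4
      have h5 : (((⌊y⌋₊ : ℕ) : ℝ) - (a : ℝ)) / (q : ℝ) - (((0 : ℝ) - (a : ℝ)) / (q : ℝ) - 1) =
          ((⌊y⌋₊ : ℕ) : ℝ) / q + 1 := by
        field_simp
        ring
      have h6 : ((⌊y⌋₊ : ℕ) : ℝ) / q ≤ y / q := div_le_div_of_nonneg_right hy1 hq'.le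
      linarith
    · positivity
  exact_mod_cast h2

theorem pin_le (x q a : ℕ) (δ : ℝ) (hx : 2 ≤ x) (hq : 1 ≤ q) (h0 : 0 < δ) (h1 : δ < 1) :
    (pin x q a : ℝ) * ((1 - δ) * Real.log x) ≤
      psiA x q a + ((x : ℝ) ^ (1 - δ) / q + 1) * Real.log x := by
  have hx1 : (1 : ℝ) ≤ x := by exact_mod_cast (by omega : 1 ≤ x)
  have hxp : (0 : ℝ) < x := by linarith
  have hlog : 0 ≤ Real.log x := Real.log_nonneg hx1
  have hy : (0 : ℝ) ≤ (x : ℝ) ^ (1 - δ) := by positivity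
  rw [pipsi_pin]
  have hterm : ∀ n ∈ (Icc 1 x).filter (fun n : ℕ => n ≡ a [MOD q] ∧ n.Prime),
      (1 - δ) * Real.log x ≤ Lam n +
        (if (n : ℝ) ≤ (x : ℝ) ^ (1 - δ) then Real.log x else 0) := by
    intro n hn
    rw [mem_filter] at hn
    have hp : n.Prime := hn.2.2
    split_ifs with h2
    · have := pipsi_Lam_nonneg n
      nlinarith
    · rw [not_le] at h2
      have h3 : Lam n = Real.log n := ArithmeticFunction.vonMangoldt_apply_prime hp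
      have h4 := Real.log_le_log (by positivity) h2.le
      rw [Real.log_rpow hxp] at h4
      rw [h3]
      linarith
  calc ((((Icc 1 x).filter (fun n : ℕ => n ≡ a [MOD q] ∧ n.Prime)).card : ℕ) : ℝ) *
        ((1 - δ) * Real.log x)
      = ∑ n ∈ (Icc 1 x).filter (fun n : ℕ => n ≡ a [MOD q] ∧ n.Prime), (1 - δ) * Real.log x := by
        rw [sum_const, nsmul_eq_mul]
    _ ≤ ∑ n ∈ (Icc 1 x).filter (fun n : ℕ => n ≡ a [MOD q] ∧ n.Prime), (Lam n +
        (if (n : ℝ) ≤ (x : ℝ) ^ (1 - δ) then Real.log x else 0)) := sum_le_sum hterm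
    _ = (∑ n ∈ (Icc 1 x).filter (fun n : ℕ => n ≡ a [MOD q] ∧ n.Prime), Lam n) +
        ∑ n ∈ (Icc 1 x).filter (fun n : ℕ => n ≡ a [MOD q] ∧ n.Prime),
          (if (n : ℝ) ≤ (x : ℝ) ^ (1 - δ) then Real.log x else 0) := sum_add_distrib
    _ ≤ psiA x q a + ((x : ℝ) ^ (1 - δ) / q + 1) * Real.log x := by
        refine add_le_add ?_ ?_
        · unfold psiA
          refine sum_le_sum_of_subset_of_nonneg ?_ fun n _ _ => pipsi_Lam_nonneg n
          intro n hn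
          rw [mem_filter] at hn ⊢
          exact ⟨hn.1, hn.2.1⟩
        · rw [← sum_filter, sum_const, nsmul_eq_mul]
          refine mul_le_mul_of_nonneg_right ?_ hlog
          refine le_trans ?_ (pipsi_count q a hq _ hy)
          have hsub : (((Icc 1 x).filter (fun n : ℕ => n ≡ a [MOD q] ∧ n.Prime)).filter
              (fun n : ℕ => (n : ℝ) ≤ (x : ℝ) ^ (1 - δ))) ⊆
              (Ioc 0 ⌊(x : ℝ) ^ (1 - δ)⌋₊).filter (fun n : ℕ => n ≡ a [MOD q]) := by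
            intro n hn
            rw [mem_filter, mem_filter, mem_Icc] at hn
            rw [mem_filter, mem_Ioc]
            exact ⟨⟨by omega, Nat.le_floor hn.2⟩, hn.1.2.1⟩
          exact_mod_cast card_le_card hsub

theorem psi_le (x q a : ℕ) (hq : 1 ≤ q) :
    psiA x q a ≤ (pin x q a : ℝ) * Real.log x + pps x q a := by
  rw [pipsi_pin]
  have h1 : psiA x q a = ∑ n ∈ (Icc 1 x).filter (fun n : ℕ => n ≡ a [MOD q] ∧ n.Prime), Lam n +
      pps x q a := by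
    unfold psiA pps
    rw [← filter_filter, ← filter_filter]
    exact (sum_filter_add_sum_filter_not _ _ _).symm
  rw [h1]
  refine add_le_add ?_ le_rfl
  rw [← nsmul_eq_mul]
  refine sum_le_card_nsmul _ _ _ fun n hn => ?_
  rw [mem_filter, mem_Icc] at hn
  refine (pipsi_Lam_le n).trans ?_
  refine Real.log_le_log ?_ ?_
  · exact_mod_cast (show 0 < n by omega)
  · exact_mod_cast hn.1.2

theorem pps_nonneg (x q a : ℕ) : 0 ≤ pps x q a :=
  sum_nonneg fun n _ => pipsi_Lam_nonneg n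

/-- `Lam` on the numbers which are not prime -/
private noncomputable def pipsi_L (n : ℕ) : ℝ := if n.Prime then 0 else Lam n

private theorem pipsi_L_nonneg (n : ℕ) : 0 ≤ pipsi_L n := by
  unfold pipsi_L
  split_ifs
  · exact le_rfl
  · exact pipsi_Lam_nonneg n

private theorem pipsi_L_le (n : ℕ) (hn : 1 ≤ n) : pipsi_L n ≤ Real.log n := by
  unfold pipsi_L
  split_ifs
  · exact Real.log_nonneg (by exact_mod_cast hn)
  · exact pipsi_Lam_le n

private theorem pipsi_pps (x q a : ℕ) :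
    pps x q a = ∑ n ∈ Icc 1 x, pipsi_L n * (if n ≡ a [MOD q] then (1 : ℝ) else 0) := by
  unfold pps pipsi_L
  rw [sum_filter]
  refine sum_congr rfl fun n _ => ?_
  by_cases h1 : n ≡ a [MOD q] <;> by_cases h2 : n.Prime <;> simp [h1, h2]

private theorem pipsi_pp_le (x : ℕ) (hx : 1 ≤ x) :
    ∑ n ∈ Icc 1 x, pipsi_L n ≤ 2 * Real.sqrt x * Real.log x := by
  have h2 := Chebyshev.psi_sub_theta_le (x := (x : ℝ)) (by exact_mod_cast hx)
  rw [Chebyshev.psi_sub_theta_eq_sum_not_prime, Nat.floor_natCast] at h2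
  refine le_trans (le_of_eq ?_) h2
  unfold pipsi_L Lam
  rw [sum_filter]
  simp only [ite_not]
  rfl

private theorem pipsi_cnt (C : ℝ) (hC : 1 ≤ C)
    (hdiv : ∀ n : ℕ, 1 ≤ n → (n.divisors.card : ℝ) ≤ C * (n : ℝ) ^ (1 / 4 : ℝ))
    (x a0 Q H n : ℕ) (ha0 : a0 + H ≤ x) (hn : n ≤ x) :
    (∑ a ∈ Ioc a0 (a0 + H), ∑ q ∈ Ioc Q (2 * Q), if n ≡ a [MOD q] then (1 : ℝ) else 0) ≤
        H * (C * (2 * x : ℝ) ^ (1 / 4 : ℝ)) + (if n ∈ Ioc a0 (a0 + H) then (Q : ℝ) else 0) := by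
  have h2 : ∀ a ∈ Ioc a0 (a0 + H), (∑ q ∈ Ioc Q (2 * Q), if n ≡ a [MOD q] then (1 : ℝ) else 0) ≤
      C * (2 * x : ℝ) ^ (1 / 4 : ℝ) + if a = n then (Q : ℝ) else 0 := by
    intro a ha
    rw [mem_Ioc] at ha
    have hnn : 0 ≤ C * (2 * x : ℝ) ^ (1 / 4 : ℝ) := by positivity
    by_cases han : a = n
    · rw [if_pos han]
      have h3 : (∑ q ∈ Ioc Q (2 * Q), if n ≡ a [MOD q] then (1 : ℝ) else 0) ≤
          ∑ q ∈ Ioc Q (2 * Q), (1 : ℝ) := sum_le_sum fun q _ => by split_ifs <;> norm_num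
      have h4 : ∑ q ∈ Ioc Q (2 * Q), (1 : ℝ) = Q := by
        rw [sum_const, Nat.card_Ioc, nsmul_eq_mul, mul_one]
        congr 1
        omega
      linarith
    · rw [if_neg han, add_zero]
      have hz : ((a : ℤ) - n).natAbs ≠ 0 := by omega
      have h3 : (∑ q ∈ Ioc Q (2 * Q), if n ≡ a [MOD q] then (1 : ℝ) else 0) =
          (((Ioc Q (2 * Q)).filter fun q => n ≡ a [MOD q]).card : ℝ) := by
        rw [card_filter, Nat.cast_sum]
        refine sum_congr rfl fun q _ => ?_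
        split_ifs <;> simp
      have h4 : ((Ioc Q (2 * Q)).filter fun q => n ≡ a [MOD q]).card ≤
          ((a : ℤ) - n).natAbs.divisors.card := by
        refine card_le_card fun q hq => ?_
        rw [mem_filter] at hq
        rw [Nat.mem_divisors]
        refine ⟨?_, hz⟩
        have h5 := (Nat.modEq_iff_dvd).1 hq.2
        exact Int.natCast_dvd.1 h5
      have h5 := hdiv _ (Nat.one_le_iff_ne_zero.2 hz)
      have h6 : ((((a : ℤ) - n).natAbs : ℕ) : ℝ) ≤ 2 * x := by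
        have : ((a : ℤ) - n).natAbs ≤ 2 * x := by omega
        exact_mod_cast this
      have h7 : ((((a : ℤ) - n).natAbs : ℕ) : ℝ) ^ (1 / 4 : ℝ) ≤ (2 * x : ℝ) ^ (1 / 4 : ℝ) :=
        Real.rpow_le_rpow (Nat.cast_nonneg _) h6 (by norm_num)
      rw [h3]
      calc (((Ioc Q (2 * Q)).filter fun q => n ≡ a [MOD q]).card : ℝ)
          ≤ (((a : ℤ) - n).natAbs.divisors.card : ℝ) := by exact_mod_cast h4
        _ ≤ _ := h5
        _ ≤ _ := mul_le_mul_of_nonneg_left h7 (by linarith)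
  refine (sum_le_sum h2).trans ?_
  rw [sum_add_distrib, sum_const, Nat.card_Ioc, sum_ite_eq', nsmul_eq_mul]
  have h8 : a0 + H - a0 = H := by omega
  rw [h8]

private theorem pipsi_sum (C : ℝ) (hC : 1 ≤ C)
    (hdiv : ∀ n : ℕ, 1 ≤ n → (n.divisors.card : ℝ) ≤ C * (n : ℝ) ^ (1 / 4 : ℝ))
    (x a0 Q H : ℕ) (hx : 1 ≤ x) (ha0 : a0 + H ≤ x) :
    (∑ a ∈ Ioc a0 (a0 + H), ∑ q ∈ Ioc Q (2 * Q), pps x q a) ≤
        2 * Real.sqrt x * Real.log x * (H * (C * (2 * x : ℝ) ^ (1 / 4 : ℝ))) +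
          H * Q * Real.log x := by
  have hK : 0 ≤ H * (C * (2 * x : ℝ) ^ (1 / 4 : ℝ)) := by positivity
  have hx' : (1 : ℝ) ≤ x := by exact_mod_cast hx
  have hlog : 0 ≤ Real.log x := Real.log_nonneg hx'
  have h1 : (∑ a ∈ Ioc a0 (a0 + H), ∑ q ∈ Ioc Q (2 * Q), pps x q a) =
      ∑ n ∈ Icc 1 x, pipsi_L n *
        ∑ a ∈ Ioc a0 (a0 + H), ∑ q ∈ Ioc Q (2 * Q), (if n ≡ a [MOD q] then (1 : ℝ) else 0) := by
    simp only [pipsi_pps, mul_sum]
    have e1 : ∀ a ∈ Ioc a0 (a0 + H), (∑ q ∈ Ioc Q (2 * Q),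
        ∑ n ∈ Icc 1 x, pipsi_L n * (if n ≡ a [MOD q] then (1 : ℝ) else 0)) =
        ∑ n ∈ Icc 1 x, ∑ q ∈ Ioc Q (2 * Q),
          pipsi_L n * (if n ≡ a [MOD q] then (1 : ℝ) else 0) := fun q _ => sum_comm
    rw [sum_congr rfl e1, sum_comm]
  rw [h1]
  have h2 : ∀ n ∈ Icc 1 x, pipsi_L n *
        (∑ a ∈ Ioc a0 (a0 + H), ∑ q ∈ Ioc Q (2 * Q),
          (if n ≡ a [MOD q] then (1 : ℝ) else 0)) ≤
        pipsi_L n * (H * (C * (2 * x : ℝ) ^ (1 / 4 : ℝ))) +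
          (if n ∈ Ioc a0 (a0 + H) then Q * Real.log x else 0) := by
    intro n hn
    rw [mem_Icc] at hn
    have h3 := pipsi_cnt C hC hdiv x a0 Q H n ha0 hn.2
    have h5 : pipsi_L n ≤ Real.log x := by
      refine (pipsi_L_le n hn.1).trans ?_
      exact Real.log_le_log (by exact_mod_cast hn.1) (by exact_mod_cast hn.2)
    refine (mul_le_mul_of_nonneg_left h3 (pipsi_L_nonneg n)).trans ?_
    rw [mul_add]
    refine add_le_add le_rfl ?_
    split_ifs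
    · rw [mul_comm]
      exact mul_le_mul_of_nonneg_left h5 (Nat.cast_nonneg _)
    · simp
  refine (sum_le_sum h2).trans ?_
  rw [sum_add_distrib, ← sum_mul]
  refine add_le_add (mul_le_mul_of_nonneg_right (pipsi_pp_le x hx) hK) ?_
  have h6 : (∑ n ∈ Icc 1 x, if n ∈ Ioc a0 (a0 + H) then (Q : ℝ) * Real.log x else 0) ≤
      ∑ n ∈ Ioc a0 (a0 + H), (Q : ℝ) * Real.log x := by
    rw [← sum_filter]
    refine sum_le_sum_of_subset_of_nonneg ?_ fun _ _ _ => by positivity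
    intro n hn
    exact (mem_filter.1 hn).2
  refine h6.trans (le_of_eq ?_)
  rw [sum_const, Nat.card_Ioc, nsmul_eq_mul]
  have h8 : a0 + H - a0 = H := by omega
  rw [h8]
  ring

theorem pps_avg : ∃ x0 : ℕ, ∀ x : ℕ, x0 ≤ x → ∀ a0 Q H : ℕ, a0 + H ≤ x → 1 ≤ Q → Q ≤ x →
    ∑ a ∈ Ioc a0 (a0 + H), ∑ q ∈ Ioc Q (2 * Q), pps x q a ≤
      H * (x : ℝ) ^ ((4 : ℝ) / 5) + H * Q * Real.log x := by
  obtain ⟨C, hC, hdiv⟩ := Pool.Agent.H92.EH.div_bound (1 / 4) (by norm_num)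
  have hlit : (fun x : ℝ => Real.log x) =o[Filter.atTop] fun x : ℝ => x ^ ((1 : ℝ) / 20) :=
    isLittleO_log_rpow_atTop (by norm_num)
  have hc : (0 : ℝ) < 1 / (4 * C) := by positivity
  have hev := (hlit.bound hc).and (Filter.eventually_ge_atTop (1 : ℝ))
  obtain ⟨x1, hx1⟩ := Filter.eventually_atTop.1 (tendsto_natCast_atTop_atTop.eventually hev)
  refine ⟨max x1 1, fun x hx a0 Q H ha0 _ _ => ?_⟩
  obtain ⟨h1, h2⟩ := hx1 x ((le_max_left _ _).trans hx)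
  have hx1' : 1 ≤ x := (le_max_right _ _).trans hx
  have hxp : (0 : ℝ) < x := by linarith
  have hlog : 0 ≤ Real.log x := Real.log_nonneg h2
  refine (pipsi_sum C hC hdiv x a0 Q H hx1' ha0).trans (add_le_add ?_ le_rfl)
  rw [Real.norm_of_nonneg hlog, Real.norm_of_nonneg (by positivity)] at h1
  have h3 : (2 * x : ℝ) ^ (1 / 4 : ℝ) ≤ 2 * (x : ℝ) ^ (1 / 4 : ℝ) := by
    rw [Real.mul_rpow (by norm_num) hxp.le]
    refine mul_le_mul_of_nonneg_right ?_ (by positivity)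
    calc (2 : ℝ) ^ (1 / 4 : ℝ) ≤ (2 : ℝ) ^ (1 : ℝ) :=
          Real.rpow_le_rpow_of_exponent_le (by norm_num) (by norm_num)
      _ = 2 := Real.rpow_one 2
  have h4 : Real.sqrt x * (x : ℝ) ^ (1 / 4 : ℝ) * (x : ℝ) ^ ((1 : ℝ) / 20) =
      (x : ℝ) ^ ((4 : ℝ) / 5) := by
    rw [Real.sqrt_eq_rpow, ← Real.rpow_add hxp, ← Real.rpow_add hxp]
    norm_num
  have hs : 0 ≤ Real.sqrt x := Real.sqrt_nonneg _
  have hr : 0 ≤ (x : ℝ) ^ (1 / 4 : ℝ) := by positivity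
  calc 2 * Real.sqrt x * Real.log x * (H * (C * (2 * x : ℝ) ^ (1 / 4 : ℝ)))
      ≤ 2 * Real.sqrt x * Real.log x * (H * (C * (2 * (x : ℝ) ^ (1 / 4 : ℝ)))) := by
        refine mul_le_mul_of_nonneg_left ?_ (by positivity)
        refine mul_le_mul_of_nonneg_left ?_ (Nat.cast_nonneg _)
        exact mul_le_mul_of_nonneg_left h3 (by linarith)
    _ = (4 * C * (H * (Real.sqrt x * (x : ℝ) ^ (1 / 4 : ℝ)))) * Real.log x := by ring
    _ ≤ (4 * C * (H * (Real.sqrt x * (x : ℝ) ^ (1 / 4 : ℝ)))) *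
        (1 / (4 * C) * (x : ℝ) ^ ((1 : ℝ) / 20)) :=
        mul_le_mul_of_nonneg_left h1 (by positivity)
    _ = H * (Real.sqrt x * (x : ℝ) ^ (1 / 4 : ℝ) * (x : ℝ) ^ ((1 : ℝ) / 20)) := by
        field_simp
    _ = H * (x : ℝ) ^ ((4 : ℝ) / 5) := by rw [h4]

end Pool.Agent.H87.WL
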