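import Pool.Agent.H87.WL.Defs

/-!
# WL Gl: the lower bound for `G`

`(q/φ(q)) ∑_{h ≤ D, (h,q)=1} μ(h)²/φ(h) ≥ ∑_{h ≤ D} μ(h)²/φ(h) ≥ ∑_{n ≤ D} 1/n ≥ log (D+1)`.
First inequality: `q/φ(q) = ∑_{e | q} μ(e)²/φ(e)`; the products `e h` are different (`e = (eh, q)`) and run
through all squarefree numbers `≤ D` (among others). Second: `1/φ(h) = (1/h) ∏_{p | h} (1-1/p)^{-1}` is the
sum of `1/n` over all `n` with squarefree kernel `h`. (Compare, if useful, landed proofs for the large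
sieve: grep for `totient` and `log` in Pool/Agent/H91/PK, Pool/Agent/H92/EH, Pool/Agent/H35/V1.)
-/

set_option autoImplicit false

namespace Pool.Agent.H87.WL

open Finset
open Pool.Agent.H91.EHA (Lam lamR hR ramS psiA err)

/-! ### The sum over the numbers with a given radical -/

/-- the product of the primes dividing `n` but not `M` -/
def gl_rad (M n : ℕ) : ℕ := ∏ p ∈ n.primeFactors.filter (fun p => ¬ p ∣ M), p

theorem gl_rad_dvd (M n : ℕ) : gl_rad M n ∣ n :=
  (prod_dvd_prod_of_subset _ _ _ (filter_subset _ _)).trans (Nat.prod_primeFactors_dvd n)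

theorem gl_sq (T : Finset ℕ) (hT : ∀ p ∈ T, p.Prime) : Squarefree (∏ p ∈ T, p) := by
  classical
  induction T using Finset.induction_on with
  | empty => simp
  | insert a T ha ih =>
    have ha' : a.Prime := hT a (mem_insert_self a T)
    have hT' : ∀ p ∈ T, p.Prime := fun p hp => hT p (mem_insert_of_mem hp)
    have hcop : Nat.Coprime a (∏ p ∈ T, p) := by
      refine Nat.Coprime.prod_right ?_
      intro p hp
      rw [Nat.coprime_primes ha' (hT' p hp)]
      rintro rfl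
      exact ha hp
    rw [prod_insert ha, Nat.squarefree_mul hcop]
    exact ⟨ha'.squarefree, ih hT'⟩

theorem gl_rad_sq (M n : ℕ) : Squarefree (gl_rad M n) :=
  gl_sq _ fun _ hp => Nat.prime_of_mem_primeFactors (mem_filter.1 hp).1

theorem gl_rad_coprime (M n : ℕ) : Nat.Coprime (gl_rad M n) M := by
  refine Nat.Coprime.prod_left ?_
  intro p hp
  rw [mem_filter] at hp
  exact (Nat.Prime.coprime_iff_not_dvd (Nat.prime_of_mem_primeFactors hp.1)).2 hp.2

/-- the completely multiplicative function `1/n` -/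
noncomputable def gl_inv : ℕ →* ℝ where
  toFun n := (n : ℝ)⁻¹
  map_one' := by simp
  map_mul' m n := by
    rw [Nat.cast_mul, mul_inv]

theorem gl_inv_apply (n : ℕ) : gl_inv n = (n : ℝ)⁻¹ := rfl

theorem gl_tot (K : ℕ) (hK : K ≠ 0) :
    ∏ p ∈ K.primeFactors with p.Prime, (1 - gl_inv p)⁻¹ = (K : ℝ) / K.totient := by
  have h1 : (K.primeFactors.filter fun p => p.Prime) = K.primeFactors :=
    filter_true_of_mem fun p hp => Nat.prime_of_mem_primeFactors hp
  rw [h1]
  have h2 : (K.totient : ℝ) = K * ∏ p ∈ K.primeFactors, (1 - (p : ℝ)⁻¹) := by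
    have h := congrArg (fun q : ℚ => (q : ℝ)) (Nat.totient_eq_mul_prod_factors K)
    push_cast at h
    exact h
  have hφ : (K.totient : ℝ) ≠ 0 := by
    have := Nat.totient_pos.2 (Nat.pos_of_ne_zero hK)
    positivity
  have hK' : (K : ℝ) ≠ 0 := by exact_mod_cast hK
  rw [eq_div_iff hφ, h2, prod_inv_distrib]
  have h3 : ∏ p ∈ K.primeFactors, (1 - (p : ℝ)⁻¹) ≠ 0 := by
    intro h
    rw [h2, h, mul_zero] at hφ
    exact hφ rfl
  simp only [gl_inv_apply]
  generalize ∏ p ∈ K.primeFactors, (1 - (p : ℝ)⁻¹) = Q at h3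
  field_simp

theorem gl_sum (K : ℕ) (hK : K ≠ 0) (T : Finset ℕ)
    (hT : ∀ m ∈ T, m ∈ Nat.factoredNumbers K.primeFactors) :
    ∑ m ∈ T, (m : ℝ)⁻¹ ≤ (K : ℝ) / K.totient := by
  classical
  obtain ⟨h1, h2⟩ := EulerProduct.summable_and_hasSum_factoredNumbers_prod_filter_prime_geometric
    (f := gl_inv) (fun {p} hp => by
      rw [gl_inv_apply, norm_inv, Real.norm_natCast]
      exact inv_lt_one_of_one_lt₀ (by exact_mod_cast hp.one_lt)) K.primeFactors
  rw [gl_tot K hK] at h2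
  rw [← h2.tsum_eq]
  have h3 : ∑ m ∈ T, (m : ℝ)⁻¹ = ∑ m ∈ T.attach.image (fun m => (⟨m.1, hT m.1 m.2⟩ :
      Nat.factoredNumbers K.primeFactors)), gl_inv m := by
    rw [sum_image]
    · rw [← sum_attach]
      rfl
    · intro x _ y _ h
      exact Subtype.ext (congrArg (fun z : Nat.factoredNumbers K.primeFactors => (z : ℕ)) h)
  rw [h3]
  refine h2.summable.sum_le_tsum _ fun i _ => ?_
  rw [gl_inv_apply]
  positivity

theorem gl_fiber (M : ℕ) (hM : 1 ≤ M) (N r : ℕ) (hr : r ≠ 0) (hrM : Nat.Coprime r M) :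
    ∑ n ∈ (Icc 1 N).filter (fun n => gl_rad M n = r), (n : ℝ)⁻¹ ≤
      (1 / (r.totient : ℝ)) * ((M : ℝ) / M.totient) := by
  classical
  have hM0 : M ≠ 0 := by omega
  have hK : r * M ≠ 0 := mul_ne_zero hr hM0
  have h1 : ∀ n ∈ (Icc 1 N).filter (fun n => gl_rad M n = r), r ∣ n := by
    intro n hn
    rw [mem_filter] at hn
    rw [← hn.2]
    exact gl_rad_dvd M n
  have h2 := gl_sum (r * M) hK (((Icc 1 N).filter (fun n => gl_rad M n = r)).image (fun n => n / r))
    (by
      intro m hm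
      rw [mem_image] at hm
      obtain ⟨n, hn, rfl⟩ := hm
      have hrn := h1 n hn
      rw [mem_filter, mem_Icc] at hn
      have hn0 : n ≠ 0 := by omega
      rw [Nat.mem_factoredNumbers]
      refine ⟨?_, ?_⟩
      · exact (Nat.div_pos (Nat.le_of_dvd (by omega) hrn) (Nat.pos_of_ne_zero hr)).ne'
      · intro p hp
        have hpp := Nat.prime_of_mem_primeFactorsList hp
        have hpn : p ∣ n := (Nat.dvd_of_mem_primeFactorsList hp).trans (Nat.div_dvd_of_dvd hrn)
        rw [Nat.mem_primeFactors]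
        refine ⟨hpp, ?_, hK⟩
        by_cases hpM : p ∣ M
        · exact hpM.mul_left r
        · refine Dvd.dvd.mul_right ?_ M
          rw [← hn.2]
          refine dvd_prod_of_mem _ ?_
          rw [mem_filter, Nat.mem_primeFactors]
          exact ⟨⟨hpp, hpn, hn0⟩, hpM⟩)
  rw [sum_image] at h2
  · have h3 : ∑ n ∈ (Icc 1 N).filter (fun n => gl_rad M n = r), (n : ℝ)⁻¹ =
        (r : ℝ)⁻¹ * ∑ n ∈ (Icc 1 N).filter (fun n => gl_rad M n = r), ((n / r : ℕ) : ℝ)⁻¹ := by
      rw [mul_sum]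
      refine sum_congr rfl fun n hn => ?_
      rw [← mul_inv]
      congr 1
      rw [← Nat.cast_mul, Nat.mul_div_cancel' (h1 n hn)]
    rw [h3]
    refine (mul_le_mul_of_nonneg_left h2 (by positivity)).trans (le_of_eq ?_)
    rw [Nat.totient_mul hrM, Nat.cast_mul, Nat.cast_mul]
    have hr' : (r : ℝ) ≠ 0 := by exact_mod_cast hr
    field_simp
  · intro x hx y hy hxy
    have e1 := Nat.mul_div_cancel' (h1 x hx)
    have e2 := Nat.mul_div_cancel' (h1 y hy)
    have hxy' : x / r = y / r := hxy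
    rw [← e1, ← e2, hxy']

/-- the set of moduli -/
def gl_S (M N : ℕ) : Finset ℕ := (Icc 1 N).filter (fun r => Squarefree r ∧ Nat.Coprime r M)

theorem gl_mem_S {M N r : ℕ} :
    r ∈ gl_S M N ↔ (1 ≤ r ∧ r ≤ N) ∧ Squarefree r ∧ Nat.Coprime r M := by
  unfold gl_S
  rw [mem_filter, mem_Icc]

theorem gl_S_dvd {M N r t : ℕ} (ht : t ∈ gl_S M N) (h : r ∣ t) : r ∈ gl_S M N := by
  rw [gl_mem_S] at ht ⊢
  have ht0 : 0 < t := by omega
  refine ⟨⟨Nat.pos_of_dvd_of_pos h ht0, (Nat.le_of_dvd ht0 h).trans ht.1.2⟩,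
    ht.2.1.squarefree_of_dvd h, Nat.Coprime.coprime_dvd_left h ht.2.2⟩

/-- the main sum -/
noncomputable def gl_G (M N : ℕ) : ℝ := ∑ r ∈ gl_S M N, 1 / (r.totient : ℝ)

theorem gl_G_ge (M : ℕ) (hM : 1 ≤ M) (N : ℕ) :
    ∑ n ∈ Icc 1 N, (n : ℝ)⁻¹ ≤ gl_G M N * ((M : ℝ) / M.totient) := by
  classical
  have hmaps : ∀ n ∈ Icc 1 N, gl_rad M n ∈ gl_S M N := by
    intro n hn
    rw [mem_Icc] at hn
    rw [gl_mem_S]
    have h0 : 0 < n := by omega
    exact ⟨⟨Nat.pos_of_dvd_of_pos (gl_rad_dvd M n) h0, (Nat.le_of_dvd h0 (gl_rad_dvd M n)).trans hn.2⟩,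
      gl_rad_sq M n, gl_rad_coprime M n⟩
  rw [← sum_fiberwise_of_maps_to hmaps]
  unfold gl_G
  rw [sum_mul]
  refine sum_le_sum fun r hr => ?_
  rw [gl_mem_S] at hr
  exact gl_fiber M hM N r (by omega) hr.2.2

theorem gs_ge (D q : ℕ) (hq : 1 ≤ q) :
    (q.totient : ℝ) / q * Real.log (D + 1) ≤ Gs D q := by
  have hq0 : (0 : ℝ) < q := by exact_mod_cast hq
  have hφ : (0 : ℝ) < q.totient := by exact_mod_cast Nat.totient_pos.2 hq
  have h1 : Gs D q = gl_G q D := by
    unfold Gs gl_G gl_S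
    rw [← filter_filter, sum_filter (s := Icc 1 D), sum_filter (s := (Icc 1 D).filter Squarefree),
      sum_filter (s := Icc 1 D)]
    refine sum_congr rfl fun h _ => ?_
    by_cases hs : Squarefree h
    · have h2 : mo h ^ 2 = 1 := by
        unfold mo
        exact_mod_cast ArithmeticFunction.moebius_sq_eq_one_of_squarefree hs
      rw [if_pos hs, h2]
    · have h2 : mo h = 0 := by
        unfold mo
        rw [ArithmeticFunction.moebius_eq_zero_of_not_squarefree hs, Int.cast_zero]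
      rw [if_neg hs, h2]
      simp
  have h2 := gl_G_ge q hq D
  have h3 : Real.log (D + 1) ≤ ∑ n ∈ Icc 1 D, (n : ℝ)⁻¹ := by
    have h4 := log_add_one_le_harmonic D
    rw [harmonic_eq_sum_Icc] at h4
    push_cast at h4
    exact h4
  rw [h1]
  have h5 : Real.log (D + 1) ≤ gl_G q D * ((q : ℝ) / q.totient) := h3.trans h2
  calc (q.totient : ℝ) / q * Real.log (D + 1)
      ≤ (q.totient : ℝ) / q * (gl_G q D * ((q : ℝ) / q.totient)) :=
        mul_le_mul_of_nonneg_left h5 (by positivity)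
    _ = gl_G q D := by field_simp

end Pool.Agent.H87.WL
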