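import Pool.Agent.H87.WL.Defs

/-!
# WL Sel1: Selberg's function

* `ps_eq`: `ramS h n = ∑_{s | (h,n)} s μ(h/s)`; interchange the sums (`s | h` and `(h,q) = 1` imply
  `(s,q) = 1`, `s ≤ h ≤ D`).
* `ls_le`: `|μ| ≤ 1`, `φ ≥ 1`, and at most `D/s` multiples `l ≤ D` of `s`.
* `ps_pp`: if `Λ(n) ≠ 0` then `n` is a power of the prime `n.minFac > D`, so `(h, n) = 1` for all `h ≤ D`
  and `ramS h n = μ(h)`.
* `gs_one_le`: the term `h = 1`.
-/

set_option autoImplicit false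

namespace Pool.Agent.H87.WL

open Finset
open Pool.Agent.H91.EHA (Lam lamR hR ramS psiA err)

theorem ps_eq (D q n : ℕ) :
    Ps D q n = ∑ s ∈ (Icc 1 D).filter (fun s => Nat.Coprime s q ∧ s ∣ n), ls D q s := by
  unfold Ps ls ramS
  simp only [Finset.mul_sum]
  rw [Finset.sum_comm' (s := (Icc 1 D).filter (fun h => Nat.Coprime h q))
    (t := fun h => (Nat.gcd h n).divisors)
    (t' := (Icc 1 D).filter (fun s => Nat.Coprime s q ∧ s ∣ n))
    (s' := fun s => (Icc 1 D).filter (fun l => Nat.Coprime l q ∧ s ∣ l))]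
  · refine sum_congr rfl fun s hs => sum_congr rfl fun l hl => ?_
    unfold mo
    ring
  · intro h s
    simp only [mem_filter, mem_Icc, Nat.mem_divisors]
    constructor
    · rintro ⟨⟨⟨h1, h2⟩, h3⟩, h4, h5⟩
      have h6 : s ∣ h := h4.trans (Nat.gcd_dvd_left h n)
      have h7 : s ∣ n := h4.trans (Nat.gcd_dvd_right h n)
      have h8 : 0 < s := Nat.pos_of_dvd_of_pos h6 h1
      have h9 : s ≤ h := Nat.le_of_dvd h1 h6
      exact ⟨⟨⟨h1, h2⟩, h3, h6⟩, ⟨h8, h9.trans h2⟩, Nat.Coprime.coprime_dvd_left h6 h3, h7⟩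
    · rintro ⟨⟨⟨h1, h2⟩, h3, h6⟩, ⟨h8, h9⟩, h10, h7⟩
      refine ⟨⟨⟨h1, h2⟩, h3⟩, Nat.dvd_gcd h6 h7, ?_⟩
      intro h0
      have := Nat.eq_zero_of_gcd_eq_zero_left h0
      omega

private theorem sel1_mo_le (n : ℕ) : |mo n| ≤ 1 := by
  unfold mo
  have h := ArithmeticFunction.abs_moebius_le_one (n := n)
  have h2 : ((|ArithmeticFunction.moebius n| : ℤ) : ℝ) ≤ ((1 : ℤ) : ℝ) := by exact_mod_cast h
  rw [Int.cast_abs, Int.cast_one] at h2
  exact h2

theorem ls_le (D q s : ℕ) (hs : 1 ≤ s) : |ls D q s| ≤ D := by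
  have hs' : (0 : ℝ) < (s : ℝ) := by exact_mod_cast hs
  unfold ls
  rw [abs_mul, abs_of_pos hs']
  have hcard : ((Icc 1 D).filter (fun l => Nat.Coprime l q ∧ s ∣ l)).card ≤ D / s := by
    rw [← Nat.Ioc_filter_dvd_card_eq_div]
    apply card_le_card
    intro l hl
    rw [mem_filter, mem_Icc] at hl
    rw [mem_filter, mem_Ioc]
    exact ⟨⟨by omega, hl.1.2⟩, hl.2.2⟩
  have h1 : |∑ l ∈ (Icc 1 D).filter (fun l => Nat.Coprime l q ∧ s ∣ l),
      mo (l / s) * mo l / (l.totient : ℝ)| ≤ ((D / s : ℕ) : ℝ) := by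
    refine (abs_sum_le_sum_abs _ _).trans ?_
    refine (sum_le_card_nsmul _ _ 1 ?_).trans ?_
    · intro l hl
      rw [mem_filter, mem_Icc] at hl
      rw [abs_div, abs_mul]
      have h2 := sel1_mo_le (l / s)
      have h3 := sel1_mo_le l
      have h4 : (1 : ℝ) ≤ (l.totient : ℝ) := by
        exact_mod_cast Nat.totient_pos.2 hl.1.1
      rw [Nat.abs_cast, div_le_one (by linarith)]
      have h5 : |mo (l / s)| * |mo l| ≤ 1 * 1 :=
        mul_le_mul h2 h3 (abs_nonneg _) (by norm_num)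
      linarith
    · rw [nsmul_eq_mul, mul_one]
      exact_mod_cast hcard
  calc (s : ℝ) * |∑ l ∈ (Icc 1 D).filter (fun l => Nat.Coprime l q ∧ s ∣ l),
      mo (l / s) * mo l / (l.totient : ℝ)| ≤ (s : ℝ) * ((D / s : ℕ) : ℝ) :=
        mul_le_mul_of_nonneg_left h1 hs'.le
    _ ≤ (D : ℝ) := by exact_mod_cast Nat.mul_div_le D s

theorem ps_pp (D q n : ℕ) (hn : Lam n ≠ 0) (hD : D < n.minFac) : Ps D q n = Gs D q := by
  unfold Ps Gs
  refine sum_congr rfl fun h hh => ?_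
  rw [mem_filter, mem_Icc] at hh
  have hco : Nat.gcd h n = 1 := by
    by_contra hne
    obtain ⟨r, hr, hrd⟩ := Nat.exists_prime_and_dvd hne
    have h1 : r ∣ h := hrd.trans (Nat.gcd_dvd_left h n)
    have h2 : r ∣ n := hrd.trans (Nat.gcd_dvd_right h n)
    have h3 : n.minFac ≤ r := Nat.minFac_le_of_dvd hr.two_le h2
    have h4 : r ≤ h := Nat.le_of_dvd hh.1.1 h1
    omega
  unfold ramS
  rw [hco, Nat.divisors_one, sum_singleton, Nat.div_one, Nat.cast_one, one_mul]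
  unfold mo
  ring

theorem gs_one_le (D q : ℕ) (hD : 1 ≤ D) : 1 ≤ Gs D q := by
  unfold Gs
  have h1 : (1 : ℕ) ∈ (Icc 1 D).filter (fun h => Nat.Coprime h q) := by
    rw [mem_filter, mem_Icc]
    exact ⟨⟨le_rfl, hD⟩, Nat.coprime_one_left q⟩
  have h2 : ∀ h ∈ (Icc 1 D).filter (fun h => Nat.Coprime h q), 0 ≤ mo h ^ 2 / (h.totient : ℝ) :=
    fun h _ => by positivity
  have h3 := single_le_sum h2 h1
  have h4 : mo 1 ^ 2 / ((1 : ℕ).totient : ℝ) = 1 := by
    unfold mo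
    simp
  rw [h4] at h3
  exact h3

end Pool.Agent.H87.WL
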