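import Pool.Agent.H87.WL.Sel1

/-!
# WL Sel4: bounds for the diagonal form

* `sd_one`: `Ad 1 y = 1` for `y ≥ 1`.
* `gs_cop`: `Gs D q = ∑_{p ∤ l} + ∑_{p | l}`; in the second sum `l = p l'` with `p ∤ l'` (squarefree),
  `μ(l)²/φ(l) = μ(l')²/((p-1) φ(l'))`; so `Gs D q ≤ (1 + 1/(p-1)) Gs D (q p)`.
* `sd_ge`: `Ad ≥ 1` (term `e = 1`, `D/l ≥ 1`), so `Sd D q p ≥ Gs D (q p) ≥ (1-1/p) Gs D q`.
* `sd_le`: `Ad d y ≤ ∑_{e | d} μ(e)²/φ(e) = d/φ(d)` and `Gs D (q d) ≤ Gs D q`. It is enough to do `d` with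
  `d/φ(d)` written as such (product formula, or for `d = p` and `d = p p'` directly:
  `1 + 1/(p-1) = p/(p-1)`).
-/

set_option autoImplicit false

namespace Pool.Agent.H87.WL

open Finset
open Pool.Agent.H91.EHA (Lam lamR hR ramS psiA err)

private lemma sel4_nn (e : ℕ) : 0 ≤ mo e ^ 2 / (e.totient : ℝ) := by positivity

private lemma sel4_gs_nn (D q : ℕ) : 0 ≤ Gs D q := sum_nonneg fun e _ => sel4_nn e

private lemma sel4_mo_one : mo 1 = 1 := by simp [mo]

private lemma sel4_mo_prime {p : ℕ} (hp : p.Prime) : mo p = -1 := by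
  simp [mo, ArithmeticFunction.moebius_apply_prime hp]

private lemma sel4_one_le_div {D l : ℕ} (hl : l ∈ Icc 1 D) : 1 ≤ D / l := by
  rw [mem_Icc] at hl
  exact Nat.div_pos hl.2 hl.1

private lemma sel4_ad_ge {d y : ℕ} (hd : d ≠ 0) (hy : 1 ≤ y) : 1 ≤ Ad d y := by
  have h1 : (1 : ℕ) ∈ d.divisors.filter (fun e => e ≤ y) := by
    rw [mem_filter]
    exact ⟨Nat.one_mem_divisors.2 hd, hy⟩
  have h2 : mo 1 ^ 2 / ((1 : ℕ).totient : ℝ) ≤ Ad d y :=
    single_le_sum (f := fun e : ℕ => mo e ^ 2 / (e.totient : ℝ)) (fun e _ => sel4_nn e) h1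
  rw [sel4_mo_one] at h2
  simpa using h2

private lemma sel4_ad_nn (d y : ℕ) : 0 ≤ Ad d y := sum_nonneg fun e _ => sel4_nn e

private lemma sel4_ad_one {y : ℕ} (hy : 1 ≤ y) : Ad 1 y = 1 := by
  unfold Ad
  rw [Nat.divisors_one, filter_singleton, if_pos hy, sum_singleton, sel4_mo_one]
  simp

private lemma sel4_mono (D q m : ℕ) : Gs D (q * m) ≤ Gs D q := by
  unfold Gs
  refine sum_le_sum_of_subset_of_nonneg ?_ fun e _ _ => sel4_nn e
  intro l hl
  rw [mem_filter] at hl ⊢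
  exact ⟨hl.1, Nat.Coprime.coprime_mul_right_right hl.2⟩

/-- bound for the diagonal form from a bound for `Ad` -/
private lemma sel4_sd_le (D q d : ℕ) (c : ℝ) (h : ∀ y, Ad d y ≤ c) : Sd D q d ≤ c ^ 2 * Gs D q := by
  have h1 : Sd D q d ≤ c ^ 2 * Gs D (q * d) := by
    unfold Sd Gs
    rw [mul_sum]
    refine sum_le_sum fun l _ => ?_
    have h2 : Ad d (D / l) ^ 2 ≤ c ^ 2 := pow_le_pow_left₀ (sel4_ad_nn _ _) (h _) 2
    calc mo l ^ 2 / (l.totient : ℝ) * Ad d (D / l) ^ 2 ≤ mo l ^ 2 / (l.totient : ℝ) * c ^ 2 :=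
          mul_le_mul_of_nonneg_left h2 (sel4_nn l)
      _ = c ^ 2 * (mo l ^ 2 / (l.totient : ℝ)) := mul_comm _ _
  exact h1.trans (mul_le_mul_of_nonneg_left (sel4_mono D q d) (sq_nonneg c))

private lemma sel4_one_add {p : ℕ} (hp : p.Prime) : (1 : ℝ) + 1 / ((p : ℝ) - 1) = (p : ℝ) / (p - 1) := by
  have h2 : (1 : ℝ) < p := by exact_mod_cast hp.one_lt
  have h3 : (p : ℝ) - 1 ≠ 0 := by linarith
  field_simp
  ring

private lemma sel4_tot {p : ℕ} (hp : p.Prime) : ((p.totient : ℕ) : ℝ) = (p : ℝ) - 1 := by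
  rw [Nat.totient_prime hp, Nat.cast_sub hp.one_lt.le, Nat.cast_one]

private lemma sel4_val_one : mo 1 ^ 2 / ((1 : ℕ).totient : ℝ) = 1 := by
  rw [sel4_mo_one]
  simp

private lemma sel4_val_p {p : ℕ} (hp : p.Prime) : mo p ^ 2 / (p.totient : ℝ) = 1 / ((p : ℝ) - 1) := by
  rw [sel4_mo_prime hp, sel4_tot hp]
  norm_num

private lemma sel4_val_pp {p p' : ℕ} (hp : p.Prime) (hp' : p'.Prime) (hne : p ≠ p') :
    mo (p * p') ^ 2 / ((p * p').totient : ℝ) = 1 / ((p : ℝ) - 1) * (1 / ((p' : ℝ) - 1)) := by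
  have hc : Nat.Coprime p p' := (Nat.coprime_primes hp hp').2 hne
  have h1 : mo (p * p') = 1 := by
    unfold mo
    rw [ArithmeticFunction.isMultiplicative_moebius.map_mul_of_coprime hc,
      ArithmeticFunction.moebius_apply_prime hp, ArithmeticFunction.moebius_apply_prime hp']
    norm_num
  rw [h1, Nat.totient_mul hc, Nat.cast_mul, sel4_tot hp, sel4_tot hp']
  rw [one_pow, one_div_mul_one_div]

private lemma sel4_ad_prime {p : ℕ} (hp : p.Prime) (y : ℕ) : Ad p y ≤ (p : ℝ) / (p - 1) := by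
  have h1 : Ad p y ≤ ∑ e ∈ ({1, p} : Finset ℕ), mo e ^ 2 / (e.totient : ℝ) := by
    unfold Ad
    refine sum_le_sum_of_subset_of_nonneg ?_ fun e _ _ => sel4_nn e
    intro e he
    rw [mem_filter, Nat.mem_divisors] at he
    rw [mem_insert, mem_singleton]
    exact (Nat.dvd_prime hp).1 he.1.1
  rw [sum_pair hp.one_lt.ne, sel4_val_one, sel4_val_p hp, sel4_one_add hp] at h1
  exact h1

private lemma sel4_ad_two {p p' : ℕ} (hp : p.Prime) (hp' : p'.Prime) (hne : p ≠ p') (y : ℕ) :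
    Ad (p * p') y ≤ (p : ℝ) / (p - 1) * ((p' : ℝ) / (p' - 1)) := by
  have hs : ∑ e ∈ ({1, p, p', p * p'} : Finset ℕ), mo e ^ 2 / (e.totient : ℝ) =
      1 + (1 / ((p : ℝ) - 1) + (1 / ((p' : ℝ) - 1) + 1 / ((p : ℝ) - 1) * (1 / ((p' : ℝ) - 1)))) := by
    have h1 := hp.one_lt
    have h2 := hp'.one_lt
    have h3 : p < p * p' := by nlinarith
    have h4 : p' < p * p' := by nlinarith
    rw [sum_insert, sum_insert, sum_insert, sum_singleton, sel4_val_one, sel4_val_p hp, sel4_val_p hp',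
      sel4_val_pp hp hp' hne]
    · rw [mem_singleton]
      omega
    · rw [mem_insert, mem_singleton]
      omega
    · rw [mem_insert, mem_insert, mem_singleton]
      omega
  have h1 : Ad (p * p') y ≤ ∑ e ∈ ({1, p, p', p * p'} : Finset ℕ), mo e ^ 2 / (e.totient : ℝ) := by
    unfold Ad
    refine sum_le_sum_of_subset_of_nonneg ?_ fun e _ _ => sel4_nn e
    intro e he
    rw [mem_filter, Nat.mem_divisors] at he
    obtain ⟨⟨he1, _⟩, _⟩ := he
    obtain ⟨e1, e2, h1, h2, rfl⟩ := (Nat.dvd_mul).1 he1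
    simp only [mem_insert, mem_singleton]
    rcases (Nat.dvd_prime hp).1 h1 with rfl | rfl <;> rcases (Nat.dvd_prime hp').1 h2 with rfl | rfl <;> simp
  rw [hs] at h1
  refine h1.trans (le_of_eq ?_)
  rw [← sel4_one_add hp, ← sel4_one_add hp']
  ring

theorem sd_one (D q : ℕ) : Sd D q 1 = Gs D q := by
  unfold Sd Gs
  rw [mul_one]
  refine sum_congr rfl fun l hl => ?_
  rw [mem_filter] at hl
  rw [sel4_ad_one (sel4_one_le_div hl.1), one_pow, mul_one]

/-- terms divisible by `p` -/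
private lemma sel4_term {p l : ℕ} (hp : p.Prime) :
    mo (p * l) ^ 2 / ((p * l).totient : ℝ) ≤
      if Nat.Coprime l p then 1 / ((p : ℝ) - 1) * (mo l ^ 2 / (l.totient : ℝ)) else 0 := by
  split_ifs with h
  · have hc : Nat.Coprime p l := h.symm
    have h1 : mo (p * l) = - mo l := by
      unfold mo
      rw [ArithmeticFunction.isMultiplicative_moebius.map_mul_of_coprime hc,
        ArithmeticFunction.moebius_apply_prime hp]
      push_cast
      ring
    rw [h1, Nat.totient_mul hc, Nat.cast_mul, sel4_tot hp, neg_sq]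
    refine le_of_eq ?_
    rw [one_div, div_eq_mul_inv, mul_inv, div_eq_mul_inv]
    ring
  · have hd : p ∣ l := by
      by_contra hh
      exact h ((Nat.Prime.coprime_iff_not_dvd hp).2 hh).symm
    have hsq : ¬ Squarefree (p * l) := by
      intro hs
      obtain ⟨m, rfl⟩ := hd
      have := hs p ⟨m, by ring⟩
      exact hp.not_isUnit this
    have h1 : mo (p * l) = 0 := by
      unfold mo
      rw [ArithmeticFunction.moebius_eq_zero_of_not_squarefree hsq]
      norm_num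
    rw [h1]
    simp

theorem gs_cop (D q p : ℕ) (hp : p.Prime) (hpq : ¬ p ∣ q) :
    (1 - 1 / (p : ℝ)) * Gs D q ≤ Gs D (q * p) := by
  have hp1 : (1 : ℝ) < p := by exact_mod_cast hp.one_lt
  have hpp : (0 : ℝ) < (p : ℝ) - 1 := by linarith
  set f : ℕ → ℝ := fun e => mo e ^ 2 / (e.totient : ℝ) with hf
  -- the terms which are divisible by p
  have h1 : ∑ l ∈ ((Icc 1 D).filter (fun l => Nat.Coprime l q)).filter (fun l => p ∣ l), f l ≤
      1 / ((p : ℝ) - 1) * Gs D (q * p) := by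
    have hsub : ((Icc 1 D).filter (fun l => Nat.Coprime l q)).filter (fun l => p ∣ l) ⊆
        ((Icc 1 D).filter (fun l => Nat.Coprime l q)).image (fun l => p * l) := by
      intro l hl
      rw [mem_filter, mem_filter, mem_Icc] at hl
      obtain ⟨⟨⟨ha, hb⟩, hc⟩, m, rfl⟩ := hl
      rw [mem_image]
      refine ⟨m, ?_, rfl⟩
      rw [mem_filter, mem_Icc]
      have hm : m ≠ 0 := by
        rintro rfl
        simp at ha
      refine ⟨⟨Nat.one_le_iff_ne_zero.2 hm, ?_⟩, Nat.Coprime.coprime_mul_left hc⟩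
      exact (Nat.le_mul_of_pos_left m hp.pos).trans hb
    calc ∑ l ∈ ((Icc 1 D).filter (fun l => Nat.Coprime l q)).filter (fun l => p ∣ l), f l
        ≤ ∑ l ∈ ((Icc 1 D).filter (fun l => Nat.Coprime l q)).image (fun l => p * l), f l :=
          sum_le_sum_of_subset_of_nonneg hsub fun e _ _ => sel4_nn e
      _ = ∑ l ∈ (Icc 1 D).filter (fun l => Nat.Coprime l q), f (p * l) :=
          sum_image fun a _ b _ hab => Nat.eq_of_mul_eq_mul_left hp.pos hab
      _ ≤ ∑ l ∈ (Icc 1 D).filter (fun l => Nat.Coprime l q),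
            (if Nat.Coprime l p then 1 / ((p : ℝ) - 1) * (mo l ^ 2 / (l.totient : ℝ)) else 0) :=
          sum_le_sum fun l _ => sel4_term hp
      _ = ∑ l ∈ (Icc 1 D).filter (fun l => Nat.Coprime l (q * p)),
            1 / ((p : ℝ) - 1) * (mo l ^ 2 / (l.totient : ℝ)) := by
          rw [← sum_filter, filter_filter]
          refine sum_congr ?_ fun _ _ => rfl
          ext l
          rw [mem_filter, mem_filter, Nat.coprime_mul_iff_right]
      _ = 1 / ((p : ℝ) - 1) * Gs D (q * p) := by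
          unfold Gs
          rw [mul_sum]
  -- the other terms
  have h2 : ∑ l ∈ ((Icc 1 D).filter (fun l => Nat.Coprime l q)).filter (fun l => ¬ p ∣ l), f l = Gs D (q * p) := by
    unfold Gs
    rw [filter_filter]
    refine sum_congr ?_ fun _ _ => rfl
    ext l
    rw [mem_filter, mem_filter, Nat.coprime_mul_iff_right, ← Nat.Prime.coprime_iff_not_dvd hp,
      Nat.coprime_comm (m := p)]
  have h3 : Gs D q ≤ (1 / ((p : ℝ) - 1) + 1) * Gs D (q * p) := by
    have h4 : Gs D q = ∑ l ∈ ((Icc 1 D).filter (fun l => Nat.Coprime l q)).filter (fun l => p ∣ l), f l +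
        ∑ l ∈ ((Icc 1 D).filter (fun l => Nat.Coprime l q)).filter (fun l => ¬ p ∣ l), f l :=
      (sum_filter_add_sum_filter_not _ _ _).symm
    rw [h4, h2, add_mul, one_mul]
    linarith
  have h5 : (1 : ℝ) - 1 / p = ((p : ℝ) - 1) / p := by
    field_simp
  have h6 : 1 / ((p : ℝ) - 1) + 1 = (p : ℝ) / ((p : ℝ) - 1) := by
    rw [add_comm]
    exact sel4_one_add hp
  rw [h6] at h3
  rw [h5]
  have h7 : 0 ≤ ((p : ℝ) - 1) / p := by positivity
  calc ((p : ℝ) - 1) / p * Gs D q ≤ ((p : ℝ) - 1) / p * ((p : ℝ) / ((p : ℝ) - 1) * Gs D (q * p)) :=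
        mul_le_mul_of_nonneg_left h3 h7
    _ = Gs D (q * p) := by
        have h8 : (p : ℝ) ≠ 0 := by linarith
        field_simp

theorem sd_ge (D q p : ℕ) (hp : p.Prime) (hpq : ¬ p ∣ q) :
    (1 - 1 / (p : ℝ)) * Gs D q ≤ Sd D q p := by
  refine (gs_cop D q p hp hpq).trans ?_
  unfold Gs Sd
  refine sum_le_sum fun l hl => ?_
  rw [mem_filter] at hl
  have h1 : 1 ≤ Ad p (D / l) := sel4_ad_ge hp.ne_zero (sel4_one_le_div hl.1)
  have h2 : 1 ≤ Ad p (D / l) ^ 2 := one_le_pow₀ h1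
  calc mo l ^ 2 / (l.totient : ℝ) = mo l ^ 2 / (l.totient : ℝ) * 1 := (mul_one _).symm
    _ ≤ mo l ^ 2 / (l.totient : ℝ) * Ad p (D / l) ^ 2 := mul_le_mul_of_nonneg_left h2 (sel4_nn l)

theorem sd_le_prime (D q p : ℕ) (hp : p.Prime) :
    Sd D q p ≤ ((p : ℝ) / (p - 1)) ^ 2 * Gs D q :=
  sel4_sd_le D q p _ (sel4_ad_prime hp)

theorem sd_le_two (D q p p' : ℕ) (hp : p.Prime) (hp' : p'.Prime) (hne : p ≠ p') :
    Sd D q (p * p') ≤ ((p : ℝ) / (p - 1)) ^ 2 * ((p' : ℝ) / (p' - 1)) ^ 2 * Gs D q := by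
  rw [← mul_pow]
  exact sel4_sd_le D q (p * p') _ (sel4_ad_two hp hp' hne)

end Pool.Agent.H87.WL
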