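import Pool.Agent.H87.WL.Sel1

/-!
# WL Sel2: second moment of Selberg's function in a progression

`k = d k'`, `k' ≤ K/d` (integer part). By `ps_eq`
`∑_{k'} Ψ(a+qdk')² = ∑_{s,t ≤ D, (st,q)=1} λ_s λ_t #{k' ≤ K/d : lcm(s,t) | a + q d k'}`.
Since `(a, qd) = 1`, the count is `0` if `(st, qd) > 1` (a common prime of `s` (or `t`) and `qd` would
divide `a`), and otherwise it is within `1` of `⌊K/d⌋/lcm(s,t)`, hence within `2` of `(K/d)/lcm(s,t)`
(one class modulo `lcm(s,t)`, because `qd` is invertible modulo `lcm(s,t)`). `|λ_s| ≤ D` gives the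
error `2 D^4`.
-/

set_option autoImplicit false

namespace Pool.Agent.H87.WL

open Finset
open Pool.Agent.H91.EHA (Lam lamR hR ramS psiA err)

/-- one residue class -/
private theorem sel2_count (M L v : ℕ) (hL : 1 ≤ L) :
    |((((Icc 1 M).filter (fun k => k ≡ v [MOD L])).card : ℕ) : ℝ) - (M : ℝ) / L| ≤ 1 := by
  have hI : Icc 1 M = Ioc 0 M := by ext k; simp [mem_Icc, mem_Ioc, Nat.lt_iff_add_one_le]
  have hL0 : (0 : ℚ) < L := by exact_mod_cast hL
  have h1 := Nat.Ioc_filter_modEq_card 0 M (r := L) hL v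
  rw [hI]
  set N : ℕ := ((Ioc 0 M).filter (fun k => k ≡ v [MOD L])).card with hN
  have h2 := Int.floor_le (((M : ℚ) - v) / L)
  have h3 := Int.lt_floor_add_one (((M : ℚ) - v) / L)
  have h4 := Int.floor_le ((((0 : ℕ) : ℚ) - v) / L)
  have h5 := Int.lt_floor_add_one ((((0 : ℕ) : ℚ) - v) / L)
  have h6 : ((M : ℚ) - v) / L = M / L + (((0 : ℕ) : ℚ) - v) / L := by
    push_cast
    field_simp
    ring
  have hM0 : (0 : ℚ) ≤ (M : ℚ) / L := by positivity
  have key : |((N : ℚ)) - (M : ℚ) / L| ≤ 1 := by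
    have h7 : ((N : ℤ) : ℚ) = max ((⌊((M : ℚ) - v) / L⌋ : ℚ) - (⌊(((0 : ℕ) : ℚ) - v) / L⌋ : ℚ)) 0 := by
      rw [h1]; push_cast; rfl
    have h8 : ((N : ℤ) : ℚ) = (N : ℚ) := by push_cast; rfl
    rw [← h8, h7, abs_le]
    rcases le_total ((⌊((M : ℚ) - v) / L⌋ : ℚ) - (⌊(((0 : ℕ) : ℚ) - v) / L⌋ : ℚ)) 0 with h9 | h9
    · rw [max_eq_right h9]
      constructor <;> linarith
    · rw [max_eq_left h9]
      constructor <;> linarith
  have h10 : ((|((N : ℚ)) - (M : ℚ) / L| : ℚ) : ℝ) ≤ ((1 : ℚ) : ℝ) := by exact_mod_cast key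
  push_cast at h10
  exact h10

/-- the number of `k ≤ K`, `d ∣ k`, with `s, t ∣ a + q k` -/
private def sel2N (q a d K s t : ℕ) : ℕ :=
  ((Icc 1 K).filter (fun k => d ∣ k ∧ s ∣ a + q * k ∧ t ∣ a + q * k)).card

private theorem sel2_cop (q a d K s t : ℕ) (hd : 1 ≤ d) (hs : 1 ≤ s) (ht : 1 ≤ t)
    (hs' : Nat.Coprime s (q * d)) (ht' : Nat.Coprime t (q * d)) :
    |(sel2N q a d K s t : ℝ) - (K : ℝ) / d / (Nat.lcm s t : ℝ)| ≤ 2 := by
  set L := Nat.lcm s t with hLdef
  have hL : 1 ≤ L := Nat.pos_of_ne_zero (Nat.lcm_ne_zero (by omega) (by omega))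
  have : NeZero L := ⟨by omega⟩
  have hLc : Nat.Coprime (q * d) L := by
    have h1 : L ∣ s * t := Nat.lcm_dvd_mul s t
    exact (Nat.Coprime.coprime_dvd_left h1 (Nat.Coprime.mul_left hs' ht')).symm
  obtain ⟨w, hw⟩ := (ZMod.isUnit_iff_coprime (q * d) L).2 hLc
  set v : ℕ := ((-(a : ZMod L)) * ((w⁻¹ : (ZMod L)ˣ) : ZMod L)).val with hv
  have hvc : (v : ZMod L) = (-(a : ZMod L)) * ((w⁻¹ : (ZMod L)ˣ) : ZMod L) := by
    rw [hv, ZMod.natCast_zmod_val]
  have hiff : ∀ k' : ℕ, L ∣ a + q * (d * k') ↔ k' ≡ v [MOD L] := by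
    intro k'
    rw [← ZMod.natCast_eq_zero_iff, ← ZMod.natCast_eq_natCast_iff]
    have h1 : ((a + q * (d * k') : ℕ) : ZMod L) = (a : ZMod L) + (w : ZMod L) * (k' : ZMod L) := by
      rw [hw]; push_cast; ring
    rw [h1, hvc]
    constructor
    · intro h
      have h2 : (w : ZMod L) * (k' : ZMod L) = -(a : ZMod L) := by
        linear_combination h
      calc (k' : ZMod L) = ((w⁻¹ : (ZMod L)ˣ) : ZMod L) * ((w : ZMod L) * (k' : ZMod L)) := by
            rw [← mul_assoc, Units.inv_mul, one_mul]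
        _ = -(a : ZMod L) * ((w⁻¹ : (ZMod L)ˣ) : ZMod L) := by rw [h2]; ring
    · intro h
      rw [h]
      have h2 : (w : ZMod L) * ((w⁻¹ : (ZMod L)ˣ) : ZMod L) = 1 := Units.mul_inv w
      linear_combination (-(a : ZMod L)) * h2
  have hcard : sel2N q a d K s t = ((Icc 1 (K / d)).filter (fun k' => k' ≡ v [MOD L])).card := by
    unfold sel2N
    have himg : (Icc 1 K).filter (fun k => d ∣ k ∧ s ∣ a + q * k ∧ t ∣ a + q * k)
        = ((Icc 1 (K / d)).filter (fun k' => k' ≡ v [MOD L])).image (fun k' => d * k') := by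
      ext k
      simp only [mem_filter, mem_Icc, mem_image]
      constructor
      · rintro ⟨⟨h1, h2⟩, ⟨k', rfl⟩, h4, h5⟩
        refine ⟨k', ⟨⟨Nat.pos_of_ne_zero ?_, ?_⟩, ?_⟩, rfl⟩
        · rintro rfl
          simp at h1
        · rw [Nat.le_div_iff_mul_le (by omega), mul_comm]
          exact h2
        · exact (hiff k').1 (Nat.lcm_dvd h4 h5)
      · rintro ⟨k', ⟨⟨h1, h2⟩, h3⟩, rfl⟩
        have h4 := (hiff k').2 h3
        refine ⟨⟨Nat.mul_pos (by omega) h1, ?_⟩, Dvd.intro _ rfl, (Nat.dvd_lcm_left s t).trans h4,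
          (Nat.dvd_lcm_right s t).trans h4⟩
        rw [Nat.le_div_iff_mul_le (by omega), mul_comm] at h2
        exact h2
    rw [himg, card_image_of_injective]
    intro x y hxy
    exact Nat.eq_of_mul_eq_mul_left (by omega) hxy
  have h1 := sel2_count (K / d) L v hL
  rw [← hcard] at h1
  have hd0 : (0 : ℝ) < d := by exact_mod_cast hd
  have hL0 : (1 : ℝ) ≤ L := by exact_mod_cast hL
  have h2 : ((K / d : ℕ) : ℝ) ≤ (K : ℝ) / d := Nat.cast_div_le
  have h3 : (K : ℝ) / d ≤ ((K / d : ℕ) : ℝ) + 1 := by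
    rw [div_le_iff₀ hd0]
    have h4 : K ≤ (K / d + 1) * d := by
      have := Nat.div_add_mod K d
      have := Nat.mod_lt K (show 0 < d by omega)
      nlinarith
    exact_mod_cast h4
  have h5 : ((K / d : ℕ) : ℝ) / L ≤ (K : ℝ) / d / L := by gcongr
  have h6 : (K : ℝ) / d / L ≤ ((K / d : ℕ) : ℝ) / L + 1 := by
    calc (K : ℝ) / d / L ≤ (((K / d : ℕ) : ℝ) + 1) / L := by gcongr
      _ = ((K / d : ℕ) : ℝ) / L + 1 / L := by ring
      _ ≤ ((K / d : ℕ) : ℝ) / L + 1 := by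
        have : 1 / (L : ℝ) ≤ 1 := by rw [div_le_one (by linarith)]; exact hL0
        linarith
  rw [abs_le] at h1 ⊢
  constructor <;> linarith [h1.1, h1.2]

private theorem sel2_zero (q a d K s t : ℕ) (ha : Nat.Coprime a (q * d))
    (h : ¬ (Nat.Coprime s (q * d) ∧ Nat.Coprime t (q * d))) : sel2N q a d K s t = 0 := by
  unfold sel2N
  rw [card_eq_zero, filter_eq_empty_iff]
  rintro k - ⟨hdk, hs, ht⟩
  have key : ∀ r : ℕ, r ∣ a + q * k → Nat.Coprime r (q * d) := by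
    intro r hr
    by_contra hcon
    obtain ⟨p, hp, hpr, hpqd⟩ := Nat.Prime.not_coprime_iff_dvd.1 hcon
    have h1 : p ∣ a + q * k := hpr.trans hr
    have h2 : p ∣ q * k := hpqd.trans (Nat.mul_dvd_mul_left q hdk)
    have h3 : p ∣ a := (Nat.dvd_add_iff_left h2).2 h1
    exact Nat.Prime.not_coprime_iff_dvd.2 ⟨p, hp, h3, hpqd⟩ ha
  exact h ⟨key s hs, key t ht⟩

theorem td_qf (D q a d K : ℕ) (hq : 1 ≤ q) (hd : 1 ≤ d) (ha : Nat.Coprime a (q * d)) :
    |Td D q a d K - (K : ℝ) / d * Qf D q d| ≤ 2 * (D : ℝ) ^ 4 := by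
  classical
  -- expand `Td`
  have hT : Td D q a d K = ∑ s ∈ Icc 1 D, ∑ t ∈ Icc 1 D,
      if Nat.Coprime s q ∧ Nat.Coprime t q then
        ls D q s * ls D q t * (sel2N q a d K s t : ℝ) else 0 := by
    unfold Td
    have h1 : ∀ n : ℕ, Ps D q n ^ 2 = ∑ s ∈ Icc 1 D, ∑ t ∈ Icc 1 D,
        (if Nat.Coprime s q ∧ s ∣ n then ls D q s else 0) *
          (if Nat.Coprime t q ∧ t ∣ n then ls D q t else 0) := by
      intro n
      rw [ps_eq, sum_filter, sq, sum_mul_sum]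
    simp_rw [h1]
    rw [sum_comm]
    refine sum_congr rfl fun s _ => ?_
    rw [sum_comm]
    refine sum_congr rfl fun t _ => ?_
    split_ifs with hst
    · have h2 : ∀ k ∈ (Icc 1 K).filter (fun k => d ∣ k),
          (if Nat.Coprime s q ∧ s ∣ a + q * k then ls D q s else 0) *
            (if Nat.Coprime t q ∧ t ∣ a + q * k then ls D q t else 0)
          = if s ∣ a + q * k ∧ t ∣ a + q * k then ls D q s * ls D q t else 0 := by
        intro k _
        have e1 : (Nat.Coprime s q ∧ s ∣ a + q * k) ↔ s ∣ a + q * k := and_iff_right hst.1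
        have e2 : (Nat.Coprime t q ∧ t ∣ a + q * k) ↔ t ∣ a + q * k := and_iff_right hst.2
        rw [if_congr e1 rfl rfl, if_congr e2 rfl rfl]
        by_cases h3 : s ∣ a + q * k
        · by_cases h4 : t ∣ a + q * k
          · simp only [h3, h4, and_self, if_true]
          · simp only [h3, h4, and_false, if_true, if_false, mul_zero]
        · simp only [h3, false_and, if_false, zero_mul]
      rw [sum_congr rfl h2, ← sum_filter, sum_const, nsmul_eq_mul, filter_filter, mul_comm]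
      rfl
    · refine sum_eq_zero fun k _ => ?_
      rcases not_and_or.1 hst with h3 | h3
      · simp [h3]
      · simp [h3]
  have hQ : (K : ℝ) / d * Qf D q d = ∑ s ∈ Icc 1 D, ∑ t ∈ Icc 1 D,
      if Nat.Coprime s (q * d) ∧ Nat.Coprime t (q * d) then
        ls D q s * ls D q t * ((K : ℝ) / d / (Nat.lcm s t : ℝ)) else 0 := by
    unfold Qf
    rw [sum_filter, mul_sum]
    refine sum_congr rfl fun s _ => ?_
    by_cases h3 : Nat.Coprime s (q * d)
    · rw [if_pos h3, sum_filter, mul_sum]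
      refine sum_congr rfl fun t _ => ?_
      by_cases h4 : Nat.Coprime t (q * d)
      · rw [if_pos h4, if_pos ⟨h3, h4⟩]
        ring
      · rw [if_neg h4, if_neg (fun h => h4 h.2), mul_zero]
    · rw [if_neg h3, mul_zero]
      symm
      exact sum_eq_zero fun t _ => if_neg (fun h => h3 h.1)
  rw [hT, hQ, ← sum_sub_distrib]
  simp_rw [← sum_sub_distrib]
  have hterm : ∀ s ∈ Icc 1 D, ∀ t ∈ Icc 1 D,
      |(if Nat.Coprime s q ∧ Nat.Coprime t q then
        ls D q s * ls D q t * (sel2N q a d K s t : ℝ) else 0)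
        - (if Nat.Coprime s (q * d) ∧ Nat.Coprime t (q * d) then
        ls D q s * ls D q t * ((K : ℝ) / d / (Nat.lcm s t : ℝ)) else 0)| ≤ 2 * (D : ℝ) ^ 2 := by
    intro s hs t ht
    rw [mem_Icc] at hs ht
    have hls := ls_le D q s hs.1
    have hlt := ls_le D q t ht.1
    have hD0 : (0 : ℝ) ≤ D := Nat.cast_nonneg D
    have hprod : |ls D q s * ls D q t| ≤ (D : ℝ) ^ 2 := by
      rw [abs_mul, sq]
      exact mul_le_mul hls hlt (abs_nonneg _) hD0
    by_cases h1 : Nat.Coprime s (q * d) ∧ Nat.Coprime t (q * d)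
    · have h2 : Nat.Coprime s q ∧ Nat.Coprime t q :=
        ⟨Nat.Coprime.coprime_mul_right_right h1.1, Nat.Coprime.coprime_mul_right_right h1.2⟩
      rw [if_pos h1, if_pos h2, ← mul_sub, abs_mul]
      have h3 := sel2_cop q a d K s t hd hs.1 ht.1 h1.1 h1.2
      calc |ls D q s * ls D q t| * |(sel2N q a d K s t : ℝ) - (K : ℝ) / d / (Nat.lcm s t : ℝ)|
          ≤ (D : ℝ) ^ 2 * 2 := mul_le_mul hprod h3 (abs_nonneg _) (by positivity)
        _ = 2 * (D : ℝ) ^ 2 := by ring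
    · rw [if_neg h1, sel2_zero q a d K s t ha h1]
      simp only [Nat.cast_zero, mul_zero, ite_self, sub_zero, abs_zero]
      positivity
  calc |∑ s ∈ Icc 1 D, ∑ t ∈ Icc 1 D, _| ≤ ∑ s ∈ Icc 1 D, ∑ t ∈ Icc 1 D, 2 * (D : ℝ) ^ 2 := by
        refine (abs_sum_le_sum_abs _ _).trans (sum_le_sum fun s hs => ?_)
        exact (abs_sum_le_sum_abs _ _).trans (sum_le_sum fun t ht => hterm s hs t ht)
    _ = 2 * (D : ℝ) ^ 4 := by
        simp only [sum_const, Nat.card_Icc, nsmul_eq_mul, Nat.add_sub_cancel]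
        ring

end Pool.Agent.H87.WL
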