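import Pool.Agent.H87.WL.Sel1

/-!
# WL Sel3: diagonalization of the quadratic form

For `(st, qd) = 1`: `1/lcm(s,t) = gcd(s,t)/(st) = ∑_{l | s, l | t} φ(l)/(st)` (`Nat.sum_totient`), so
`Qf D q d = ∑_{l ≤ D, (l,qd)=1} φ(l) (∑_{s ≤ D, (s,qd)=1, l | s} λ_s/s)²`.
With `λ_s/s = ∑_{m ≤ D, (m,q)=1, s | m} μ(m/s) μ(m)/φ(m)` the inner sum is
`∑_{m ≤ D, (m,q)=1} μ(m)/φ(m) ∑_{s : l | s | m, (s,d)=1} μ(m/s)`. Only squarefree `m` with `l | m` count. Write
`m = l m₁ e` with `e = (m, d)` (`(l,d)=1`), `s = l s₁`, `s₁ | m₁`: `∑_{s₁ | m₁} μ(m₁ e/s₁) = μ(e) [m₁ = 1]`.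
So the inner sum is `∑_{e | d, l e ≤ D} μ(l e) μ(e)/φ(l e) = μ(l)/φ(l) Ad d (D/l)`
(`d` squarefree is not needed: `μ(e)²` takes care of it; `(e, q) = 1` holds because `(d,q) = 1`;
`l e ≤ D` iff `e ≤ D/l` (integer part)).
-/

set_option autoImplicit false

namespace Pool.Agent.H87.WL

open Finset
open Pool.Agent.H91.EHA (Lam lamR hR ramS psiA err)

private lemma sel3_sum_mu (n : ℕ) :
    ∑ i ∈ n.divisors, ArithmeticFunction.moebius i = if n = 1 then 1 else 0 := by
  rw [← ArithmeticFunction.coe_mul_zeta_apply, ArithmeticFunction.moebius_mul_coe_zeta,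
    ArithmeticFunction.one_apply]

private lemma sel3_convZ (d n : ℕ) (hd : d ≠ 0) :
    ∑ s ∈ n.divisors, ArithmeticFunction.moebius (n / s) * (if Nat.Coprime s d then 1 else 0) =
      if n ∣ d then ArithmeticFunction.moebius n else 0 := by
  classical
  let g : ArithmeticFunction ℤ := ⟨fun k => if k ∣ d then ArithmeticFunction.moebius k else 0, by simp⟩
  have hg : ∀ k, g k = if k ∣ d then ArithmeticFunction.moebius k else 0 := fun k => rfl
  have hz : ∀ s, s ≠ 0 → (g * (ArithmeticFunction.zeta : ArithmeticFunction ℤ)) s =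
      if Nat.Coprime s d then 1 else 0 := by
    intro s hs
    rw [ArithmeticFunction.coe_mul_zeta_apply]
    simp only [hg]
    rw [← Finset.sum_filter]
    have h1 : s.divisors.filter (fun i => i ∣ d) = (Nat.gcd s d).divisors := by
      ext i
      simp only [Finset.mem_filter, Nat.mem_divisors, Nat.dvd_gcd_iff]
      constructor
      · rintro ⟨⟨h1, _⟩, h2⟩
        exact ⟨⟨h1, h2⟩, Nat.gcd_ne_zero_left hs⟩
      · rintro ⟨⟨h1, h2⟩, _⟩
        exact ⟨⟨h1, hs⟩, h2⟩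
    rw [h1, sel3_sum_mu _]
  have h2 : (ArithmeticFunction.moebius * (g * (ArithmeticFunction.zeta : ArithmeticFunction ℤ))) = g := by
    rw [mul_left_comm, ArithmeticFunction.moebius_mul_coe_zeta, mul_one]
  have h3 : (ArithmeticFunction.moebius * (g * (ArithmeticFunction.zeta : ArithmeticFunction ℤ))) n = g n := by
    rw [h2]
  rw [ArithmeticFunction.mul_apply, hg] at h3
  rw [← h3]
  rw [Nat.sum_divisorsAntidiagonal' (f := fun i j => ArithmeticFunction.moebius i *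
    (g * (ArithmeticFunction.zeta : ArithmeticFunction ℤ)) j)]
  refine Finset.sum_congr rfl fun s hs => ?_
  have hs0 : s ≠ 0 := by
    rintro rfl
    exact (Nat.mem_divisors.1 hs).2 (Nat.eq_zero_of_zero_dvd (Nat.mem_divisors.1 hs).1)
  rw [hz s hs0]

private lemma sel3_conv (d n : ℕ) (hd : d ≠ 0) :
    ∑ s ∈ n.divisors.filter (fun s => Nat.Coprime s d), mo (n / s) =
      if n ∣ d then mo n else 0 := by
  have h := congrArg (fun z : ℤ => (z : ℝ)) (sel3_convZ d n hd)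
  simp only [Int.cast_sum, Int.cast_mul] at h
  rw [Finset.sum_filter]
  have h1 : ((if n ∣ d then ArithmeticFunction.moebius n else 0 : ℤ) : ℝ) = if n ∣ d then mo n else 0 := by
    split_ifs
    · rfl
    · simp
  rw [h1] at h
  rw [← h]
  refine Finset.sum_congr rfl fun s _ => ?_
  split_ifs
  · simp [mo]
  · simp

/-- the sum over `s` with `l | s | m` -/
private lemma sel3_inner (D q d l m : ℕ) (hd : d ≠ 0) (hl : Nat.Coprime l (q * d)) (hl0 : l ≠ 0)
    (hm1 : 1 ≤ m) (hmD : m ≤ D) (hmq : Nat.Coprime m q) :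
    ∑ s ∈ (Icc 1 D).filter (fun s => Nat.Coprime s (q * d)),
      (if l ∣ s ∧ s ∣ m then mo (m / s) else 0) =
      if l ∣ m ∧ m / l ∣ d then mo (m / l) else 0 := by
  have hld : Nat.Coprime l d := Nat.Coprime.coprime_mul_left_right hl
  by_cases hlm : l ∣ m
  · obtain ⟨n, rfl⟩ := hlm
    have hn0 : n ≠ 0 := by
      rintro rfl
      simp at hm1
    have hdiv : l * n / l = n := Nat.mul_div_cancel_left n (Nat.pos_of_ne_zero hl0)
    rw [hdiv]
    have h1 : (if l ∣ l * n ∧ n ∣ d then mo n else 0) = if n ∣ d then mo n else 0 := by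
      simp
    rw [h1, ← sel3_conv d n hd, ← Finset.sum_filter]
    symm
    refine Finset.sum_bij (fun s1 _ => l * s1) ?_ ?_ ?_ ?_
    · intro s1 hs1
      rw [Finset.mem_filter, Nat.mem_divisors] at hs1
      obtain ⟨⟨h2, _⟩, h3⟩ := hs1
      have h4 : l * s1 ∣ l * n := Nat.mul_dvd_mul_left l h2
      rw [Finset.mem_filter, Finset.mem_filter, Finset.mem_Icc]
      refine ⟨⟨⟨?_, ?_⟩, ?_⟩, Nat.dvd_mul_right l s1, h4⟩
      · exact Nat.pos_of_dvd_of_pos h4 hm1
      · exact (Nat.le_of_dvd hm1 h4).trans hmD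
      · refine Nat.Coprime.mul_right ?_ ?_
        · exact Nat.Coprime.coprime_dvd_left h4 hmq
        · exact Nat.Coprime.mul_left hld h3
    · intro a _ b _ hab
      exact Nat.eq_of_mul_eq_mul_left (Nat.pos_of_ne_zero hl0) hab
    · intro s hs
      rw [Finset.mem_filter, Finset.mem_filter, Finset.mem_Icc] at hs
      obtain ⟨⟨⟨h2, h3⟩, h4⟩, ⟨s1, rfl⟩, h6⟩ := hs
      refine ⟨s1, ?_, rfl⟩
      rw [Finset.mem_filter, Nat.mem_divisors]
      refine ⟨⟨Nat.dvd_of_mul_dvd_mul_left (Nat.pos_of_ne_zero hl0) h6, hn0⟩, ?_⟩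
      exact Nat.Coprime.coprime_mul_left (Nat.Coprime.coprime_mul_left_right h4)
    · intro s1 hs1
      rw [Nat.mul_div_mul_left _ _ (Nat.pos_of_ne_zero hl0)]
  · rw [if_neg (fun h => hlm h.1)]
    refine Finset.sum_eq_zero fun s _ => ?_
    rw [if_neg]
    rintro ⟨h1, h2⟩
    exact hlm (h1.trans h2)

private lemma sel3_I (D q d l : ℕ) (hd : d ≠ 0) (hdq : Nat.Coprime d q)
    (hl : Nat.Coprime l (q * d)) (hl0 : l ≠ 0) :
    ∑ s ∈ (Icc 1 D).filter (fun s => Nat.Coprime s (q * d)),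
      (if l ∣ s then ls D q s / (s : ℝ) else 0) = mo l / (l.totient : ℝ) * Ad d (D / l) := by
  have hlq : Nat.Coprime l q := Nat.Coprime.coprime_mul_right_right hl
  have hld : Nat.Coprime l d := Nat.Coprime.coprime_mul_left_right hl
  have hlpos : 0 < l := Nat.pos_of_ne_zero hl0
  have h1 : ∀ s ∈ (Icc 1 D).filter (fun s => Nat.Coprime s (q * d)),
      (if l ∣ s then ls D q s / (s : ℝ) else 0) =
      ∑ m ∈ (Icc 1 D).filter (fun m => Nat.Coprime m q),
        mo m / (m.totient : ℝ) * (if l ∣ s ∧ s ∣ m then mo (m / s) else 0) := by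
    intro s hs
    rw [Finset.mem_filter, Finset.mem_Icc] at hs
    have hs0 : (s : ℝ) ≠ 0 := by
      have : s ≠ 0 := by omega
      exact_mod_cast this
    split_ifs with h
    · unfold ls
      rw [mul_div_assoc, mul_comm, div_mul_cancel₀ _ hs0]
      have e : (Icc 1 D).filter (fun l => Nat.Coprime l q ∧ s ∣ l) =
          ((Icc 1 D).filter (fun m => Nat.Coprime m q)).filter (fun m => s ∣ m) := by
        rw [Finset.filter_filter]
      rw [e, Finset.sum_filter]
      refine Finset.sum_congr rfl fun m _ => ?_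
      by_cases hm : s ∣ m
      · rw [if_pos hm, if_pos ⟨h, hm⟩]
        ring
      · rw [if_neg hm, if_neg (fun h' => hm h'.2), mul_zero]
    · symm
      refine Finset.sum_eq_zero fun m _ => ?_
      rw [if_neg (fun h' => h h'.1), mul_zero]
  rw [Finset.sum_congr rfl h1, Finset.sum_comm]
  simp only [← Finset.mul_sum]
  have h2 : ∀ m ∈ (Icc 1 D).filter (fun m => Nat.Coprime m q),
      mo m / (m.totient : ℝ) * ∑ s ∈ (Icc 1 D).filter (fun s => Nat.Coprime s (q * d)),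
        (if l ∣ s ∧ s ∣ m then mo (m / s) else 0) =
      if l ∣ m ∧ m / l ∣ d then mo m / (m.totient : ℝ) * mo (m / l) else 0 := by
    intro m hm
    rw [Finset.mem_filter, Finset.mem_Icc] at hm
    rw [sel3_inner D q d l m hd hl hl0 hm.1.1 hm.1.2 hm.2]
    split_ifs
    · rfl
    · rw [mul_zero]
  rw [Finset.sum_congr rfl h2, ← Finset.sum_filter]
  unfold Ad
  rw [Finset.mul_sum]
  symm
  refine Finset.sum_bij (fun e _ => l * e) ?_ ?_ ?_ ?_
  · intro e he
    rw [Finset.mem_filter, Nat.mem_divisors] at he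
    obtain ⟨⟨h3, _⟩, h4⟩ := he
    have he0 : 0 < e := Nat.pos_of_dvd_of_pos h3 (Nat.pos_of_ne_zero hd)
    rw [Finset.mem_filter, Finset.mem_filter, Finset.mem_Icc]
    refine ⟨⟨⟨Nat.mul_pos hlpos he0, ?_⟩, ?_⟩, Nat.dvd_mul_right l e, ?_⟩
    · rw [mul_comm]
      exact (Nat.le_div_iff_mul_le hlpos).1 h4
    · exact Nat.Coprime.mul_left hlq (Nat.Coprime.coprime_dvd_left h3 hdq)
    · rw [Nat.mul_div_cancel_left e hlpos]
      exact h3
  · intro a _ b _ hab
    exact Nat.eq_of_mul_eq_mul_left hlpos hab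
  · intro m hm
    rw [Finset.mem_filter, Finset.mem_filter, Finset.mem_Icc] at hm
    obtain ⟨⟨⟨h3, h4⟩, h5⟩, ⟨e, rfl⟩, h7⟩ := hm
    rw [Nat.mul_div_cancel_left e hlpos] at h7
    refine ⟨e, ?_, rfl⟩
    rw [Finset.mem_filter, Nat.mem_divisors]
    refine ⟨⟨h7, hd⟩, ?_⟩
    rw [Nat.le_div_iff_mul_le hlpos, mul_comm]
    exact h4
  · intro e he
    rw [Finset.mem_filter, Nat.mem_divisors] at he
    obtain ⟨⟨h3, _⟩, h4⟩ := he
    have hle : Nat.Coprime l e := Nat.Coprime.coprime_dvd_right h3 hld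
    rw [Nat.mul_div_cancel_left e hlpos, Nat.totient_mul hle]
    have hmo : mo (l * e) = mo l * mo e := by
      unfold mo
      rw [ArithmeticFunction.isMultiplicative_moebius.map_mul_of_coprime hle]
      push_cast
      ring
    rw [hmo]
    push_cast
    have he0 : 0 < e := Nat.pos_of_dvd_of_pos h3 (Nat.pos_of_ne_zero hd)
    have t1 : (l.totient : ℝ) ≠ 0 := by
      have := (Nat.totient_pos.2 hlpos).ne'
      exact_mod_cast this
    have t2 : (e.totient : ℝ) ≠ 0 := by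
      have := (Nat.totient_pos.2 he0).ne'
      exact_mod_cast this
    field_simp

private lemma sel3_lcm (D m s t : ℕ) (hs1 : 1 ≤ s) (hsD : s ≤ D) (hs : Nat.Coprime s m)
    (ht1 : 1 ≤ t) :
    (1 : ℝ) / (Nat.lcm s t : ℝ) = ∑ l ∈ (Icc 1 D).filter (fun l => Nat.Coprime l m),
      (if l ∣ s ∧ l ∣ t then (l.totient : ℝ) else 0) / ((s : ℝ) * (t : ℝ)) := by
  have hg : (Nat.gcd s t : ℝ) * (Nat.lcm s t : ℝ) = (s : ℝ) * (t : ℝ) := by
    have := Nat.gcd_mul_lcm s t
    exact_mod_cast this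
  have h0 : Nat.gcd s t ≠ 0 := Nat.gcd_ne_zero_left (by omega)
  have hs0 : (s : ℝ) ≠ 0 := by
    have : s ≠ 0 := by omega
    exact_mod_cast this
  have ht0 : (t : ℝ) ≠ 0 := by
    have : t ≠ 0 := by omega
    exact_mod_cast this
  have hl0 : (Nat.lcm s t : ℝ) ≠ 0 := by
    have : Nat.lcm s t ≠ 0 := Nat.lcm_ne_zero (by omega) (by omega)
    exact_mod_cast this
  rw [← Finset.sum_div]
  have h1 : ∑ l ∈ (Icc 1 D).filter (fun l => Nat.Coprime l m),
      (if l ∣ s ∧ l ∣ t then (l.totient : ℝ) else 0) = (Nat.gcd s t : ℝ) := by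
    rw [← Finset.sum_filter]
    have h2 : ((Icc 1 D).filter (fun l => Nat.Coprime l m)).filter (fun l => l ∣ s ∧ l ∣ t) =
        (Nat.gcd s t).divisors := by
      ext l
      rw [Finset.mem_filter, Finset.mem_filter, Finset.mem_Icc, Nat.mem_divisors, Nat.dvd_gcd_iff]
      constructor
      · rintro ⟨_, h3⟩
        exact ⟨h3, h0⟩
      · rintro ⟨h3, _⟩
        refine ⟨⟨⟨Nat.pos_of_dvd_of_pos h3.1 hs1, (Nat.le_of_dvd hs1 h3.1).trans hsD⟩, ?_⟩, h3⟩
        exact Nat.Coprime.coprime_dvd_left h3.1 hs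
    rw [h2, ← Nat.cast_sum, Nat.sum_totient]
  rw [h1, ← hg]
  have hgr : (Nat.gcd s t : ℝ) ≠ 0 := by exact_mod_cast h0
  field_simp

theorem qf_eq (D q d : ℕ) (hq : 1 ≤ q) (hd : 1 ≤ d) (hdq : Nat.Coprime d q) :
    Qf D q d = Sd D q d := by
  have hd0 : d ≠ 0 := by omega
  unfold Qf Sd
  have h1 : ∀ s ∈ (Icc 1 D).filter (fun s => Nat.Coprime s (q * d)),
      ∀ t ∈ (Icc 1 D).filter (fun t => Nat.Coprime t (q * d)),
      ls D q s * ls D q t / (Nat.lcm s t : ℝ) =
      ∑ l ∈ (Icc 1 D).filter (fun l => Nat.Coprime l (q * d)), (l.totient : ℝ) *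
        ((if l ∣ s then ls D q s / (s : ℝ) else 0) * (if l ∣ t then ls D q t / (t : ℝ) else 0)) := by
    intro s hs t ht
    rw [Finset.mem_filter, Finset.mem_Icc] at hs ht
    rw [div_eq_mul_one_div, sel3_lcm D (q * d) s t hs.1.1 hs.1.2 hs.2 ht.1.1, Finset.mul_sum]
    refine Finset.sum_congr rfl fun l _ => ?_
    by_cases a : l ∣ s
    · by_cases b : l ∣ t
      · rw [if_pos ⟨a, b⟩, if_pos a, if_pos b]
        ring
      · rw [if_neg (fun h => b h.2), if_neg b]
        simp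
    · rw [if_neg (fun h => a h.1), if_neg a]
      simp
  rw [Finset.sum_congr rfl fun s hs => Finset.sum_congr rfl fun t ht => h1 s hs t ht]
  have h2 : ∀ s ∈ (Icc 1 D).filter (fun s => Nat.Coprime s (q * d)),
      ∑ t ∈ (Icc 1 D).filter (fun t => Nat.Coprime t (q * d)),
      ∑ l ∈ (Icc 1 D).filter (fun l => Nat.Coprime l (q * d)), (l.totient : ℝ) *
        ((if l ∣ s then ls D q s / (s : ℝ) else 0) * (if l ∣ t then ls D q t / (t : ℝ) else 0)) =
      ∑ l ∈ (Icc 1 D).filter (fun l => Nat.Coprime l (q * d)),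
        ∑ t ∈ (Icc 1 D).filter (fun t => Nat.Coprime t (q * d)), (l.totient : ℝ) *
        ((if l ∣ s then ls D q s / (s : ℝ) else 0) * (if l ∣ t then ls D q t / (t : ℝ) else 0)) :=
    fun s _ => Finset.sum_comm
  rw [Finset.sum_congr rfl h2, Finset.sum_comm]
  refine Finset.sum_congr rfl fun l hl => ?_
  rw [Finset.mem_filter, Finset.mem_Icc] at hl
  have hl0 : l ≠ 0 := by omega
  have hI := sel3_I D q d l hd0 hdq hl.2 hl0
  simp only [← Finset.mul_sum]
  rw [← Finset.sum_mul, hI]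
  have t1 : (l.totient : ℝ) ≠ 0 := by
    have := (Nat.totient_pos.2 (Nat.pos_of_ne_zero hl0)).ne'
    exact_mod_cast this
  field_simp

end Pool.Agent.H87.WL
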