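import Pool.Agent.H87.WL.Pt
import Pool.Agent.H91.EHA.Lam2

/-!
# WL Bmid: large moduli

WLOG `η ≤ 1` (`bad` is decreasing in `η`). `M0` from `pt θ' η` with `θ' = (1+θ)/2` (because `a ≤ a0 + H` and `q ≤ 2Q`
are only `≤ x^{θ'}`). Apply `WProp` with `θ` and the exponent `c + 2`: choose `Br ≥ Br0`, `Br ≥ c + 4`, then
`B ≥ B0`, `B ≥ 3 Br + 4`, `B ≥ 1`, then `B'` from `mu_large M0 B`, then `C'`. Let `H = ⌊L^{C'}⌋ ≤ x^{1/4} ≤ Q`.
By `pt` every pair `(a, q)`, `q ∈ bad x a Q η`, satisfies one of three inequalities; number of pairs: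
(1) Markov with `WProp`: `(η/100)(x/(2Q)) N₁ ≤ H x/L^{c+2}`, so `N₁ ≤ (200/η) H Q/L^{c+2}`;
(2) does not depend on `a`: `lamR_avg` (`gR` is the sum there): `(η/100)(1/(2Q)) N₂' ≤ C (1+log Q)²/R`, so
`N₂ ≤ H (200 C/η) Q (1+L)²/(L^{Br} - 1)`;
(3) `pps_avg`: `(η/100)(x/(2Q)) N₃ ≤ H x^{4/5} + H Q L`.
Sum `≤ H Q/L^c` for large `x`.
-/

set_option autoImplicit false

namespace Pool.Agent.H87.WL

open Finset
open Pool.Agent.H91.EHA (Lam lamR hR ramS psiA err)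

open Filter Topology in
private lemma bmid_lim (k : ℕ) (s : ℝ) (hs : 0 < s) :
    Tendsto (fun x : ℝ => Real.log x ^ k * x ^ (-s)) atTop (𝓝 0) := by
  have h := (isLittleO_log_rpow_rpow_atTop (k : ℝ) hs).tendsto_div_nhds_zero
  refine h.congr' ?_
  filter_upwards [eventually_gt_atTop 0] with x hx
  rw [Real.rpow_natCast, Real.rpow_neg hx.le, div_eq_mul_inv]

open Filter Topology in
/-- the conditions for large `x` -/
private lemma bmid_large (θ K₁ K₂ : ℝ) (hθ : θ < 1) (c C' : ℕ) :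
    ∃ x0 : ℕ, ∀ x : ℕ, x0 ≤ x → 3 ≤ x ∧ 1 ≤ Real.log x ∧
      Real.log x ^ C' ≤ (x : ℝ) ^ ((1 : ℝ) / 4) ∧
      2 * (x : ℝ) ^ θ ≤ (x : ℝ) ^ ((1 + θ) / 2) ∧
      K₁ / Real.log x ^ 2 + K₂ * (Real.log x ^ c * (x : ℝ) ^ (-(1 / 5) : ℝ) +
        Real.log x ^ (c + 1) * (x : ℝ) ^ (-(1 - θ))) ≤ 1 := by
  have hlog := Real.tendsto_log_atTop
  have e1 : ∀ᶠ x : ℝ in atTop, 3 ≤ x := eventually_ge_atTop 3
  have e2 : ∀ᶠ x : ℝ in atTop, 1 ≤ Real.log x := hlog.eventually_ge_atTop 1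
  have e3 : ∀ᶠ x : ℝ in atTop, Real.log x ^ C' * x ^ (-(1 / 4) : ℝ) ≤ 1 :=
    (bmid_lim C' (1 / 4) (by norm_num)).eventually_le_const (by norm_num)
  have e4 : ∀ᶠ x : ℝ in atTop, 2 ≤ x ^ ((1 - θ) / 2) :=
    (tendsto_rpow_atTop (by linarith : 0 < (1 - θ) / 2)).eventually_ge_atTop 2
  have t5 : Tendsto (fun x : ℝ => K₁ / Real.log x ^ 2 + K₂ * (Real.log x ^ c *
      x ^ (-(1 / 5) : ℝ) + Real.log x ^ (c + 1) * x ^ (-(1 - θ)))) atTop (𝓝 0) := by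
    have h1 : Tendsto (fun x : ℝ => K₁ / Real.log x ^ 2) atTop (𝓝 0) :=
      Tendsto.div_atTop tendsto_const_nhds ((tendsto_pow_atTop (by norm_num)).comp hlog)
    have h2 := (bmid_lim c (1 / 5) (by norm_num)).add (bmid_lim (c + 1) (1 - θ) (by linarith))
    have h3 := h1.add (h2.const_mul K₂)
    simpa using h3
  have e5 := t5.eventually_le_const (show (0 : ℝ) < 1 by norm_num)
  have h := (e1.and (e2.and (e3.and (e4.and e5))))
  have h' := tendsto_natCast_atTop_atTop.eventually (f := (Nat.cast : ℕ → ℝ)) h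
  rw [eventually_atTop] at h'
  obtain ⟨x0, hx0⟩ := h'
  refine ⟨x0, fun x hx => ?_⟩
  obtain ⟨g1, g2, g3, g4, g5⟩ := hx0 x hx
  have hxpos : (0 : ℝ) < x := by linarith
  refine ⟨by exact_mod_cast g1, g2, ?_, ?_, g5⟩
  · rw [Real.rpow_neg hxpos.le, ← div_eq_mul_inv, div_le_one (Real.rpow_pos_of_pos hxpos _)] at g3
    exact g3
  · calc 2 * (x : ℝ) ^ θ ≤ (x : ℝ) ^ ((1 - θ) / 2) * (x : ℝ) ^ θ := by
          have := Real.rpow_nonneg hxpos.le θ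
          gcongr
      _ = (x : ℝ) ^ ((1 + θ) / 2) := by
          rw [← Real.rpow_add hxpos]
          congr 1
          ring

theorem bad_mid (hW : WProp) (hpnt : PntProp) (θ η : ℝ) (hθ0 : 0 < θ) (hθ : θ < 1) (hη : 0 < η) (c : ℕ) :
    ∃ C' x0 : ℕ, ∀ x : ℕ, x0 ≤ x → ∀ a0 Q H : ℕ, H = ⌊Real.log x ^ C'⌋₊ → (a0 : ℝ) ≤ (x : ℝ) ^ θ →
      (x : ℝ) ^ ((1 : ℝ) / 4) ≤ Q → (Q : ℝ) ≤ (x : ℝ) ^ θ →
      ∑ a ∈ Ioc a0 (a0 + H), ((bad x a Q η).card : ℝ) ≤ H * Q / Real.log x ^ c := by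
  obtain ⟨e, he0, he1, heη⟩ : ∃ e : ℝ, 0 < e ∧ e ≤ 1 ∧ e ≤ η :=
    ⟨min η 1, lt_min hη one_pos, min_le_right _ _, min_le_left _ _⟩
  obtain ⟨M0, hM0⟩ := pt hpnt ((1 + θ) / 2) e (by linarith) (by linarith) he0 he1
  obtain ⟨Br0, hBr0⟩ := hW θ hθ (c + 2)
  obtain ⟨B0, hB0⟩ := hBr0 (max Br0 (c + 4)) (le_max_left _ _)
  set Br := max Br0 (c + 4) with hBr
  have hBrc : c + 4 ≤ Br := le_max_right _ _
  have hB1 := hB0 (max B0 (3 * Br + 4)) (le_max_left _ _)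
  set B := max B0 (3 * Br + 4) with hB
  have hBBr : 3 * Br + 4 ≤ B := le_max_right _ _
  obtain ⟨B', hBB', x1, hx1⟩ := mu_large M0 B (by omega)
  obtain ⟨C', x2, hx2⟩ := hB1 B' hBB'
  obtain ⟨x3, hx3⟩ := hM0 Br B B' hBBr hBB' ⟨x1, hx1⟩
  obtain ⟨C, hC, hlam⟩ := Pool.Agent.H91.EHA.lamR_avg
  obtain ⟨x4, hx4⟩ := pps_avg
  obtain ⟨x5, hx5⟩ := bmid_large θ (200 / e * (1 + 8 * C)) (200 / e) hθ c C'
  refine ⟨C', max x2 (max x3 (max x4 x5)), fun x hx a0 Q H hH ha0 hQ1 hQ2 => ?_⟩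
  obtain ⟨hx3', hL1, hLC, h2θ, hfin⟩ := hx5 x (by omega)
  have hxR : (3 : ℝ) ≤ x := by exact_mod_cast hx3'
  have hxpos : (0 : ℝ) < x := by linarith
  have hx1 : (1 : ℝ) ≤ x := by linarith
  set L := Real.log x with hL
  have hL0 : 0 < L := by linarith
  have hθ'1 : (x : ℝ) ^ ((1 + θ) / 2) ≤ x := by
    calc (x : ℝ) ^ ((1 + θ) / 2) ≤ (x : ℝ) ^ (1 : ℝ) :=
          Real.rpow_le_rpow_of_exponent_le hx1 (by linarith)
      _ = x := Real.rpow_one _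
  have hHL : (H : ℝ) ≤ L ^ C' := by
    rw [hH]
    exact Nat.floor_le (by positivity)
  have hHQ' : (H : ℝ) ≤ Q := (hHL.trans hLC).trans hQ1
  have hHQ : H ≤ Q := by exact_mod_cast hHQ'
  have hQpos' : (1 : ℝ) ≤ Q := (Real.one_le_rpow hx1 (by norm_num)).trans hQ1
  have hQpos : 1 ≤ Q := by exact_mod_cast hQpos'
  have hQx' : (Q : ℝ) ≤ x := by linarith [Real.rpow_nonneg hxpos.le θ]
  have hQx : Q ≤ x := by exact_mod_cast hQx'
  have haHx : ((a0 + H : ℕ) : ℝ) ≤ (x : ℝ) ^ ((1 + θ) / 2) := by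
    push_cast
    linarith
  have haHx' : a0 + H ≤ x := by exact_mod_cast haHx.trans hθ'1
  -- the three sums
  have s1 := hx2 x (by omega) a0 Q H hH ha0 hHQ hQ2
  have s3 := hx4 x (by omega) a0 Q H haHx' hQpos hQx
  have hLBr : (2 : ℝ) * (P1 x Br) ≥ L ^ Br := by
    have h1 : L ^ Br < (P1 x Br : ℝ) + 1 := Nat.lt_floor_add_one _
    have h2 : (1 : ℝ) ≤ L ^ Br := one_le_pow₀ hL1
    have h3 : 1 ≤ P1 x Br := by
      rw [P1, Nat.one_le_floor_iff]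
      exact h2
    have h3' : (1 : ℝ) ≤ (P1 x Br : ℝ) := by exact_mod_cast h3
    linarith
  have hR1 : 1 ≤ P1 x Br := by
    rw [P1, Nat.one_le_floor_iff]
    exact one_le_pow₀ hL1
  have s2 := hlam (P1 x Br) Q hR1 hQpos
  -- abbreviations
  set W : ℕ → ℕ → ℝ := fun a q => |∑ p ∈ PP (P1 x B) (P2 x B B'),
          ∑ n ∈ (Icc 1 x).filter (fun n => n ≡ a [MOD q * p]), hR (P1 x Br) n| with hWdef
  set V : ℕ → ℝ := fun q => |1 / (q : ℝ) * gR (P1 x Br) q - 1 / (q.totient : ℝ)| with hVdef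
  have s2' : ∑ q ∈ Ioc Q (2 * Q), V q ≤ C * (1 + Real.log Q) ^ 2 / (P1 x Br : ℝ) := s2
  have s1' : ∑ a ∈ Ioc a0 (a0 + H), ∑ q ∈ Ioc Q (2 * Q), W a q ≤ H * x / L ^ (c + 2) := s1
  have hQ0 : (0 : ℝ) < Q := by linarith
  have key : ∀ a ∈ Ioc a0 (a0 + H), ∀ q ∈ bad x a Q η,
      (1 : ℝ) ≤ 200 * Q / (e * x) * W a q + 200 * Q / e * V q + 200 * Q / (e * x) * pps x q a := by
    intro a ha q hq
    rw [mem_Ioc] at ha
    rw [bad, mem_filter, mem_Ioc] at hq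
    obtain ⟨⟨hq1, hq2⟩, hcop, hbad⟩ := hq
    have ha1 : (a : ℝ) ≤ (x : ℝ) ^ ((1 + θ) / 2) := by
      have : (a : ℝ) ≤ ((a0 + H : ℕ) : ℝ) := by exact_mod_cast ha.2
      linarith
    have hq2' : (q : ℝ) ≤ 2 * Q := by exact_mod_cast hq2
    have hq0 : (0 : ℝ) < q := by
      have : 0 < q := by omega
      exact_mod_cast this
    have hqθ : (q : ℝ) ≤ (x : ℝ) ^ ((1 + θ) / 2) := by linarith
    have hW0 : 0 ≤ W a q := abs_nonneg _
    have hV0 : 0 ≤ V q := abs_nonneg _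
    have hP0 : 0 ≤ pps x q a := pps_nonneg x q a
    have hx' : (x : ℝ) / (2 * Q) ≤ x / q := by
      gcongr
    have h1' : (1 : ℝ) / (2 * Q) ≤ 1 / q := by
      gcongr
    have hbad' : e * ((Nat.primeCounting x : ℝ) / (q.totient : ℝ)) < |err x q (a : ZMod q)| := by
      refine lt_of_le_of_lt ?_ hbad
      gcongr
    rcases hx3 x (by omega) a q (by omega) ha1 (by omega) hqθ hcop hbad' with h | h | h
    · have h2 : e / 100 * ((x : ℝ) / (2 * Q)) ≤ W a q := by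
        refine le_trans ?_ h
        gcongr
      have h3 : (1 : ℝ) = 200 * Q / (e * x) * (e / 100 * ((x : ℝ) / (2 * Q))) := by
        field_simp
        norm_num
      have h4 : (1 : ℝ) ≤ 200 * Q / (e * x) * W a q := by
        rw [h3]
        gcongr
      have h5 : 0 ≤ 200 * Q / e * V q := by positivity
      have h6 : 0 ≤ 200 * Q / (e * x) * pps x q a := by positivity
      linarith
    · have h2 : e / 100 * (1 / (2 * Q : ℝ)) ≤ V q := by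
        refine le_trans ?_ h
        gcongr
      have h3 : (1 : ℝ) = 200 * Q / e * (e / 100 * (1 / (2 * Q : ℝ))) := by
        field_simp
        norm_num
      have h4 : (1 : ℝ) ≤ 200 * Q / e * V q := by
        rw [h3]
        gcongr
      have h5 : 0 ≤ 200 * Q / (e * x) * W a q := by positivity
      have h6 : 0 ≤ 200 * Q / (e * x) * pps x q a := by positivity
      linarith
    · have h2 : e / 100 * ((x : ℝ) / (2 * Q)) ≤ pps x q a := by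
        refine le_trans ?_ h
        gcongr
      have h3 : (1 : ℝ) = 200 * Q / (e * x) * (e / 100 * ((x : ℝ) / (2 * Q))) := by
        field_simp
        norm_num
      have h4 : (1 : ℝ) ≤ 200 * Q / (e * x) * pps x q a := by
        rw [h3]
        gcongr
      have h5 : 0 ≤ 200 * Q / e * V q := by positivity
      have h6 : 0 ≤ 200 * Q / (e * x) * W a q := by positivity
      linarith
  have hcard : ∑ a ∈ Ioc a0 (a0 + H), ((bad x a Q η).card : ℝ) ≤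
      ∑ a ∈ Ioc a0 (a0 + H), ∑ q ∈ Ioc Q (2 * Q),
        (200 * Q / (e * x) * W a q + 200 * Q / e * V q + 200 * Q / (e * x) * pps x q a) := by
    refine sum_le_sum fun a ha => ?_
    rw [card_eq_sum_ones]
    push_cast
    calc ∑ q ∈ bad x a Q η, (1 : ℝ) ≤ ∑ q ∈ bad x a Q η,
          (200 * Q / (e * x) * W a q + 200 * Q / e * V q + 200 * Q / (e * x) * pps x q a) :=
          sum_le_sum (key a ha)
      _ ≤ _ := by
          refine sum_le_sum_of_subset_of_nonneg (filter_subset _ _) fun q _ _ => ?_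
          have hW0 : 0 ≤ W a q := abs_nonneg _
          have hV0 : 0 ≤ V q := abs_nonneg _
          have hP0 : 0 ≤ pps x q a := pps_nonneg x q a
          positivity
  have hsplit : ∑ a ∈ Ioc a0 (a0 + H), ∑ q ∈ Ioc Q (2 * Q),
        (200 * Q / (e * x) * W a q + 200 * Q / e * V q + 200 * Q / (e * x) * pps x q a) =
      200 * Q / (e * x) * (∑ a ∈ Ioc a0 (a0 + H), ∑ q ∈ Ioc Q (2 * Q), W a q) +
      200 * Q / e * (H * ∑ q ∈ Ioc Q (2 * Q), V q) +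
      200 * Q / (e * x) * (∑ a ∈ Ioc a0 (a0 + H), ∑ q ∈ Ioc Q (2 * Q), pps x q a) := by
    simp only [sum_add_distrib, ← mul_sum, sum_const, Nat.card_Ioc, nsmul_eq_mul,
      Nat.add_sub_cancel_left]
  refine (hcard.trans_eq hsplit).trans ?_
  -- the final estimate
  have hlogQ : Real.log Q ≤ L := Real.log_le_log hQ0 hQx'
  have hlogQ0 : 0 ≤ Real.log Q := Real.log_nonneg hQpos'
  have b2 : ∑ q ∈ Ioc Q (2 * Q), V q ≤ 8 * C / L ^ (c + 2) := by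
    refine s2'.trans ?_
    have hR0 : (0 : ℝ) < P1 x Br := by exact_mod_cast hR1
    rw [div_le_div_iff₀ hR0 (by positivity)]
    have h1 : (1 + Real.log Q) ^ 2 ≤ (2 * L) ^ 2 := by
      gcongr
      linarith
    have h2 : L ^ (c + 2) * L ^ 2 ≤ L ^ Br := by
      rw [← pow_add]
      exact pow_le_pow_right₀ hL1 (by omega)
    calc C * (1 + Real.log Q) ^ 2 * L ^ (c + 2) ≤ C * (2 * L) ^ 2 * L ^ (c + 2) := by gcongr
      _ = 4 * C * (L ^ (c + 2) * L ^ 2) := by ring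
      _ ≤ 4 * C * L ^ Br := by gcongr
      _ ≤ 4 * C * (2 * (P1 x Br)) := by gcongr
      _ = 8 * C * (P1 x Br) := by ring
  have x15 : (x : ℝ) ^ ((4 : ℝ) / 5) = x * (x : ℝ) ^ (-(1 / 5) : ℝ) := by
    rw [← Real.rpow_one_add' hxpos.le (by norm_num)]
    norm_num
  have xθ : (x : ℝ) ^ θ = x * (x : ℝ) ^ (-(1 - θ)) := by
    rw [← Real.rpow_one_add' hxpos.le (by linarith)]
    congr 1
    ring
  have hH0 : (0 : ℝ) ≤ H := Nat.cast_nonneg H
  calc 200 * Q / (e * x) * (∑ a ∈ Ioc a0 (a0 + H), ∑ q ∈ Ioc Q (2 * Q), W a q) +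
      200 * Q / e * (H * ∑ q ∈ Ioc Q (2 * Q), V q) +
      200 * Q / (e * x) * (∑ a ∈ Ioc a0 (a0 + H), ∑ q ∈ Ioc Q (2 * Q), pps x q a)
      ≤ 200 * Q / (e * x) * (H * x / L ^ (c + 2)) +
      200 * Q / e * (H * (8 * C / L ^ (c + 2))) +
      200 * Q / (e * x) * (H * (x * (x : ℝ) ^ (-(1 / 5) : ℝ)) +
        H * (x * (x : ℝ) ^ (-(1 - θ))) * L) := by
        have h3 : ∑ a ∈ Ioc a0 (a0 + H), ∑ q ∈ Ioc Q (2 * Q), pps x q a ≤
            H * (x * (x : ℝ) ^ (-(1 / 5) : ℝ)) + H * (x * (x : ℝ) ^ (-(1 - θ))) * L := by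
          refine s3.trans ?_
          rw [← x15, ← xθ]
          gcongr
        gcongr
    _ = H * Q / L ^ c * (200 / e * (1 + 8 * C) / L ^ 2 + 200 / e *
        (L ^ c * (x : ℝ) ^ (-(1 / 5) : ℝ) + L ^ (c + 1) * (x : ℝ) ^ (-(1 - θ)))) := by
        rw [pow_add, pow_succ L c]
        field_simp
    _ ≤ H * Q / L ^ c * 1 := by
        gcongr
    _ = H * Q / Real.log x ^ c := by rw [mul_one]

end Pool.Agent.H87.WL
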