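import Mathlib
import Pool.Agent.H91.EHA.Defs

/-!
# Project WL (MP_a78e8f_nt): definitions

Elliott-Halberstam for almost all residues in intervals of length `(log x)^C`, all levels `θ < 1`,
with exceptional sets of density `(log x)^{-c}`.  `Lam`, `lamR`, `hR`, `ramS`, `psiA`, `err` are those of
`Pool.Agent.H91.EHA.Defs`.
-/

set_option autoImplicit false

namespace Pool.Agent.H87.WL

open Finset
open Pool.Agent.H91.EHA (Lam lamR hR ramS psiA err)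

/-- the primes in `(P, P']` -/
def PP (P P' : ℕ) : Finset ℕ := (Ioc P P').filter Nat.Prime

/-- the primes in `(P, P']` which do not divide `m` -/
def PPc (P P' m : ℕ) : Finset ℕ := (PP P P').filter (fun p => ¬ p ∣ m)

/-- `∑_{p ∈ S} 1/p` -/
noncomputable def Mu (S : Finset ℕ) : ℝ := ∑ p ∈ S, 1 / (p : ℝ)

/-- the number of `p ∈ S` dividing `k` -/
def Om (S : Finset ℕ) (k : ℕ) : ℕ := (S.filter (fun p => p ∣ k)).card

/-- the Möbius function with real values -/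
noncomputable def mo (n : ℕ) : ℝ := (ArithmeticFunction.moebius n : ℝ)

/-- `∑_{c | q, c ≤ R} μ(c)²/φ(c)` -/
noncomputable def gR (R q : ℕ) : ℝ :=
  ∑ c ∈ q.divisors.filter (fun c => c ≤ R),
    (ArithmeticFunction.moebius c : ℝ) ^ 2 / (c.totient : ℝ)

/-! ### Selberg's function -/

/-- Selberg's function `Ψ(n) = ∑_{h ≤ D, (h,q) = 1} μ(h)/φ(h) c_h(n)` -/
noncomputable def Ps (D q n : ℕ) : ℝ :=
  ∑ h ∈ (Icc 1 D).filter (fun h => Nat.Coprime h q), mo h / (h.totient : ℝ) * ramS h n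

/-- `G = ∑_{h ≤ D, (h,q) = 1} μ(h)²/φ(h)` -/
noncomputable def Gs (D q : ℕ) : ℝ :=
  ∑ h ∈ (Icc 1 D).filter (fun h => Nat.Coprime h q), mo h ^ 2 / (h.totient : ℝ)

/-- Selberg's weights: `Ψ(n) = ∑_{s | n} λ_s` -/
noncomputable def ls (D q s : ℕ) : ℝ :=
  (s : ℝ) * ∑ l ∈ (Icc 1 D).filter (fun l => Nat.Coprime l q ∧ s ∣ l),
    mo (l / s) * mo l / (l.totient : ℝ)

/-- `∑_{e | d, e ≤ y} μ(e)²/φ(e)` -/
noncomputable def Ad (d y : ℕ) : ℝ :=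
  ∑ e ∈ d.divisors.filter (fun e => e ≤ y), mo e ^ 2 / (e.totient : ℝ)

/-- the main term of `∑_{k ≤ K, d | k} Ψ(a + q k)²` is `(K/d) Sd D q d` -/
noncomputable def Sd (D q d : ℕ) : ℝ :=
  ∑ l ∈ (Icc 1 D).filter (fun l => Nat.Coprime l (q * d)),
    mo l ^ 2 / (l.totient : ℝ) * Ad d (D / l) ^ 2

/-- the quadratic form of Selberg's weights coprime to `m` -/
noncomputable def Qf (D q m : ℕ) : ℝ :=
  ∑ s ∈ (Icc 1 D).filter (fun s => Nat.Coprime s (q * m)),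
    ∑ t ∈ (Icc 1 D).filter (fun t => Nat.Coprime t (q * m)),
      ls D q s * ls D q t / (Nat.lcm s t : ℝ)

/-- `∑_{k ≤ K, d | k} Ψ(a + q k)²` -/
noncomputable def Td (D q a d K : ℕ) : ℝ :=
  ∑ k ∈ (Icc 1 K).filter (fun k => d ∣ k), Ps D q (a + q * k) ^ 2

/-! ### The statements delivered by other projects -/

/-- `⌊(log x)^B⌋` -/
noncomputable def P1 (x B : ℕ) : ℕ := ⌊Real.log x ^ B⌋₊

/-- the largest `P1 x B * 2^J` which is at most `P1 x B'` -/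
noncomputable def P2 (x B B' : ℕ) : ℕ := P1 x B * 2 ^ Nat.log 2 (P1 x B' / P1 x B)

/-- Project W (helper35, note 1574). For every `θ < 1` and `c` (parameters: `R = (log x)^Br`,
`P = (log x)^B`, `P'` about `(log x)^B'`, `H = (log x)^C'`; `Br` large, then `B` large, then `B'`
arbitrary, then `C'` large). -/
def WProp : Prop :=
  ∀ θ : ℝ, θ < 1 → ∀ c : ℕ, ∃ Br0 : ℕ, ∀ Br : ℕ, Br0 ≤ Br → ∃ B0 : ℕ, ∀ B : ℕ, B0 ≤ B →
    ∀ B' : ℕ, B ≤ B' → ∃ C' x0 : ℕ, ∀ x : ℕ, x0 ≤ x → ∀ a0 Q H : ℕ,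
      H = ⌊Real.log x ^ C'⌋₊ → (a0 : ℝ) ≤ (x : ℝ) ^ θ → H ≤ Q → (Q : ℝ) ≤ (x : ℝ) ^ θ →
      ∑ a ∈ Ioc a0 (a0 + H), ∑ q ∈ Ioc Q (2 * Q),
        |∑ p ∈ PP (P1 x B) (P2 x B B'),
          ∑ n ∈ (Icc 1 x).filter (fun n => n ≡ a [MOD q * p]), hR (P1 x Br) n|
        ≤ H * x / Real.log x ^ c

/-- the prime number theorem with a power of the logarithm (`Pool.Agent.H91.EHA.pnt'`) -/
def PntProp : Prop := ∀ c : ℕ, ∃ x0 : ℕ, ∀ x : ℕ, x0 ≤ x → ∀ t : ℕ, t ≤ x →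
  |(∑ n ∈ Icc 1 t, Lam n) - t| ≤ x / Real.log x ^ c

/-- Bombieri-Vinogradov, one class for each modulus (`Pool.Agent.H91.EHA.classes_sum` with `H = 1`) -/
def BVProp : Prop := ∀ c : ℕ, ∃ x0 : ℕ, ∀ x : ℕ, x0 ≤ x → ∀ T : (q : ℕ) → Finset (ZMod q),
  (∀ q, ((T q).card : ℝ) ≤ 1) → (∀ q, ∀ a ∈ T q, IsUnit a) →
    ∑ q ∈ (Icc 1 ⌊(x : ℝ) ^ ((1 : ℝ) / 3)⌋₊).filter
        (fun q : ℕ => (q : ℝ) ^ 2 ≤ 1 * (x : ℝ) ^ (1 - (1 : ℝ) / 10)),
      ∑ a ∈ T q, |err x q a| ≤ 1 * x / Real.log x ^ c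

/-- the exceptional moduli in `(Q, 2Q]` for the residue `a` -/
noncomputable def bad (x a Q : ℕ) (η : ℝ) : Finset ℕ :=
  (Ioc Q (2 * Q)).filter (fun q => Nat.Coprime a q ∧
    η * ((Nat.primeCounting x : ℝ) / (q.totient : ℝ)) < |err x q (a : ZMod q)|)

lemma Mu_nonneg (S : Finset ℕ) : 0 ≤ Mu S := sum_nonneg fun _ _ => by positivity

lemma Mu_mono {S T : Finset ℕ} (h : S ⊆ T) : Mu S ≤ Mu T :=
  sum_le_sum_of_subset_of_nonneg h fun _ _ _ => by positivity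

end Pool.Agent.H87.WL
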