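import Pool.Agent.H87.WL.Fin
import Pool.Agent.H92.EH.Totient

/-!
# WL Exc: the main theorem with the total excess

For `a ∉ E` the excess `∑_{q ≤ x^θ, (q,a)=1} max(0, |err x q a| - η π(x)/φ(q))` only involves bad moduli:
in a dyadic block `(2^j, 2^{j+1}]` there are at most `2^j/L^{c+4}` of them, and `|err| ≤ 3 L x/q`.
-/

set_option autoImplicit false

namespace Pool.Agent.H87.WL

open Finset
open Pool.Agent.H91.EHA (err)

/-- the number of `n ≤ x` in a class mod `q` is at most `x/q + 1` -/
private theorem exc_count (x q : ℕ) (a : ZMod q) (hq : 1 ≤ q) :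
    (((Icc 1 x).filter (fun n : ℕ => (n : ZMod q) = a)).card : ℝ) ≤ x / q + 1 := by
  have hq0 : (0 : ℝ) < q := by exact_mod_cast hq
  have h1 : ((Icc 1 x).filter (fun n : ℕ => (n : ZMod q) = a)).card ≤ x / q + 1 := by
    have hinj : Set.InjOn (fun n : ℕ => n / q)
        ((Icc 1 x).filter (fun n : ℕ => (n : ZMod q) = a)) := by
      intro m hm n hn hmn
      rw [Finset.mem_coe, mem_filter] at hm hn
      have e : (m : ZMod q) = (n : ZMod q) := hm.2.trans hn.2.symm
      rw [ZMod.natCast_eq_natCast_iff] at e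
      have e1 : m % q = n % q := e
      have e2 : m / q = n / q := hmn
      rw [← Nat.div_add_mod m q, ← Nat.div_add_mod n q, e1, e2]
    have hmaps : ∀ n ∈ (Icc 1 x).filter (fun n : ℕ => (n : ZMod q) = a),
        n / q ∈ range (x / q + 1) := by
      intro n hn
      rw [mem_filter, mem_Icc] at hn
      rw [mem_range]
      exact Nat.lt_succ_of_le (Nat.div_le_div_right hn.1.2)
    have := Finset.card_le_card_of_injOn _ hmaps hinj
    rwa [card_range] at this
  have h2 : ((x / q : ℕ) : ℝ) ≤ x / q := Nat.cast_div_le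
  have h3 : (((Icc 1 x).filter (fun n : ℕ => (n : ZMod q) = a)).card : ℝ) ≤ ((x / q : ℕ) : ℝ) + 1 := by
    exact_mod_cast h1
  linarith

private theorem exc_pc (x : ℕ) : Nat.primeCounting x = ((Icc 1 x).filter Nat.Prime).card := by
  rw [Nat.primeCounting, Nat.primeCounting', Nat.count_eq_card_filter_range]
  congr 1
  ext p
  simp only [mem_filter, mem_Icc, mem_range]
  constructor
  · rintro ⟨h, hp⟩
    exact ⟨⟨hp.one_lt.le, by omega⟩, hp⟩
  · rintro ⟨⟨_, h⟩, hp⟩
    exact ⟨by omega, hp⟩

/-- trivial bound for `err` -/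
private theorem exc_triv (x q : ℕ) (a : ZMod q) (hq : 1 ≤ q) (hqx : q ≤ x)
    (hL : 3 ≤ Real.log x) : |err x q a| ≤ 3 * Real.log x * (x / q) := by
  set L := Real.log x with hLdef
  have hq0 : (0 : ℝ) < q := by exact_mod_cast hq
  have hx0 : (0 : ℝ) < x := by exact_mod_cast lt_of_lt_of_le hq hqx
  have hφ : (0 : ℝ) < q.totient := by exact_mod_cast Nat.totient_pos.2 hq
  have h1 : (((Icc 1 x).filter (fun p : ℕ => Nat.Prime p ∧ ((p : ZMod q) = a))).card : ℝ)
      ≤ x / q + 1 := by
    refine le_trans ?_ (exc_count x q a hq)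
    exact_mod_cast Finset.card_le_card fun n hn => by
      rw [mem_filter] at hn ⊢
      exact ⟨hn.1, hn.2.2⟩
  have h2 : (1 : ℝ) ≤ x / q := by
    rw [le_div_iff₀ hq0]
    have : (q : ℝ) ≤ x := by exact_mod_cast hqx
    linarith
  have h3 : (Nat.primeCounting x : ℝ) ≤ x := by
    have : Nat.primeCounting x ≤ x := by
      rw [exc_pc]
      refine (Finset.card_filter_le _ _).trans ?_
      rw [Nat.card_Icc]
      omega
    exact_mod_cast this
  have h4 : (x : ℝ) / q.totient ≤ (x / q) * ((Nat.log 2 q : ℝ) + 1) := by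
    have e1 := Pool.Agent.H92.EH.le_totient_mul q
    have e2 : ((q.primeFactors.card : ℝ)) ≤ (Nat.log 2 q : ℝ) := by
      exact_mod_cast Pool.Agent.H92.EH.card_primeFactors_le q
    have e3 : (q : ℝ) ≤ q.totient * ((Nat.log 2 q : ℝ) + 1) :=
      e1.trans (mul_le_mul_of_nonneg_left (by linarith) hφ.le)
    rw [div_le_iff₀ hφ]
    calc (x : ℝ) = (x / q) * q := by field_simp
      _ ≤ (x / q) * (q.totient * ((Nat.log 2 q : ℝ) + 1)) :=
        mul_le_mul_of_nonneg_left e3 (by positivity)
      _ = _ := by ring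
  have h5 : (Nat.log 2 q : ℝ) * Real.log 2 ≤ L := by
    rw [← Real.log_pow, hLdef]
    refine Real.log_le_log (by positivity) ?_
    have : 2 ^ Nat.log 2 q ≤ x := (Nat.pow_log_le_self 2 (by omega)).trans hqx
    exact_mod_cast this
  have h6 : (Nat.log 2 q : ℝ) ≤ 3 / 2 * L := by
    have e5 := Real.log_two_gt_d9
    by_contra hcon
    push Not at hcon
    have e8 : 3 / 2 * L * (0.69 : ℝ) ≤ (Nat.log 2 q : ℝ) * Real.log 2 :=
      mul_le_mul hcon.le (by linarith) (by norm_num) (by positivity)
    nlinarith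
  have h7 : (Nat.primeCounting x : ℝ) / q.totient ≤ (x / q) * (3 / 2 * L + 1) := by
    refine (div_le_div_of_nonneg_right h3 hφ.le).trans (h4.trans ?_)
    exact mul_le_mul_of_nonneg_left (by linarith) (by positivity)
  have h8 : (0 : ℝ) ≤ (Nat.primeCounting x : ℝ) / q.totient := by positivity
  have h9 : (0 : ℝ) ≤ (((Icc 1 x).filter
      (fun p : ℕ => Nat.Prime p ∧ ((p : ZMod q) = a))).card : ℝ) := Nat.cast_nonneg _
  unfold err
  rw [abs_le]
  have h10 : (0 : ℝ) < x / q := by positivity
  constructor <;> nlinarith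

private theorem exc_one (x : ℕ) (a : ZMod 1) : err x 1 a = 0 := by
  unfold err
  rw [exc_pc, Nat.totient_one, Nat.cast_one, div_one, sub_eq_zero]
  congr 2
  refine Finset.filter_congr fun p _ => ?_
  constructor
  · exact fun h => h.1
  · exact fun h => ⟨h, Subsingleton.elim _ _⟩

theorem main_excess (hW : WProp) (hpnt : PntProp) (hBV : BVProp) (θ η : ℝ) (hθ : θ < 1)
    (hη : 0 < η) (c : ℕ) :
    ∃ C x0 : ℕ, ∀ x : ℕ, x0 ≤ x → ∀ a0 H : ℕ, Real.log x ^ C ≤ H →
      ((a0 + H : ℕ) : ℝ) ≤ (x : ℝ) ^ θ →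
      ∃ E ⊆ Ioc a0 (a0 + H), (E.card : ℝ) ≤ H / Real.log x ^ c ∧
        ∀ a ∈ Ioc a0 (a0 + H), a ∉ E →
          (∀ Q : ℕ, (Q : ℝ) ≤ (x : ℝ) ^ θ → ((bad x a Q η).card : ℝ) ≤ Q / Real.log x ^ c) ∧
          ∑ q ∈ (Icc 1 ⌊(x : ℝ) ^ θ⌋₊).filter (fun q => Nat.Coprime a q),
            max 0 (|err x q (a : ZMod q)| - η * ((Nat.primeCounting x : ℝ) / (q.totient : ℝ)))
              ≤ x / Real.log x ^ c := by
  obtain ⟨C, x1, hx1⟩ := main hW hpnt hBV θ η hθ hη (c + 4)
  have ev1 : ∀ᶠ x : ℕ in Filter.atTop, (3 : ℝ) ≤ Real.log x :=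
    (Real.tendsto_log_atTop.comp tendsto_natCast_atTop_atTop).eventually_ge_atTop 3
  have ev2 : ∀ᶠ x : ℕ in Filter.atTop, (2 : ℝ) ≤ (x : ℝ) ^ (1 - θ) :=
    ((tendsto_rpow_atTop (by linarith)).comp tendsto_natCast_atTop_atTop).eventually_ge_atTop 2
  obtain ⟨x2, hx2⟩ := Filter.eventually_atTop.1
    (ev1.and (ev2.and (Filter.eventually_ge_atTop 1)))
  refine ⟨C, max x1 x2, fun x hx a0 H hH haH => ?_⟩
  obtain ⟨hL, h2, hx1n⟩ := hx2 x (le_trans (le_max_right _ _) hx)
  obtain ⟨E, hE0, hE1, hE2⟩ := hx1 x (le_trans (le_max_left _ _) hx) a0 H hH haH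
  set L : ℝ := Real.log x with hLdef
  have hL0 : 0 < L := by linarith
  have hx1r : (1 : ℝ) ≤ x := by exact_mod_cast hx1n
  have hx0 : (0 : ℝ) < x := by linarith
  have hxθ : 2 * (x : ℝ) ^ θ ≤ x := by
    have e : (x : ℝ) = (x : ℝ) ^ (1 - θ) * (x : ℝ) ^ θ := by
      rw [← Real.rpow_add hx0, sub_add_cancel, Real.rpow_one]
    calc 2 * (x : ℝ) ^ θ ≤ (x : ℝ) ^ (1 - θ) * (x : ℝ) ^ θ :=
          mul_le_mul_of_nonneg_right h2 (by positivity)
      _ = x := e.symm
  have hLc : L ^ c ≤ L ^ (c + 4) := pow_le_pow_right₀ (by linarith) (by omega)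
  refine ⟨E, hE0, hE1.trans ?_, fun a ha haE => ⟨fun Q hQ => (hE2 a ha haE Q hQ).trans ?_, ?_⟩⟩
  · exact div_le_div_of_nonneg_left (Nat.cast_nonneg _) (by positivity) hLc
  · exact div_le_div_of_nonneg_left (Nat.cast_nonneg _) (by positivity) hLc
  set f : ℕ → ℝ := fun q =>
    max 0 (|err x q (a : ZMod q)| - η * ((Nat.primeCounting x : ℝ) / (q.totient : ℝ))) with hf
  set S : Finset ℕ := (Icc 1 ⌊(x : ℝ) ^ θ⌋₊).filter (fun q => Nat.Coprime a q) with hS
  set J : ℕ := ⌊2 * L⌋₊ + 1 with hJ
  have hmem : ∀ q ∈ S, 1 ≤ q ∧ (q : ℝ) ≤ (x : ℝ) ^ θ ∧ Nat.Coprime a q := by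
    intro q hq
    rw [hS, mem_filter, mem_Icc] at hq
    exact ⟨hq.1.1, (Nat.cast_le.2 hq.1.2).trans (Nat.floor_le (by positivity)), hq.2⟩
  have hlogq : ∀ q ∈ S, Nat.log 2 (q - 1) ∈ range J := by
    intro q hq
    obtain ⟨q1, q2, q3⟩ := hmem q hq
    rw [mem_range, hJ, Nat.lt_succ_iff]
    refine Nat.le_floor ?_
    rcases Nat.eq_zero_or_pos (q - 1) with h0 | h0
    · rw [h0, Nat.log_zero_right, Nat.cast_zero]
      linarith
    have e0 : 2 ^ Nat.log 2 (q - 1) ≤ q := (Nat.pow_log_le_self 2 (by omega)).trans (by omega)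
    have e3 : (2 : ℝ) ^ Nat.log 2 (q - 1) ≤ x := by
      have : ((2 ^ Nat.log 2 (q - 1) : ℕ) : ℝ) ≤ q := by exact_mod_cast e0
      push_cast at this
      have hxθ0 : 0 < (x : ℝ) ^ θ := Real.rpow_pos_of_pos hx0 _
      linarith
    have e4 : (Nat.log 2 (q - 1) : ℝ) * Real.log 2 ≤ L := by
      rw [← Real.log_pow, hLdef]
      exact Real.log_le_log (by positivity) e3
    have e5 := Real.log_two_gt_d9
    by_contra hcon
    push Not at hcon
    have e8 : 2 * L * (0.69 : ℝ) ≤ (Nat.log 2 (q - 1) : ℝ) * Real.log 2 :=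
      mul_le_mul hcon.le (by linarith) (by norm_num) (by positivity)
    linarith
  rw [← Finset.sum_fiberwise_of_maps_to hlogq]
  have hblock : ∀ j ∈ range J, ∑ q ∈ S.filter (fun q => Nat.log 2 (q - 1) = j), f q ≤
      3 * x / L ^ (c + 3) := by
    intro j _
    rcases le_or_gt ((2 : ℝ) ^ j) ((x : ℝ) ^ θ) with hj | hj
    · have hb := hE2 a ha haE (2 ^ j) (by push_cast; exact hj)
      have hpj : (0 : ℝ) < 2 ^ j := by positivity
      have h1 : ∑ q ∈ S.filter (fun q => Nat.log 2 (q - 1) = j), f q ≤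
          ∑ q ∈ bad x a (2 ^ j) η, 3 * L * (x / (2 : ℝ) ^ j) := by
        rw [← Finset.sum_filter_ne_zero]
        have hsub : ∀ q ∈ (S.filter (fun q => Nat.log 2 (q - 1) = j)).filter (fun q => f q ≠ 0),
            q ∈ bad x a (2 ^ j) η ∧ f q ≤ 3 * L * (x / (2 : ℝ) ^ j) := by
          intro q hq
          rw [mem_filter, mem_filter] at hq
          obtain ⟨⟨hqS, hqj⟩, hq0⟩ := hq
          obtain ⟨q1, q2, q3⟩ := hmem q hqS
          have q4 : q ≠ 1 := by
            rintro rfl
            apply hq0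
            rw [hf]
            simp only [exc_one, abs_zero]
            refine max_eq_left ?_
            have : 0 ≤ η * ((Nat.primeCounting x : ℝ) / ((1 : ℕ).totient : ℝ)) := by positivity
            linarith
          have q5 : 2 ^ j ≤ q - 1 := by
            rw [← hqj]
            exact Nat.pow_log_le_self 2 (by omega)
          have q6 : q - 1 < 2 ^ (j + 1) := by
            rw [← hqj]
            exact Nat.lt_pow_succ_log_self (by norm_num) _
          have q7 : 0 < |err x q (a : ZMod q)| -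
              η * ((Nat.primeCounting x : ℝ) / (q.totient : ℝ)) := by
            by_contra hcon
            push Not at hcon
            exact hq0 (max_eq_left hcon)
          have e : 2 ^ (j + 1) = 2 * 2 ^ j := by rw [pow_succ]; ring
          refine ⟨?_, ?_⟩
          · unfold bad
            rw [mem_filter, mem_Ioc]
            refine ⟨⟨by omega, by omega⟩, q3, by linarith⟩
          · have q8 : f q ≤ |err x q (a : ZMod q)| := by
              rw [hf]
              simp only
              rw [max_eq_right q7.le]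
              have : 0 ≤ η * ((Nat.primeCounting x : ℝ) / (q.totient : ℝ)) := by positivity
              linarith
            have hqx : q ≤ x := by
              have : (q : ℝ) ≤ x := by
                have hxθ0 : 0 < (x : ℝ) ^ θ := Real.rpow_pos_of_pos hx0 _
                linarith
              exact_mod_cast this
            have q9 := exc_triv x q (a : ZMod q) q1 hqx hL
            refine q8.trans (q9.trans ?_)
            refine mul_le_mul_of_nonneg_left ?_ (by positivity)
            have q10 : (2 : ℝ) ^ j ≤ q := by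
              have : 2 ^ j ≤ q := by omega
              exact_mod_cast this
            exact div_le_div_of_nonneg_left hx0.le hpj q10
        refine (Finset.sum_le_sum fun q hq => (hsub q hq).2).trans ?_
        exact Finset.sum_le_sum_of_subset_of_nonneg (fun q hq => (hsub q hq).1)
          (fun _ _ _ => by positivity)
      refine h1.trans ?_
      rw [Finset.sum_const, nsmul_eq_mul]
      calc ((bad x a (2 ^ j) η).card : ℝ) * (3 * L * (x / (2 : ℝ) ^ j))
          ≤ (((2 ^ j : ℕ) : ℝ) / L ^ (c + 4)) * (3 * L * (x / (2 : ℝ) ^ j)) :=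
            mul_le_mul_of_nonneg_right hb (by positivity)
        _ = 3 * x / L ^ (c + 3) := by
            push_cast
            rw [show c + 4 = (c + 3) + 1 by omega, pow_succ L (c + 3)]
            field_simp
    · have hempty : S.filter (fun q => Nat.log 2 (q - 1) = j) = ∅ ∨
          ∀ q ∈ S.filter (fun q => Nat.log 2 (q - 1) = j), f q = 0 := by
        right
        intro q hq
        rw [mem_filter] at hq
        obtain ⟨hqS, hqj⟩ := hq
        obtain ⟨q1, q2, q3⟩ := hmem q hqS
        by_cases q4 : q = 1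
        · subst q4
          rw [hf]
          simp only [exc_one, abs_zero]
          refine max_eq_left ?_
          have : 0 ≤ η * ((Nat.primeCounting x : ℝ) / ((1 : ℕ).totient : ℝ)) := by positivity
          linarith
        · exfalso
          have q5 : 2 ^ j ≤ q - 1 := by
            rw [← hqj]
            exact Nat.pow_log_le_self 2 (by omega)
          have q6 : 2 ^ j ≤ q := by omega
          have q10 : (2 : ℝ) ^ j ≤ q := by exact_mod_cast q6
          linarith
      have h0 : ∀ q ∈ S.filter (fun q => Nat.log 2 (q - 1) = j), f q = 0 := by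
        rcases hempty with h | h
        · intro q hq
          rw [h] at hq
          exact absurd hq (Finset.notMem_empty _)
        · exact h
      rw [Finset.sum_eq_zero h0]
      positivity
  refine (Finset.sum_le_sum hblock).trans ?_
  rw [Finset.sum_const, card_range, nsmul_eq_mul]
  have hJ3 : (J : ℝ) ≤ 3 * L := by
    have e3 : (⌊2 * L⌋₊ : ℝ) ≤ 2 * L := Nat.floor_le (by linarith)
    rw [hJ]
    push_cast
    linarith
  calc (J : ℝ) * (3 * x / L ^ (c + 3)) ≤ 3 * L * (3 * x / L ^ (c + 3)) :=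
        mul_le_mul_of_nonneg_right hJ3 (by positivity)
    _ = (9 / L ^ 2) * (x / L ^ c) := by
        rw [show c + 3 = c + 2 + 1 by omega, pow_succ L (c + 2), pow_add]
        field_simp
        ring
    _ ≤ 1 * (x / L ^ c) := by
        refine mul_le_mul_of_nonneg_right ?_ (by positivity)
        rw [div_le_one (by positivity)]
        nlinarith
    _ = x / L ^ c := one_mul _

end Pool.Agent.H87.WL
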