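import Pool.Agent.H87.WL.Bmid
import Pool.Agent.H87.WL.Bsm

/-!
# WL Fin: the main theorem from `WProp`

`θ' = (1+max θ 1/2)/2`. Take `C'`, `x0` from `bad_mid` for `θ'` and the exponent `2 c + 4`, `bad_small` with
`c + 1`, and `C = C'`. Let `H₁ = ⌊L^{C'}⌋`, `H ≥ L^{C}`, so `H ≥ H₁`. Cover `(a0, a0+H]` by `m = ⌈H/H₁⌉ ≤ 2 H/H₁` intervals
`(b, b + H₁]`, `b = a0 + i H₁ ≤ a0 + H ≤ x^θ ≤ x^{θ'}`. For `j` with `x^{1/4} ≤ 2^j ≤ 2 x^θ` (`≤ x^{θ'}`) the number of `a` in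
one of these intervals with `#bad x a 2^j η > 2^j/L^{c+1}` is at most `H₁ L^{c+1-2c-4}` (Markov); sum over `i` and
the at most `2 L` values of `j`: at most `2 (H/H₁) · 2 L · H₁ L^{-c-3} ≤ H/L^c`. Let `E` be the set of these `a`.
For `a ∉ E` all `j` with `2^j ≤ 2 x^θ` satisfy `#bad x a 2^j η ≤ 2^j/L^{c+1}` (`2^j < x^{1/4}`: `bad_small`).
For `Q ≥ 1` choose `2^j ≤ Q < 2^{j+1}`: `(Q, 2Q] ⊆ (2^j, 2^{j+1}] ∪ (2^{j+1}, 2^{j+2}]`, so
`#bad x a Q η ≤ (2^j + 2^{j+1})/L^{c+1} ≤ 3 Q/L^{c+1} ≤ Q/L^c`. `Q = 0` is trivial.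
-/

set_option autoImplicit false

namespace Pool.Agent.H87.WL

open Finset
open Pool.Agent.H91.EHA (Lam lamR hR ramS psiA err)

/-- Markov -/
private theorem fin_markov (S : Finset ℕ) (f : ℕ → ℝ) (hf : ∀ a, 0 ≤ f a) (t : ℝ) (ht : 0 < t) :
    ((S.filter (fun a => t < f a)).card : ℝ) ≤ (∑ a ∈ S, f a) / t := by
  rw [le_div_iff₀ ht]
  calc ((S.filter (fun a => t < f a)).card : ℝ) * t = (S.filter (fun a => t < f a)).card • t := by
        rw [nsmul_eq_mul]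
    _ ≤ ∑ a ∈ S.filter (fun a => t < f a), f a :=
        Finset.card_nsmul_le_sum _ _ _ fun a ha => (Finset.mem_filter.1 ha).2.le
    _ ≤ ∑ a ∈ S, f a :=
        Finset.sum_le_sum_of_subset_of_nonneg (Finset.filter_subset _ _) fun a _ _ => hf a

/-- covering by short intervals -/
private theorem fin_cover (a0 H H1 : ℕ) (h1 : 1 ≤ H1) (p : ℕ → Prop) [DecidablePred p] :
    (Ioc a0 (a0 + H)).filter p ⊆
      (range (H / H1 + 1)).biUnion (fun i =>
        (Ioc (a0 + i * H1) (a0 + i * H1 + H1)).filter p) := by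
  intro a ha
  rw [mem_filter, mem_Ioc] at ha
  rw [mem_biUnion]
  refine ⟨(a - a0 - 1) / H1, ?_, ?_⟩
  · rw [mem_range]
    have : (a - a0 - 1) / H1 ≤ H / H1 := Nat.div_le_div_right (by omega)
    omega
  · rw [mem_filter, mem_Ioc]
    have e1 := Nat.div_mul_le_self (a - a0 - 1) H1
    have e2 := Nat.lt_div_mul_add (a := a - a0 - 1) (b := H1) (by omega)
    refine ⟨⟨by omega, by omega⟩, ha.2⟩

/-- one block of moduli -/
private theorem fin_block (x : ℕ) (η L : ℝ) (hL : 3 ≤ L) (c a0 H H1 Q : ℕ) (h1 : 1 ≤ H1)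
    (hHH : H1 ≤ H) (hQ : 1 ≤ Q)
    (hmid : ∀ i, i < H / H1 + 1 →
      ∑ a ∈ Ioc (a0 + i * H1) (a0 + i * H1 + H1), ((bad x a Q η).card : ℝ) ≤
        H1 * Q / L ^ (2 * c + 4)) :
    (((Ioc a0 (a0 + H)).filter (fun a => (Q : ℝ) / L ^ (c + 1) < (bad x a Q η).card)).card : ℝ) ≤
      2 * H / L ^ (c + 3) := by
  have hL0 : 0 < L := by linarith
  have hQ0 : (0 : ℝ) < Q := by exact_mod_cast hQ
  have ht : 0 < (Q : ℝ) / L ^ (c + 1) := by positivity
  have hc1 := Finset.card_le_card (fin_cover a0 H H1 h1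
    (fun a => (Q : ℝ) / L ^ (c + 1) < (bad x a Q η).card))
  have hc2 := hc1.trans Finset.card_biUnion_le
  have hc3 : (((Ioc a0 (a0 + H)).filter
      (fun a => (Q : ℝ) / L ^ (c + 1) < (bad x a Q η).card)).card : ℝ) ≤
      ∑ i ∈ range (H / H1 + 1), (((Ioc (a0 + i * H1) (a0 + i * H1 + H1)).filter
        (fun a => (Q : ℝ) / L ^ (c + 1) < (bad x a Q η).card)).card : ℝ) := by
    exact_mod_cast hc2
  refine hc3.trans ?_
  have hterm : ∀ i ∈ range (H / H1 + 1), (((Ioc (a0 + i * H1) (a0 + i * H1 + H1)).filter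
      (fun a => (Q : ℝ) / L ^ (c + 1) < (bad x a Q η).card)).card : ℝ) ≤ H1 / L ^ (c + 3) := by
    intro i hi
    refine (fin_markov _ (fun a => ((bad x a Q η).card : ℝ)) (fun a => Nat.cast_nonneg _) _
      ht).trans ?_
    rw [div_le_iff₀ ht]
    refine (hmid i (mem_range.1 hi)).trans (le_of_eq ?_)
    have e : L ^ (2 * c + 4) = L ^ (c + 3) * L ^ (c + 1) := by
      rw [← pow_add]
      congr 1
      omega
    rw [e]
    field_simp
  refine (Finset.sum_le_sum hterm).trans ?_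
  rw [Finset.sum_const, card_range, nsmul_eq_mul, ← mul_div_assoc]
  refine div_le_div_of_nonneg_right ?_ (by positivity)
  have hm : (H / H1 + 1) * H1 ≤ 2 * H := by
    have := Nat.div_mul_le_self H H1
    rw [Nat.add_mul, one_mul]
    omega
  exact_mod_cast hm

private theorem fin_bad_subset (x a Q : ℕ) (η : ℝ) (j : ℕ) (h1 : 2 ^ j ≤ Q) (h2 : Q < 2 ^ (j + 1)) :
    bad x a Q η ⊆ bad x a (2 ^ j) η ∪ bad x a (2 ^ (j + 1)) η := by
  intro q hq
  unfold bad at hq ⊢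
  rw [mem_filter, mem_Ioc] at hq
  have e : 2 ^ (j + 1) = 2 * 2 ^ j := by rw [pow_succ]; ring
  rw [mem_union, mem_filter, mem_filter, mem_Ioc, mem_Ioc]
  by_cases h : q ≤ 2 * 2 ^ j
  · left
    exact ⟨⟨by omega, h⟩, hq.2⟩
  · right
    exact ⟨⟨by omega, by omega⟩, hq.2⟩

theorem main (hW : WProp) (hpnt : PntProp) (hBV : BVProp) (θ η : ℝ) (hθ : θ < 1) (hη : 0 < η) (c : ℕ) :
    ∃ C x0 : ℕ, ∀ x : ℕ, x0 ≤ x → ∀ a0 H : ℕ, Real.log x ^ C ≤ H →
      ((a0 + H : ℕ) : ℝ) ≤ (x : ℝ) ^ θ →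
      ∃ E ⊆ Ioc a0 (a0 + H), (E.card : ℝ) ≤ H / Real.log x ^ c ∧
        ∀ a ∈ Ioc a0 (a0 + H), a ∉ E → ∀ Q : ℕ, (Q : ℝ) ≤ (x : ℝ) ^ θ →
          ((bad x a Q η).card : ℝ) ≤ Q / Real.log x ^ c := by
  set θ' : ℝ := (1 + max θ (1 / 2)) / 2 with hθ'
  have hm1 : θ ≤ max θ (1 / 2) := le_max_left _ _
  have hm2 : (1 / 2 : ℝ) ≤ max θ (1 / 2) := le_max_right _ _
  have hm3 : max θ (1 / 2) < 1 := max_lt hθ (by norm_num)
  have hθ'0 : 0 < θ' := by rw [hθ']; linarith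
  have hθ'1 : θ' < 1 := by rw [hθ']; linarith
  have hθθ' : 0 < θ' - θ := by rw [hθ']; linarith
  obtain ⟨C', x1, hmid⟩ := bad_mid hW hpnt θ' η hθ'0 hθ'1 hη (2 * c + 4)
  obtain ⟨x2, hsmall⟩ := bad_small hBV hpnt η hη (c + 1)
  have ev1 : ∀ᶠ x : ℕ in Filter.atTop, (3 : ℝ) ≤ Real.log x :=
    (Real.tendsto_log_atTop.comp tendsto_natCast_atTop_atTop).eventually_ge_atTop 3
  have ev2 : ∀ᶠ x : ℕ in Filter.atTop, (2 : ℝ) ≤ (x : ℝ) ^ (θ' - θ) :=
    ((tendsto_rpow_atTop hθθ').comp tendsto_natCast_atTop_atTop).eventually_ge_atTop 2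
  obtain ⟨x3, hx3⟩ := Filter.eventually_atTop.1
    (ev1.and (ev2.and (Filter.eventually_ge_atTop 1)))
  refine ⟨C', max (max x1 x2) x3, fun x hx a0 H hH haH => ?_⟩
  obtain ⟨hL, hx2, hx1n⟩ := hx3 x (le_trans (le_max_right _ _) hx)
  have hxx1 : x1 ≤ x := le_trans (le_trans (le_max_left _ _) (le_max_left _ _)) hx
  have hxx2 : x2 ≤ x := le_trans (le_trans (le_max_right _ _) (le_max_left _ _)) hx
  set L : ℝ := Real.log x with hLdef
  have hL0 : 0 < L := by linarith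
  have hx1r : (1 : ℝ) ≤ x := by exact_mod_cast hx1n
  have hx0 : (0 : ℝ) < x := by linarith
  have hxθ : 2 * (x : ℝ) ^ θ ≤ (x : ℝ) ^ θ' := by
    have e : (x : ℝ) ^ θ' = (x : ℝ) ^ (θ' - θ) * (x : ℝ) ^ θ := by
      rw [← Real.rpow_add hx0]
      congr 1
      ring
    rw [e]
    exact mul_le_mul_of_nonneg_right hx2 (by positivity)
  have hxθ0 : 0 < (x : ℝ) ^ θ := Real.rpow_pos_of_pos hx0 _
  have hxθ1 : (x : ℝ) ^ θ ≤ x := by
    calc (x : ℝ) ^ θ ≤ (x : ℝ) ^ (1 : ℝ) := Real.rpow_le_rpow_of_exponent_le hx1r hθ.le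
      _ = x := Real.rpow_one _
  set H1 : ℕ := ⌊L ^ C'⌋₊ with hH1
  have hp1 : 1 ≤ L ^ C' := one_le_pow₀ (by linarith)
  have h1 : 1 ≤ H1 := Nat.le_floor (by simpa using hp1)
  have hHH : H1 ≤ H := by
    have : (H1 : ℝ) ≤ H := (Nat.floor_le (by linarith)).trans hH
    exact_mod_cast this
  -- the relevant exponents
  set J : Finset ℕ := (range (⌊2 * L⌋₊ + 1)).filter
    (fun j => (x : ℝ) ^ ((1 : ℝ) / 4) ≤ (2 : ℝ) ^ j ∧ (2 : ℝ) ^ j ≤ 2 * (x : ℝ) ^ θ) with hJ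
  have hJcard : (J.card : ℝ) ≤ 3 * L := by
    have e1 : J.card ≤ ⌊2 * L⌋₊ + 1 := by
      refine (Finset.card_filter_le _ _).trans ?_
      rw [card_range]
    have e2 : (J.card : ℝ) ≤ (⌊2 * L⌋₊ : ℝ) + 1 := by exact_mod_cast e1
    have e3 : (⌊2 * L⌋₊ : ℝ) ≤ 2 * L := Nat.floor_le (by linarith)
    linarith
  have hJmem : ∀ j : ℕ, (x : ℝ) ^ ((1 : ℝ) / 4) ≤ (2 : ℝ) ^ j → (2 : ℝ) ^ j ≤ 2 * (x : ℝ) ^ θ →
      j ∈ J := by
    intro j e1 e2
    rw [hJ, mem_filter, mem_range]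
    refine ⟨?_, e1, e2⟩
    have e3 : (2 : ℝ) ^ j ≤ 2 * x := e2.trans (by linarith)
    have e4 : (j : ℝ) * Real.log 2 ≤ Real.log 2 + L := by
      rw [← Real.log_pow, hLdef, ← Real.log_mul (by norm_num) hx0.ne']
      exact Real.log_le_log (by positivity) e3
    have e5 := Real.log_two_gt_d9
    have e6 := Real.log_two_lt_d9
    have e7 : (j : ℝ) ≤ 2 * L := by
      by_contra hcon
      push Not at hcon
      have e8 : 2 * L * (0.69 : ℝ) ≤ (j : ℝ) * Real.log 2 :=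
        mul_le_mul hcon.le (by linarith) (by norm_num) (by positivity)
      linarith
    have := Nat.le_floor e7
    omega
  classical
  set E : Finset ℕ := (Ioc a0 (a0 + H)).filter (fun a => ∃ j ∈ J,
    ((2 ^ j : ℕ) : ℝ) / L ^ (c + 1) < (bad x a (2 ^ j) η).card) with hE
  refine ⟨E, Finset.filter_subset _ _, ?_, ?_⟩
  · have hsub : E ⊆ J.biUnion (fun j => (Ioc a0 (a0 + H)).filter
        (fun a => ((2 ^ j : ℕ) : ℝ) / L ^ (c + 1) < (bad x a (2 ^ j) η).card)) := by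
      intro a ha
      rw [hE, mem_filter] at ha
      obtain ⟨j, hj, hj2⟩ := ha.2
      rw [mem_biUnion]
      exact ⟨j, hj, mem_filter.2 ⟨ha.1, hj2⟩⟩
    have hc1 := (Finset.card_le_card hsub).trans Finset.card_biUnion_le
    have hc2 : (E.card : ℝ) ≤ ∑ j ∈ J, (((Ioc a0 (a0 + H)).filter
        (fun a => ((2 ^ j : ℕ) : ℝ) / L ^ (c + 1) < (bad x a (2 ^ j) η).card)).card : ℝ) := by
      exact_mod_cast hc1
    refine hc2.trans ?_
    have hterm : ∀ j ∈ J, (((Ioc a0 (a0 + H)).filter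
        (fun a => ((2 ^ j : ℕ) : ℝ) / L ^ (c + 1) < (bad x a (2 ^ j) η).card)).card : ℝ) ≤
        2 * H / L ^ (c + 3) := by
      intro j hj
      rw [hJ, mem_filter] at hj
      refine fin_block x η L hL c a0 H H1 (2 ^ j) h1 hHH (Nat.one_le_two_pow) fun i hi => ?_
      have hb : ((a0 + i * H1 : ℕ) : ℝ) ≤ (x : ℝ) ^ θ' := by
        have e1 : a0 + i * H1 ≤ a0 + H := by
          have e2 : i * H1 ≤ H / H1 * H1 := Nat.mul_le_mul_right _ (by omega)
          have e3 := Nat.div_mul_le_self H H1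
          omega
        have e2 : ((a0 + i * H1 : ℕ) : ℝ) ≤ ((a0 + H : ℕ) : ℝ) := by exact_mod_cast e1
        linarith
      refine hmid x hxx1 (a0 + i * H1) (2 ^ j) H1 rfl hb ?_ ?_
      · push_cast
        exact hj.2.1
      · push_cast
        exact hj.2.2.trans hxθ
    refine (Finset.sum_le_sum hterm).trans ?_
    rw [Finset.sum_const, nsmul_eq_mul]
    have hH0 : (0 : ℝ) ≤ H := Nat.cast_nonneg _
    have e1 : (J.card : ℝ) * (2 * H / L ^ (c + 3)) ≤ 3 * L * (2 * H / L ^ (c + 3)) :=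
      mul_le_mul_of_nonneg_right hJcard (by positivity)
    refine e1.trans ?_
    have e2 : 3 * L * (2 * H / L ^ (c + 3)) = (6 / L ^ 2) * (H / L ^ c) := by
      rw [pow_add]
      field_simp
      ring
    rw [e2]
    have e3 : 6 / L ^ 2 ≤ 1 := by
      rw [div_le_one (by positivity)]
      nlinarith
    have e4 : 0 ≤ (H : ℝ) / L ^ c := by positivity
    nlinarith
  · intro a ha haE Q hQ
    rcases Nat.eq_zero_or_pos Q with hQ0 | hQ0
    · subst hQ0
      have : bad x a 0 η = ∅ := by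
        unfold bad
        simp
      rw [this]
      simp
    · have key : ∀ j : ℕ, (2 : ℝ) ^ j ≤ 2 * (x : ℝ) ^ θ →
          ((bad x a (2 ^ j) η).card : ℝ) ≤ (2 : ℝ) ^ j / L ^ (c + 1) := by
        intro j hj
        rcases le_or_gt ((2 : ℝ) ^ j) ((x : ℝ) ^ ((1 : ℝ) / 4)) with h4 | h4
        · have := hsmall x hxx2 a (2 ^ j) Nat.one_le_two_pow (by push_cast; exact h4)
          push_cast at this
          exact this
        · by_contra hcon
          push Not at hcon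
          apply haE
          rw [hE, mem_filter]
          refine ⟨ha, j, hJmem j h4.le hj, ?_⟩
          push_cast
          exact hcon
      set j := Nat.log 2 Q with hj
      have q1 : 2 ^ j ≤ Q := Nat.pow_log_le_self 2 (by omega)
      have q2 : Q < 2 ^ (j + 1) := Nat.lt_pow_succ_log_self (by norm_num) Q
      have q1r : (2 : ℝ) ^ j ≤ Q := by exact_mod_cast q1
      have e : (2 : ℝ) ^ (j + 1) = 2 * 2 ^ j := by rw [pow_succ]; ring
      have k1 := key j (by linarith)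
      have k2 := key (j + 1) (by rw [e]; linarith)
      have k3 : ((bad x a Q η).card : ℝ) ≤ (bad x a (2 ^ j) η).card +
          (bad x a (2 ^ (j + 1)) η).card := by
        exact_mod_cast (Finset.card_le_card (fin_bad_subset x a Q η j q1 q2)).trans
          (Finset.card_union_le _ _)
      have hQr : (0 : ℝ) ≤ Q := Nat.cast_nonneg _
      calc ((bad x a Q η).card : ℝ) ≤ (2 : ℝ) ^ j / L ^ (c + 1) + (2 : ℝ) ^ (j + 1) / L ^ (c + 1) := by
            linarith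
        _ = 3 * (2 : ℝ) ^ j / L ^ (c + 1) := by rw [e]; ring
        _ ≤ 3 * Q / L ^ (c + 1) := div_le_div_of_nonneg_right (by linarith) (by positivity)
        _ = (3 / L) * (Q / L ^ c) := by
            rw [pow_succ]
            field_simp
        _ ≤ 1 * (Q / L ^ c) := by
            refine mul_le_mul_of_nonneg_right ?_ (by positivity)
            rw [div_le_one hL0]
            exact hL
        _ = Q / L ^ c := one_mul _

end Pool.Agent.H87.WL
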