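import Pool.Agent.H87.WL.MuL
import Pool.Agent.H91.EHA.Lam1

/-!
# WL Idn: the identity

`S = PPc P P' (a q)`, `M = Mu S`, `K = (x-a)/q`, `L = log x`. The `n ≤ x`, `n ≡ a (q)` are the
`n = a + q k`, `1 ≤ k ≤ K`, and the `n ≤ a`; the latter are at most `a/q + 1` and contribute at most
`(a/q+1) L` to `psiA x q a` (same for the modulus `q p`: at most `(a/q + 1) L`).
`M ∑_k Λ(a+qk) = ∑_k Om S k Λ(a+qk) + ∑_k (M - Om S k) Λ(a+qk)`, and
`∑_k Om S k Λ(a+qk) = ∑_{p ∈ S} ∑_{k ≤ K, p | k} Λ(a+qk) = ∑_{p ∈ S} (psiA x (qp) a - (n ≤ a))`.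
`Λ = hR + lamR`; by `Pool.Agent.H91.EHA.lamR_ap` (`(a, qp) = 1`) the `lamR` part is
`x/(qp) gR R (qp) + O(R³)` and `gR R (q p) = gR R q` because `p > P ≥ R` is prime (divisors `≤ R` of `q p` divide
`q`). So it adds up to `M (x/q) gR R q + O(P' R³)`.
The primes `p ∈ PP` with `p | a q` (at most `Nat.log 2 (a q)`, `card_dvd`) are added to the `hR` part; each costs
at most `(x/(qP) + 1)(L + R³)`, since `|hR R n| ≤ L + R³` (`|ramS c n| ≤ c²`, `φ ≥ 1`).
-/

set_option autoImplicit false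

namespace Pool.Agent.H87.WL

open Finset
open Pool.Agent.H91.EHA (Lam lamR hR ramS psiA err)

private theorem idn_sum (x q p a : ℕ) (hq : 1 ≤ q) (hp : 1 ≤ p) (hax : a ≤ x) (f : ℕ → ℝ) :
    ∑ n ∈ (Icc 1 x).filter (fun n => n ≡ a [MOD q * p]), f n =
      ∑ n ∈ (Icc 1 a).filter (fun n => n ≡ a [MOD q * p]), f n +
        ∑ k ∈ (Icc 1 ((x - a) / q)).filter (fun k => p ∣ k), f (a + q * k) := by
  have h1 : (Icc 1 x).filter (fun n => n ≡ a [MOD q * p]) =
      (Icc 1 a).filter (fun n => n ≡ a [MOD q * p]) ∪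
        (Ioc a x).filter (fun n => n ≡ a [MOD q * p]) := by
    ext n
    simp only [mem_union, mem_filter, mem_Icc, mem_Ioc]
    constructor
    · rintro ⟨⟨h1, h2⟩, h3⟩
      rcases le_or_gt n a with h | h
      · exact Or.inl ⟨⟨h1, h⟩, h3⟩
      · exact Or.inr ⟨⟨h, h2⟩, h3⟩
    · rintro (⟨⟨h1, h2⟩, h3⟩ | ⟨⟨h1, h2⟩, h3⟩)
      · exact ⟨⟨h1, h2.trans hax⟩, h3⟩
      · exact ⟨⟨by omega, h2⟩, h3⟩
  have h2 : Disjoint ((Icc 1 a).filter (fun n => n ≡ a [MOD q * p]))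
      ((Ioc a x).filter (fun n => n ≡ a [MOD q * p])) := by
    rw [disjoint_left]
    intro n hn hn'
    rw [mem_filter, mem_Icc] at hn
    rw [mem_filter, mem_Ioc] at hn'
    omega
  rw [h1, sum_union h2]
  congr 1
  symm
  refine sum_nbij' (fun k => a + q * k) (fun n => (n - a) / q) ?_ ?_ ?_ ?_ ?_
  · intro k hk
    rw [mem_filter, mem_Icc] at hk
    obtain ⟨⟨hk1, hk2⟩, hk3⟩ := hk
    rw [mem_filter, mem_Ioc]
    have h3 : q * k ≤ x - a := (Nat.mul_le_mul_left q hk2).trans (Nat.mul_div_le _ _)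
    have h4 : 1 ≤ q * k := Nat.mul_pos hq hk1
    refine ⟨⟨by omega, by omega⟩, ?_⟩
    have h5 : q * p ∣ q * k := Nat.mul_dvd_mul_left q hk3
    exact ((Nat.modEq_iff_dvd' (Nat.le_add_right a (q * k))).2 (by simpa using h5)).symm
  · intro n hn
    rw [mem_filter, mem_Ioc] at hn
    obtain ⟨⟨hn1, hn2⟩, hn3⟩ := hn
    obtain ⟨t, ht⟩ := (Nat.modEq_iff_dvd' hn1.le).1 hn3.symm
    have h3 : (n - a) / q = p * t := by
      rw [ht, mul_assoc, Nat.mul_div_cancel_left _ hq]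
    rw [mem_filter, mem_Icc, h3]
    refine ⟨⟨?_, ?_⟩, Dvd.intro t rfl⟩
    · rcases Nat.eq_zero_or_pos t with h0 | h0
      · subst h0; simp at ht; omega
      · exact Nat.mul_pos hp h0
    · rw [← h3]
      exact Nat.div_le_div_right (by omega)
  · intro k hk
    show (a + q * k - a) / q = k
    rw [Nat.add_sub_cancel_left, Nat.mul_div_cancel_left _ hq]
  · intro n hn
    rw [mem_filter, mem_Ioc] at hn
    obtain ⟨⟨hn1, hn2⟩, hn3⟩ := hn
    obtain ⟨t, ht⟩ := (Nat.modEq_iff_dvd' hn1.le).1 hn3.symm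
    have h3 : (n - a) / q = p * t := by
      rw [ht, mul_assoc, Nat.mul_div_cancel_left _ hq]
    show a + q * ((n - a) / q) = n
    rw [h3, ← mul_assoc, ← ht]
    omega
  · intro k hk
    rfl

/-- Number of `n ≤ y` in a residue class. -/
private theorem idn_count (y m b : ℕ) (hm : 0 < m) :
    (((Icc 1 y).filter (fun n => n ≡ b [MOD m])).card : ℝ) ≤ (y : ℝ) / m + 1 := by
  have h0 : Icc 1 y = Ioc 0 y := by
    ext n
    simp only [mem_Icc, mem_Ioc]
    omega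
  have h1 := Nat.Ioc_filter_modEq_card 0 y hm b
  rw [h0]
  have hmq : (0 : ℚ) < (m : ℚ) := by exact_mod_cast hm
  set A : ℚ := ((y : ℚ) - b) / m with hA
  set B : ℚ := (((0 : ℕ) : ℚ) - b) / m with hB
  have hAB : A = B + (y : ℚ) / m := by
    rw [hA, hB]
    push_cast
    ring
  have hy : (0 : ℚ) ≤ (y : ℚ) / m := by positivity
  have hle : ⌊B⌋ ≤ ⌊A⌋ := Int.floor_le_floor (by rw [hAB]; linarith)
  rw [max_eq_left (by linarith)] at h1
  have h2 : ((((Ioc 0 y).filter (fun n => n ≡ b [MOD m])).card : ℤ) : ℚ) = (⌊A⌋ : ℚ) - (⌊B⌋ : ℚ) := by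
    rw [h1]
    push_cast
    ring
  have a1 := Int.floor_le A
  have b2 := Int.lt_floor_add_one B
  have h3 : ((((Ioc 0 y).filter (fun n => n ≡ b [MOD m])).card : ℤ) : ℚ) ≤ (y : ℚ) / m + 1 := by
    rw [h2]
    linarith
  have h4 : (((((Ioc 0 y).filter (fun n => n ≡ b [MOD m])).card : ℤ) : ℚ) : ℝ)
      ≤ (((y : ℚ) / m + 1 : ℚ) : ℝ) := by
    exact_mod_cast h3
  push_cast at h4
  simpa using h4

private theorem idn_Lam_nonneg (n : ℕ) : 0 ≤ Lam n := ArithmeticFunction.vonMangoldt_nonneg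

private theorem idn_Lam_le {x n : ℕ} (hn : n ≤ x) (hx : 1 ≤ x) : Lam n ≤ Real.log x := by
  rcases Nat.eq_zero_or_pos n with h | h
  · subst h
    have : Lam 0 = 0 := by unfold Lam; simp
    rw [this]
    exact Real.log_natCast_nonneg x
  · refine (ArithmeticFunction.vonMangoldt_le_log).trans ?_
    exact Real.log_le_log (by exact_mod_cast h) (by exact_mod_cast hn)

private theorem idn_ramS (c n : ℕ) (hc : 1 ≤ c) : |ramS c n| ≤ (c : ℝ) ^ 2 := by
  unfold ramS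
  refine (abs_sum_le_sum_abs _ _).trans ?_
  have hg : Nat.gcd c n ≤ c := Nat.gcd_le_left n hc
  have h1 : ∀ d ∈ (Nat.gcd c n).divisors,
      |(d : ℝ) * (ArithmeticFunction.moebius (c / d) : ℝ)| ≤ (c : ℝ) := by
    intro d hd
    have hdc : d ≤ c := (Nat.divisor_le hd).trans hg
    have hμd : |(ArithmeticFunction.moebius (c / d) : ℝ)| ≤ 1 := by
      exact_mod_cast ArithmeticFunction.abs_moebius_le_one
    rw [abs_mul, abs_of_nonneg (Nat.cast_nonneg d)]
    calc (d : ℝ) * |(ArithmeticFunction.moebius (c / d) : ℝ)| ≤ (c : ℝ) * 1 :=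
          mul_le_mul (by exact_mod_cast hdc) hμd (abs_nonneg _) (Nat.cast_nonneg c)
      _ = c := mul_one _
  refine (sum_le_card_nsmul _ _ _ h1).trans ?_
  rw [nsmul_eq_mul, pow_two]
  refine mul_le_mul_of_nonneg_right ?_ (Nat.cast_nonneg c)
  have : (Nat.gcd c n).divisors.card ≤ c := (Nat.card_divisors_le_self _).trans hg
  exact_mod_cast this

private theorem idn_lamR (R n : ℕ) : |lamR R n| ≤ (R : ℝ) ^ 3 := by
  unfold lamR
  refine (abs_sum_le_sum_abs _ _).trans ?_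
  have h1 : ∀ c ∈ Icc 1 R, |(ArithmeticFunction.moebius c : ℝ) / (c.totient : ℝ) * ramS c n| ≤
      (R : ℝ) ^ 2 := by
    intro c hc
    rw [mem_Icc] at hc
    have hφ : (1 : ℝ) ≤ (c.totient : ℝ) := by
      exact_mod_cast Nat.totient_pos.2 hc.1
    have hμ : |(ArithmeticFunction.moebius c : ℝ) / (c.totient : ℝ)| ≤ 1 := by
      rw [abs_div, abs_of_nonneg (by positivity : (0 : ℝ) ≤ (c.totient : ℝ))]
      rw [div_le_one (by positivity)]
      have : |(ArithmeticFunction.moebius c : ℝ)| ≤ 1 := by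
        exact_mod_cast ArithmeticFunction.abs_moebius_le_one
      linarith
    have hcR : (c : ℝ) ≤ R := by exact_mod_cast hc.2
    rw [abs_mul]
    calc |(ArithmeticFunction.moebius c : ℝ) / (c.totient : ℝ)| * |ramS c n| ≤ 1 * (R : ℝ) ^ 2 := by
          refine mul_le_mul hμ ((idn_ramS c n hc.1).trans ?_) (abs_nonneg _) zero_le_one
          exact pow_le_pow_left₀ (Nat.cast_nonneg c) hcR 2
      _ = (R : ℝ) ^ 2 := one_mul _
  refine (sum_le_card_nsmul _ _ _ h1).trans ?_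
  rw [nsmul_eq_mul, Nat.card_Icc]
  apply le_of_eq
  simp only [Nat.add_sub_cancel]
  ring

private theorem idn_hR {x n : ℕ} (R : ℕ) (hn : n ≤ x) (hx : 1 ≤ x) :
    |hR R n| ≤ Real.log x + (R : ℝ) ^ 3 := by
  unfold hR
  refine (abs_sub _ _).trans ?_
  rw [abs_of_nonneg (idn_Lam_nonneg n)]
  exact add_le_add (idn_Lam_le hn hx) (idn_lamR R n)

private theorem idn_gR (R q p : ℕ) (hq : 1 ≤ q) (hp : p.Prime) (hRp : R < p) :
    gR R (q * p) = gR R q := by
  unfold gR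
  refine sum_congr ?_ fun _ _ => rfl
  ext c
  simp only [mem_filter, Nat.mem_divisors]
  constructor
  · rintro ⟨⟨h1, h2⟩, h3⟩
    refine ⟨⟨?_, by omega⟩, h3⟩
    have hc0 : 0 < c := Nat.pos_of_dvd_of_pos h1 (Nat.pos_of_ne_zero h2)
    have hcop : Nat.Coprime c p := by
      rw [Nat.coprime_comm, hp.coprime_iff_not_dvd]
      intro h
      have := Nat.le_of_dvd hc0 h
      omega
    exact hcop.dvd_of_dvd_mul_right h1
  · rintro ⟨⟨h1, h2⟩, h3⟩
    exact ⟨⟨h1.mul_right p, Nat.mul_ne_zero h2 hp.ne_zero⟩, h3⟩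

theorem idn (x a q P P' R : ℕ) (hx : 2 ≤ x) (hq : 1 ≤ q) (ha : 1 ≤ a) (hax : a ≤ x)
    (haq : Nat.Coprime a q) (hP : 1 ≤ P) (hRP : R ≤ P) :
    Mu (PPc P P' (a * q)) * |psiA x q a - (x : ℝ) / q * gR R q| ≤
      |∑ p ∈ PP P P', ∑ n ∈ (Icc 1 x).filter (fun n => n ≡ a [MOD q * p]), hR R n|
      + ∑ k ∈ Icc 1 ((x - a) / q),
          |(Om (PPc P P' (a * q)) k : ℝ) - Mu (PPc P P' (a * q))| * Lam (a + q * k)
      + ((P' : ℝ) * (R : ℝ) ^ 3
        + (Nat.log 2 (a * q) : ℝ) * ((x : ℝ) / (q * P) + 1) * (Real.log x + (R : ℝ) ^ 3)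
        + 3 * P' * ((a : ℝ) / q + 1) * Real.log x) := by
  classical
  set S := PPc P P' (a * q) with hS
  set M := Mu S with hM
  set L := Real.log x with hL
  have hL0 : 0 ≤ L := Real.log_natCast_nonneg x
  have hM0 : 0 ≤ M := Mu_nonneg S
  have hSP : ∀ p ∈ S, p.Prime ∧ P < p ∧ p ≤ P' ∧ ¬ p ∣ a * q := by
    intro p hp
    rw [hS] at hp
    unfold PPc PP at hp
    rw [mem_filter, mem_filter, mem_Ioc] at hp
    exact ⟨hp.1.2, hp.1.1.1, hp.1.1.2, hp.2⟩
  have hcard : (S.card : ℝ) ≤ P' := by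
    have h1 : S ⊆ Ioc P P' := (filter_subset _ _).trans (filter_subset _ _)
    have h2 := card_le_card h1
    rw [Nat.card_Ioc] at h2
    exact_mod_cast h2.trans (Nat.sub_le _ _)
  have hMP : M ≤ P' := by
    refine le_trans ?_ hcard
    rw [hM]
    unfold Mu
    calc ∑ p ∈ S, 1 / (p : ℝ) ≤ ∑ p ∈ S, (1 : ℝ) := by
          refine sum_le_sum fun p hp => ?_
          have h1 : (1 : ℝ) ≤ p := by exact_mod_cast (hSP p hp).1.one_lt.le
          rw [div_le_one (by linarith)]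
          exact h1
      _ = S.card := by simp
  set V := (a : ℝ) / q + 1 with hV
  have hV0 : 0 ≤ V := by positivity
  set K := (x - a) / q with hK
  -- the small part
  set A0 : ℕ → ℝ := fun p => ∑ n ∈ (Icc 1 a).filter (fun n => n ≡ a [MOD q * p]), Lam n with hA0
  have hA00 : ∀ p, 0 ≤ A0 p := fun p => sum_nonneg fun n _ => idn_Lam_nonneg n
  have hA0le : ∀ p, 1 ≤ p → A0 p ≤ V * L := by
    intro p hp
    have h1 : A0 p ≤ (((Icc 1 a).filter (fun n => n ≡ a [MOD q * p])).card : ℝ) * L := by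
      rw [← nsmul_eq_mul]
      refine sum_le_card_nsmul _ _ _ fun n hn => ?_
      rw [mem_filter, mem_Icc] at hn
      exact idn_Lam_le (hn.1.2.trans hax) (by omega)
    refine h1.trans (mul_le_mul_of_nonneg_right ?_ hL0)
    refine (idn_count a (q * p) a (Nat.mul_pos hq hp)).trans ?_
    rw [hV]
    have hq0 : (0 : ℝ) < q := by exact_mod_cast hq
    have hqp : (q : ℝ) ≤ ((q * p : ℕ) : ℝ) := by
      exact_mod_cast Nat.le_mul_of_pos_right q hp
    have h2 : (a : ℝ) / ((q * p : ℕ) : ℝ) ≤ (a : ℝ) / q :=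
      div_le_div_of_nonneg_left (Nat.cast_nonneg a) hq0 hqp
    linarith
  -- psiA for q and for q p
  have hTq : psiA x q a = A0 1 + ∑ k ∈ Icc 1 K, Lam (a + q * k) := by
    have h1 := idn_sum x q 1 a hq le_rfl hax Lam
    rw [mul_one] at h1
    unfold psiA
    rw [h1, hA0]
    simp only [mul_one]
    congr 1
    refine sum_congr ?_ fun _ _ => rfl
    ext k
    simp [hK]
  have hTqp : ∀ p, 1 ≤ p → psiA x (q * p) a = A0 p +
      ∑ k ∈ (Icc 1 K).filter (fun k => p ∣ k), Lam (a + q * k) := by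
    intro p hp
    exact idn_sum x q p a hq hp hax Lam
  -- the sum over the multiples
  have hOm : ∑ k ∈ Icc 1 K, (Om S k : ℝ) * Lam (a + q * k) =
      ∑ p ∈ S, ∑ k ∈ (Icc 1 K).filter (fun k => p ∣ k), Lam (a + q * k) := by
    have h1 : ∀ k ∈ Icc 1 K, (Om S k : ℝ) * Lam (a + q * k) =
        ∑ p ∈ S, if p ∣ k then Lam (a + q * k) else 0 := by
      intro k _
      unfold Om
      rw [← sum_filter, sum_const, nsmul_eq_mul]
    rw [sum_congr rfl h1, sum_comm]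
    refine sum_congr rfl fun p _ => ?_
    rw [sum_filter]
  -- the sums of hR and lamR
  set Hp : ℕ → ℝ := fun p => ∑ n ∈ (Icc 1 x).filter (fun n => n ≡ a [MOD q * p]), hR R n with hHp
  have hlam : ∀ p ∈ S, |psiA x (q * p) a - Hp p - 1 / (p : ℝ) * ((x : ℝ) / q * gR R q)| ≤
      (R : ℝ) ^ 3 := by
    intro p hp
    obtain ⟨hpp, hPp, hpP', hpd⟩ := hSP p hp
    have hcop : Nat.Coprime a (q * p) := by
      refine Nat.Coprime.mul_right haq ?_
      rw [Nat.coprime_comm, hpp.coprime_iff_not_dvd]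
      exact fun h => hpd (h.mul_right q)
    have h1 := Pool.Agent.H91.EHA.lamR_ap R x (q * p) a (Nat.mul_pos hq hpp.pos) hcop
    have h2 : ∑ c ∈ (q * p).divisors.filter (fun c => c ≤ R),
          (ArithmeticFunction.moebius c : ℝ) ^ 2 / (c.totient : ℝ) = gR R q := by
      have := idn_gR R q p hq hpp (lt_of_le_of_lt hRP hPp)
      rw [← this]
      rfl
    rw [h2] at h1
    have h3 : psiA x (q * p) a - Hp p =
        ∑ n ∈ (Icc 1 x).filter (fun n => n ≡ a [MOD q * p]), lamR R n := by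
      rw [hHp]
      unfold psiA
      rw [← sum_sub_distrib]
      refine sum_congr rfl fun n _ => ?_
      unfold hR
      ring
    rw [h3]
    have h4 : 1 / (p : ℝ) * ((x : ℝ) / q * gR R q) = (x : ℝ) / ((q * p : ℕ) : ℝ) * gR R q := by
      have hp0 : (p : ℝ) ≠ 0 := by exact_mod_cast hpp.ne_zero
      have hq0 : (q : ℝ) ≠ 0 := by
        have : (0 : ℝ) < q := by exact_mod_cast hq
        exact this.ne'
      push_cast
      field_simp
    rw [h4]
    exact h1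
  have hlamS : |∑ p ∈ S, psiA x (q * p) a - ∑ p ∈ S, Hp p - M * ((x : ℝ) / q * gR R q)| ≤
      (P' : ℝ) * (R : ℝ) ^ 3 := by
    have h1 : ∑ p ∈ S, psiA x (q * p) a - ∑ p ∈ S, Hp p - M * ((x : ℝ) / q * gR R q) =
        ∑ p ∈ S, (psiA x (q * p) a - Hp p - 1 / (p : ℝ) * ((x : ℝ) / q * gR R q)) := by
      rw [sum_sub_distrib, sum_sub_distrib, ← sum_mul]
      rfl
    rw [h1]
    refine (abs_sum_le_sum_abs _ _).trans ((sum_le_card_nsmul _ _ _ hlam).trans ?_)
    rw [nsmul_eq_mul]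
    exact mul_le_mul_of_nonneg_right hcard (by positivity)
  -- the primes left out
  have hHS : |∑ p ∈ S, Hp p| ≤ |∑ p ∈ PP P P', Hp p| +
      (Nat.log 2 (a * q) : ℝ) * ((x : ℝ) / (q * P) + 1) * (L + (R : ℝ) ^ 3) := by
    have h1 : ∑ p ∈ PP P P', Hp p = ∑ p ∈ S, Hp p +
        ∑ p ∈ (PP P P').filter (fun p => p ∣ a * q), Hp p := by
      rw [hS]
      unfold PPc
      rw [add_comm]
      exact (sum_filter_add_sum_filter_not _ _ _).symm
    have h2 : ∀ p ∈ (PP P P').filter (fun p => p ∣ a * q),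
        |Hp p| ≤ ((x : ℝ) / (q * P) + 1) * (L + (R : ℝ) ^ 3) := by
      intro p hp
      unfold PP at hp
      rw [mem_filter, mem_filter, mem_Ioc] at hp
      obtain ⟨⟨⟨hPp, _⟩, hpp⟩, _⟩ := hp
      have h3 : |Hp p| ≤ (((Icc 1 x).filter (fun n => n ≡ a [MOD q * p])).card : ℝ) *
          (L + (R : ℝ) ^ 3) := by
        rw [hHp, ← nsmul_eq_mul]
        refine (abs_sum_le_sum_abs _ _).trans (sum_le_card_nsmul _ _ _ fun n hn => ?_)
        rw [mem_filter, mem_Icc] at hn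
        exact idn_hR R hn.1.2 (by omega)
      refine h3.trans (mul_le_mul_of_nonneg_right ?_ (by positivity))
      refine (idn_count x (q * p) a (Nat.mul_pos hq hpp.pos)).trans ?_
      have hq0 : (0 : ℝ) < q := by exact_mod_cast hq
      have hP0 : (0 : ℝ) < P := by exact_mod_cast hP
      have h4 : (q : ℝ) * P ≤ ((q * p : ℕ) : ℝ) := by
        push_cast
        exact mul_le_mul_of_nonneg_left (by exact_mod_cast hPp.le) hq0.le
      have h5 : (x : ℝ) / ((q * p : ℕ) : ℝ) ≤ (x : ℝ) / (q * P) :=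
        div_le_div_of_nonneg_left (Nat.cast_nonneg x) (by positivity) h4
      linarith
    have h6 : |∑ p ∈ (PP P P').filter (fun p => p ∣ a * q), Hp p| ≤
        (Nat.log 2 (a * q) : ℝ) * ((x : ℝ) / (q * P) + 1) * (L + (R : ℝ) ^ 3) := by
      refine (abs_sum_le_sum_abs _ _).trans ((sum_le_card_nsmul _ _ _ h2).trans ?_)
      rw [nsmul_eq_mul, mul_assoc]
      refine mul_le_mul_of_nonneg_right ?_ (by positivity)
      exact_mod_cast card_dvd P P' (a * q) (Nat.mul_pos ha hq)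
    have h7 : ∑ p ∈ S, Hp p = ∑ p ∈ PP P P', Hp p -
        ∑ p ∈ (PP P P').filter (fun p => p ∣ a * q), Hp p := by linarith
    rw [h7]
    exact (abs_sub _ _).trans (by linarith)
  -- the variance term
  have hvar : |∑ k ∈ Icc 1 K, (M - (Om S k : ℝ)) * Lam (a + q * k)| ≤
      ∑ k ∈ Icc 1 K, |(Om S k : ℝ) - M| * Lam (a + q * k) := by
    refine (abs_sum_le_sum_abs _ _).trans (le_of_eq (sum_congr rfl fun k _ => ?_))
    rw [abs_mul, abs_of_nonneg (idn_Lam_nonneg _), abs_sub_comm]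
  -- the identity
  have hA0S : ∑ p ∈ S, A0 p ≤ (P' : ℝ) * (V * L) := by
    refine (sum_le_card_nsmul _ _ _ fun p hp => hA0le p (hSP p hp).1.pos).trans ?_
    rw [nsmul_eq_mul]
    exact mul_le_mul_of_nonneg_right hcard (by positivity)
  have hA0S0 : 0 ≤ ∑ p ∈ S, A0 p := sum_nonneg fun p _ => hA00 p
  have hid : M * (psiA x q a - (x : ℝ) / q * gR R q) =
      (∑ p ∈ S, psiA x (q * p) a - ∑ p ∈ S, Hp p - M * ((x : ℝ) / q * gR R q)) + ∑ p ∈ S, Hp p +
        ∑ k ∈ Icc 1 K, (M - (Om S k : ℝ)) * Lam (a + q * k) + (M * A0 1 - ∑ p ∈ S, A0 p) := by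
    have h1 : ∑ p ∈ S, psiA x (q * p) a = ∑ p ∈ S, A0 p +
        ∑ k ∈ Icc 1 K, (Om S k : ℝ) * Lam (a + q * k) := by
      rw [hOm, ← sum_add_distrib]
      exact sum_congr rfl fun p hp => hTqp p (hSP p hp).1.pos
    have h2 : ∑ k ∈ Icc 1 K, (M - (Om S k : ℝ)) * Lam (a + q * k) =
        M * ∑ k ∈ Icc 1 K, Lam (a + q * k) -
          ∑ k ∈ Icc 1 K, (Om S k : ℝ) * Lam (a + q * k) := by
      rw [mul_sum, ← sum_sub_distrib]
      exact sum_congr rfl fun k _ => by ring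
    rw [hTq, h1, h2]
    ring
  have hlast : |M * A0 1 - ∑ p ∈ S, A0 p| ≤ 3 * P' * V * L := by
    have h1 : M * A0 1 ≤ (P' : ℝ) * (V * L) :=
      mul_le_mul hMP (hA0le 1 le_rfl) (hA00 1) (Nat.cast_nonneg _)
    have h2 : 0 ≤ M * A0 1 := mul_nonneg hM0 (hA00 1)
    have h3 : 0 ≤ (P' : ℝ) * (V * L) := by positivity
    rw [abs_le]
    constructor
    · linarith
    · linarith
  have hfin : M * |psiA x q a - (x : ℝ) / q * gR R q| =
      |M * (psiA x q a - (x : ℝ) / q * gR R q)| := by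
    rw [abs_mul, abs_of_nonneg hM0]
  rw [hfin, hid]
  have e1 := abs_add_le ((∑ p ∈ S, psiA x (q * p) a - ∑ p ∈ S, Hp p -
    M * ((x : ℝ) / q * gR R q)) + ∑ p ∈ S, Hp p +
        ∑ k ∈ Icc 1 K, (M - (Om S k : ℝ)) * Lam (a + q * k)) (M * A0 1 - ∑ p ∈ S, A0 p)
  have e2 := abs_add_le ((∑ p ∈ S, psiA x (q * p) a - ∑ p ∈ S, Hp p -
    M * ((x : ℝ) / q * gR R q)) + ∑ p ∈ S, Hp p)
        (∑ k ∈ Icc 1 K, (M - (Om S k : ℝ)) * Lam (a + q * k))
  have e3 := abs_add_le (∑ p ∈ S, psiA x (q * p) a - ∑ p ∈ S, Hp p -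
    M * ((x : ℝ) / q * gR R q)) (∑ p ∈ S, Hp p)
  linarith

end Pool.Agent.H87.WL
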