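import Pool.Agent.H87.WL.TKL
import Pool.Agent.H87.WL.Idn
import Pool.Agent.H87.WL.PiPsi

/-!
# WL Pt: the pointwise alternative

`L = log x`, `R = P1 x Br`, `P = P1 x B`, `P' = P2 x B B' ≤ P1 x B'`, `S = PPc P P' (a q)`, `M = Mu S`. For large `x`: `R ≤ P`;
`M ≥ Mu (PP P P') - log_2(aq)/P ≥ M0 - 1` (`mu_ppc`, `aq ≤ x²`, `B ≥ 2`), `(M+1)² ≤ (2 + log P')² ≤ P`
(`mu_le`); `K = (x-a)/q ≥ x^{1-θ}/2` (integer part; `a ≤ x^θ ≤ x/4`, `q ≤ x^θ`), so `log K ≥ (1-θ) L/2`,
`P' ≤ K^{1/10}`, `log(a + qK) ≤ L ≤ K^{1/10}`. By `tkl` the second term of `idn` is at most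
`C √M (2/(1-θ)) x/φ(q)` (`K q ≤ x`). The third term of `idn` is at most `(x/q) L^{-1}` for large `x`
(`a/q + 1 ≤ 2 x^θ/q`, `1 ≤ x^θ/q`, `L + R³ ≤ L^{3Br+1}`, `L^{3 Br + 3 - B} ≤ 1/L` because `3 Br + 4 ≤ B`).
Divide by `M ≥ M0 - 1`: if the first alternative fails, then
`|psiA - (x/q) gR R q| ≤ (η/100) x/q + (C_θ/√M) x/φ(q) + x/(q L)`; if the second fails then
`|(x/q) gR R q - x/φ(q)| ≤ (η/100) x/q ≤ (η/100) x/φ(q)`. So `|psiA x q a - x/φ(q)| ≤ (η/20) x/φ(q)` for
`M0` large in terms of `η, θ`. With `δ = min (η/20) ((1-θ)/2)` in `pin_le` (`x^{1-δ}/q + 1 ≤ (η/100) x/(q L)`) and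
`psi_le` (third alternative fails: `pps ≤ (η/100) x/q`), and `π(x) = (1+O(η/100)) x/L` (`pi_asymp`), one gets `|err x q a| ≤ η π(x)/φ(q)`: upper bound
`pin (1-δ) L ≤ (1 + η/20 + η/100) x/φ(q)`, lower bound `pin L ≥ (1 - η/20 - η/100) x/φ(q)`.
(`π(x) log x ~ x`: from `PntProp`: `∑_{n≤x} Λ(n) = x + O(x/L^2)`, `pin_le` and `psi_le` with `q = 1`, and
`pps x 1 a ≤ 2 √x L²`, or look for an existing lemma in Pool/Agent.)
-/

set_option autoImplicit false

namespace Pool.Agent.H87.WL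

open Finset
open Pool.Agent.H91.EHA (Lam lamR hR ramS psiA err)

/-! ### elementary asymptotics -/

private lemma pt_log_ge (T : ℝ) : ∀ᶠ x : ℕ in Filter.atTop, T ≤ Real.log (x : ℝ) :=
  (Real.tendsto_log_atTop.comp tendsto_natCast_atTop_atTop).eventually_ge_atTop T

private lemma pt_rpow_ge (δ T : ℝ) (hδ : 0 < δ) : ∀ᶠ x : ℕ in Filter.atTop, T ≤ (x : ℝ) ^ δ :=
  ((tendsto_rpow_atTop hδ).comp tendsto_natCast_atTop_atTop).eventually_ge_atTop T

private lemma pt_pow_le (k : ℕ) (δ ε : ℝ) (hδ : 0 < δ) (hε : 0 < ε) :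
    ∀ᶠ x : ℕ in Filter.atTop, Real.log (x : ℝ) ^ k ≤ ε * (x : ℝ) ^ δ := by
  have h1 := isLittleO_log_rpow_rpow_atTop (k : ℝ) hδ
  have h2 := (h1.comp_tendsto (tendsto_natCast_atTop_atTop (R := ℝ))).def hε
  filter_upwards [h2, Filter.eventually_ge_atTop 1] with x hx hx1
  have hx1' : (1 : ℝ) ≤ x := by exact_mod_cast hx1
  have hL : 0 ≤ Real.log (x : ℝ) := Real.log_nonneg hx1'
  simp only [Function.comp, Real.rpow_natCast] at hx
  rw [Real.norm_of_nonneg (pow_nonneg hL _),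
    Real.norm_of_nonneg (Real.rpow_nonneg (by linarith) _)] at hx
  exact hx

private lemma pt_loglog (b : ℕ) (y : ℝ) (hy1 : 1 ≤ y) (hy : ((4 * (b : ℝ) + 2) ^ 2 + 1) ^ 2 ≤ y) :
    (2 + b * Real.log y) ^ 2 ≤ y - 1 := by
  have hy0 : 0 < y := by linarith
  set t : ℝ := y ^ ((1 : ℝ) / 4) with ht
  have ht0 : 0 ≤ t := Real.rpow_nonneg hy0.le _
  have ht1 : 1 ≤ t := Real.one_le_rpow hy1 (by norm_num)
  have ht4 : t ^ 4 = y := by
    rw [ht, ← Real.rpow_natCast, ← Real.rpow_mul hy0.le]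
    norm_num
  have hlog : Real.log y ≤ 4 * t := by
    have h := Real.log_le_rpow_div hy0.le (show (0 : ℝ) < 1 / 4 by norm_num)
    rw [← ht] at h
    linarith
  have hlog0 : 0 ≤ Real.log y := Real.log_nonneg hy1
  have hb : (0 : ℝ) ≤ b := Nat.cast_nonneg b
  set c : ℝ := 4 * (b : ℝ) + 2 with hc
  have h1 : 2 + b * Real.log y ≤ c * t := by
    have : (b : ℝ) * Real.log y ≤ b * (4 * t) := mul_le_mul_of_nonneg_left hlog hb
    rw [hc]
    nlinarith
  have h2 : (2 + b * Real.log y) ^ 2 ≤ (c * t) ^ 2 := by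
    apply pow_le_pow_left₀ _ h1
    positivity
  have h3 : c ^ 2 + 1 ≤ t ^ 2 := by
    have h4 : (c ^ 2 + 1) ^ 2 ≤ (t ^ 2) ^ 2 := by
      have : (t ^ 2) ^ 2 = t ^ 4 := by ring
      rw [this, ht4]
      exact hy
    exact (pow_le_pow_iff_left₀ (by positivity) (by positivity) two_ne_zero).1 h4
  have h5 : (c * t) ^ 2 ≤ (t ^ 2 - 1) * t ^ 2 := by
    have : (c * t) ^ 2 = c ^ 2 * t ^ 2 := by ring
    rw [this]
    exact mul_le_mul_of_nonneg_right (by linarith) (by positivity)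
  have h6 : (t ^ 2 - 1) * t ^ 2 ≤ y - 1 := by
    have : (t ^ 2 - 1) * t ^ 2 = t ^ 4 - t ^ 2 := by ring
    rw [this, ht4]
    nlinarith
  linarith

/-! ### the prime number theorem for `π` -/

private lemma pt_pin_one (x : ℕ) : pin x 1 0 = Nat.primeCounting x := by
  unfold pin
  rw [Nat.primeCounting, Nat.primeCounting', Nat.count_eq_card_filter_range]
  congr 1
  ext p
  simp only [mem_filter, mem_Icc, mem_range]
  constructor
  · rintro ⟨⟨h1, h2⟩, h3, _⟩
    exact ⟨by omega, h3⟩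
  · rintro ⟨h1, h2⟩
    exact ⟨⟨h2.one_lt.le, by omega⟩, h2, Subsingleton.elim _ _⟩

private lemma pt_psi_one (x : ℕ) : psiA x 1 0 = ∑ n ∈ Icc 1 x, Lam n := by
  unfold Pool.Agent.H91.EHA.psiA
  apply sum_congr _ fun _ _ => rfl
  apply filter_true_of_mem
  intro n _
  exact Nat.modEq_one

private lemma pt_psi_le_pi (x : ℕ) :
    ∑ n ∈ Icc 1 x, Lam n ≤ (Nat.primeCounting x : ℝ) * Real.log x := by
  have h := Chebyshev.psi_le_primeCounting_mul_log x
  rw [Chebyshev.psi_eq_sum_Icc] at h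
  rw [Nat.floor_natCast] at h
  refine le_trans (le_of_eq ?_) h
  have h0 : Icc 0 x = insert 0 (Icc 1 x) := by
    ext n
    simp only [mem_Icc, mem_insert]
    omega
  rw [h0, sum_insert (by simp)]
  simp [Pool.Agent.H91.EHA.Lam]

/-- `π(x) = x/log x (1 + O(ε))` -/
theorem pi_asymp (hp : PntProp) (ε : ℝ) (hε : 0 < ε) : ∃ x0 : ℕ, ∀ x : ℕ, x0 ≤ x →
    |(Nat.primeCounting x : ℝ) * Real.log x - x| ≤ ε * x := by
  obtain ⟨N, hN⟩ := hp 1
  set e : ℝ := min ε 1 with he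
  have he0 : 0 < e := lt_min hε one_pos
  have he1 : e ≤ 1 := min_le_right _ _
  have hee : e ≤ ε := min_le_left _ _
  set δ : ℝ := e / 4 with hδ
  have hδ0 : 0 < δ := by positivity
  have ev : ∀ᶠ x : ℕ in Filter.atTop, |(Nat.primeCounting x : ℝ) * Real.log x - x| ≤ ε * x := by
    filter_upwards [Filter.eventually_ge_atTop N, Filter.eventually_ge_atTop 2,
      pt_log_ge (12 / e), pt_pow_le 1 δ (e / 12) hδ0 (by positivity),
      pt_pow_le 1 1 (e / 12) one_pos (by positivity)] with x hx1 hx2 hx3 hx4 hx5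
    have hx0 : (2 : ℝ) ≤ x := by exact_mod_cast hx2
    have hxpos : (0 : ℝ) < x := by linarith
    have hLpos : 0 < Real.log (x : ℝ) := lt_of_lt_of_le (by positivity) hx3
    set L : ℝ := Real.log (x : ℝ) with hL
    rw [pow_one] at hx4 hx5
    rw [Real.rpow_one] at hx5
    have hpsi := hN x hx1 x le_rfl
    rw [pow_one] at hpsi
    have hdiv : (x : ℝ) / L ≤ e / 12 * x := by
      rw [div_le_iff₀ hLpos]
      have : 1 ≤ e / 12 * L := by
        have h := mul_le_mul_of_nonneg_left hx3 (show 0 ≤ e / 12 by positivity)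
        have h' : e / 12 * (12 / e) = 1 := by field_simp
        rw [h'] at h
        exact h
      nlinarith
    have habs := abs_le.1 (hpsi.trans hdiv)
    have hlow := pt_psi_le_pi x
    rw [← hL] at hlow
    have hup := pin_le x 1 0 δ hx2 le_rfl hδ0 (by linarith)
    rw [pt_pin_one, pt_psi_one, ← hL] at hup
    have hpow : (x : ℝ) ^ (1 - δ) * L ≤ e / 12 * x := by
      have h1 : (x : ℝ) ^ (1 - δ) * (x : ℝ) ^ δ = x := by
        rw [← Real.rpow_add hxpos]
        norm_num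
      have h2 : 0 ≤ (x : ℝ) ^ (1 - δ) := Real.rpow_nonneg hxpos.le _
      calc (x : ℝ) ^ (1 - δ) * L ≤ (x : ℝ) ^ (1 - δ) * (e / 12 * (x : ℝ) ^ δ) :=
            mul_le_mul_of_nonneg_left hx4 h2
        _ = e / 12 * ((x : ℝ) ^ (1 - δ) * (x : ℝ) ^ δ) := by ring
        _ = e / 12 * x := by rw [h1]
    have hup2 : (Nat.primeCounting x : ℝ) * ((1 - δ) * L) ≤ (1 + e / 4) * x := by
      have : ((x : ℝ) ^ (1 - δ) / ((1 : ℕ) : ℝ) + 1) * L = (x : ℝ) ^ (1 - δ) * L + L := by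
        push_cast
        ring
      rw [this] at hup
      have := habs.2
      nlinarith
    rw [abs_le]
    constructor
    · have := habs.1
      nlinarith
    · set n : ℝ := (Nat.primeCounting x : ℝ) * L with hn
      have h1 : n * (1 - δ) ≤ (1 + e / 4) * x := by
        have : n * (1 - δ) = (Nat.primeCounting x : ℝ) * ((1 - δ) * L) := by
          rw [hn]
          ring
        rw [this]
        exact hup2
      have h2 : (1 + e / 4) * x ≤ (1 + e) * x * (1 - δ) := by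
        have h3 : (1 + e / 4) ≤ (1 + e) * (1 - δ) := by
          rw [hδ]
          nlinarith
        nlinarith
      have h4 : n ≤ (1 + e) * x := by
        have h5 : 0 < 1 - δ := by linarith
        exact le_of_mul_le_mul_right (h1.trans h2) h5
      nlinarith
  exact Filter.eventually_atTop.1 ev

/-! ### the combination of the estimates -/

private lemma pt_comb (x L q φ psi g M T E A pic pin' pps' η δ W c : ℝ)
    (hx : 0 < x) (hL : 0 < L) (hφ : 1 ≤ φ) (hφq : φ ≤ q) (hη : 0 < η) (hη1 : η ≤ 1)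
    (hδ0 : 0 < δ) (hδ : δ ≤ η / 20) (hM : 1 ≤ M) (hc : c ≤ η / 100 * Real.sqrt M)
    (hidn : M * |psi - x / q * g| ≤ A + T + E) (hA : A ≤ η / 100 * (x / q))
    (hT : T ≤ Real.sqrt M * c * (x / φ)) (hE : E ≤ η / 100 * (x / q))
    (hg : |1 / q * g - 1 / φ| ≤ η / 100 * (1 / q)) (hpps : pps' ≤ η / 100 * (x / q))
    (hup : pin' * ((1 - δ) * L) ≤ psi + W) (hW : W ≤ η / 100 * (x / q))
    (hlow : psi ≤ pin' * L + pps') (hpi : |pic * L - x| ≤ η / 100 * x) :
    |pin' - pic / φ| ≤ η * (pic / φ) := by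
  have hφ0 : 0 < φ := by linarith
  have hq0 : 0 < q := by linarith
  set X : ℝ := x / φ with hX
  have hX0 : 0 < X := div_pos hx hφ0
  have hxq : x / q ≤ X := div_le_div_of_nonneg_left hx.le hφ0 hφq
  have hxq0 : 0 < x / q := div_pos hx hq0
  have hηX : η / 100 * (x / q) ≤ η / 100 * X := mul_le_mul_of_nonneg_left hxq (by positivity)
  have hM0 : 0 < M := by linarith
  have hsq : Real.sqrt M * Real.sqrt M = M := Real.mul_self_sqrt hM0.le
  have hs0 : 0 ≤ Real.sqrt M := Real.sqrt_nonneg M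
  have hT2 : T ≤ M * (η / 100 * X) := by
    calc T ≤ Real.sqrt M * c * X := hT
      _ ≤ Real.sqrt M * (η / 100 * Real.sqrt M) * X := by
          apply mul_le_mul_of_nonneg_right _ hX0.le
          exact mul_le_mul_of_nonneg_left hc hs0
      _ = (Real.sqrt M * Real.sqrt M) * (η / 100 * X) := by ring
      _ = M * (η / 100 * X) := by rw [hsq]
  have hηX0 : 0 ≤ η / 100 * X := by positivity
  have hM1 : η / 100 * X ≤ M * (η / 100 * X) := by nlinarith
  have h1 : |psi - x / q * g| ≤ 3 * (η / 100 * X) := by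
    have h2 : M * |psi - x / q * g| ≤ M * (3 * (η / 100 * X)) := by nlinarith
    exact le_of_mul_le_mul_left h2 hM0
  have h3 : |x / q * g - X| ≤ η / 100 * X := by
    have h4 : x / q * g - X = x * (1 / q * g - 1 / φ) := by
      rw [hX]
      ring
    rw [h4, abs_mul, abs_of_pos hx]
    calc x * |1 / q * g - 1 / φ| ≤ x * (η / 100 * (1 / q)) := mul_le_mul_of_nonneg_left hg hx.le
      _ = η / 100 * (x / q) := by ring
      _ ≤ η / 100 * X := hηX
  have h5 := abs_le.1 h1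
  have h6 := abs_le.1 h3
  have hlowp : (1 - η / 20) * X ≤ pin' * L := by
    have := h5.1
    have := h6.1
    nlinarith
  have hupp : pin' * L * (1 - δ) ≤ (1 + η / 20) * X := by
    have := h5.2
    have := h6.2
    nlinarith
  set p : ℝ := pic / φ * L with hp
  have hpX : |p - X| ≤ η / 100 * X := by
    have h7 : p - X = (pic * L - x) / φ := by
      rw [hp, hX]
      ring
    rw [h7, abs_div, abs_of_pos hφ0, hX, div_le_iff₀ hφ0]
    have : η / 100 * (x / φ) * φ = η / 100 * x := by field_simp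
    rw [this]
    exact hpi
  have h8 := abs_le.1 hpX
  have h9 : pin' * L ≤ (1 + η) * p := by
    have h10 : (1 + η / 20) * X ≤ (1 + η) * p * (1 - δ) := by
      have ha : (1 - η / 100) * X ≤ p := by linarith [h8.1]
      have hb : (1 + η) * ((1 - η / 100) * X) * (1 - δ) ≤ (1 + η) * p * (1 - δ) := by
        apply mul_le_mul_of_nonneg_right _ (by linarith)
        exact mul_le_mul_of_nonneg_left ha (by linarith)
      refine le_trans ?_ hb
      have hcc : 1 + η / 20 ≤ (1 + η) * (1 - η / 100) * (1 - δ) := by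
        have hd : (1 + η) * (1 - η / 100) * (1 - η / 20) ≤ (1 + η) * (1 - η / 100) * (1 - δ) := by
          apply mul_le_mul_of_nonneg_left (by linarith)
          apply mul_nonneg <;> linarith
        refine le_trans ?_ hd
        have he2 : η ^ 2 ≤ η := by nlinarith
        have he3 : 0 ≤ η ^ 3 := by positivity
        nlinarith
      calc (1 + η / 20) * X ≤ (1 + η) * (1 - η / 100) * (1 - δ) * X :=
            mul_le_mul_of_nonneg_right hcc hX0.le
        _ = (1 + η) * ((1 - η / 100) * X) * (1 - δ) := by ring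
    exact le_of_mul_le_mul_right (hupp.trans h10) (by linarith)
  have h11 : (1 - η) * p ≤ pin' * L := by
    have ha : p ≤ (1 + η / 100) * X := by linarith [h8.2]
    have hb : (1 - η) * p ≤ (1 - η) * ((1 + η / 100) * X) :=
      mul_le_mul_of_nonneg_left ha (by linarith)
    refine le_trans hb (le_trans ?_ hlowp)
    have : (1 - η) * (1 + η / 100) ≤ 1 - η / 20 := by nlinarith
    calc (1 - η) * ((1 + η / 100) * X) = ((1 - η) * (1 + η / 100)) * X := by ring
      _ ≤ (1 - η / 20) * X := mul_le_mul_of_nonneg_right this hX0.le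
  rw [abs_le]
  constructor
  · have : (1 - η) * (pic / φ) ≤ pin' := by
      have h12 : ((1 - η) * (pic / φ)) * L ≤ pin' * L := by
        calc ((1 - η) * (pic / φ)) * L = (1 - η) * p := by rw [hp]; ring
          _ ≤ pin' * L := h11
      exact le_of_mul_le_mul_right h12 hL
    linarith
  · have : pin' ≤ (1 + η) * (pic / φ) := by
      have h12 : pin' * L ≤ ((1 + η) * (pic / φ)) * L := by
        calc pin' * L ≤ (1 + η) * p := h9
          _ = ((1 + η) * (pic / φ)) * L := by rw [hp]; ring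
      exact le_of_mul_le_mul_right h12 hL
    linarith

/-! ### parameters -/

private lemma pt_P1_le (x B : ℕ) (hL : 0 ≤ Real.log (x : ℝ)) :
    (P1 x B : ℝ) ≤ Real.log (x : ℝ) ^ B := by
  unfold P1
  exact Nat.floor_le (pow_nonneg hL _)

private lemma pt_P1_ge (x B : ℕ) : Real.log (x : ℝ) ^ B - 1 ≤ (P1 x B : ℝ) := by
  unfold P1
  have := Nat.lt_floor_add_one (Real.log (x : ℝ) ^ B)
  linarith

private lemma pt_P1_mono (x B B' : ℕ) (h : B ≤ B') (hL : 1 ≤ Real.log (x : ℝ)) :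
    P1 x B ≤ P1 x B' := by
  unfold P1
  exact Nat.floor_mono (pow_le_pow_right₀ hL h)

private lemma pt_log2 (m : ℕ) (hm : 1 ≤ m) (T : ℝ) (hT : Real.log (m : ℝ) ≤ 2 * T) (hT0 : 0 ≤ T) :
    (Nat.log 2 m : ℝ) ≤ 3 * T := by
  have h1 : 2 ^ Nat.log 2 m ≤ m := Nat.pow_log_le_self 2 (by omega)
  have h2 : ((2 : ℝ) ^ Nat.log 2 m) ≤ (m : ℝ) := by exact_mod_cast h1
  have h3 := Real.log_le_log (by positivity) h2
  rw [Real.log_pow] at h3
  have h4 := Real.log_two_gt_d9
  have h5 : (0 : ℝ) ≤ (Nat.log 2 m : ℝ) := Nat.cast_nonneg _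
  nlinarith

private lemma pt_err (x L q a P P' R l2 η y xt : ℝ) (Br B B' : ℕ) (hL : 2 ≤ L) (hq : 1 ≤ q)
    (hη : 0 < η) (hx : 0 < x) (ha0 : 0 ≤ a) (hR0 : 0 ≤ R) (hP'0 : 0 ≤ P') (hl0 : 0 ≤ l2)
    (hB : 3 * Br + 4 ≤ B) (hR : R ≤ L ^ Br) (hP' : P' ≤ L ^ B') (hP : L ^ B / 2 ≤ P)
    (hl : l2 ≤ 3 * L) (hy : y ≤ x / q) (hax : a ≤ xt) (hxy : xt * y = x)
    (h8 : L ^ (B' + 3 * Br) ≤ η / 400 * y) (h9 : 4800 / η ≤ L ^ 2)
    (h10 : L ^ (3 * Br + 2) ≤ η / 2400 * y) (h11 : L ^ (B' + 1) ≤ η / 2400 * y) :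
    P' * R ^ 3 + l2 * (x / (q * P) + 1) * (L + R ^ 3) + 3 * P' * (a / q + 1) * L ≤
      η / 100 * (x / q) := by
  have hL0 : 0 < L := by linarith
  have hq0 : 0 < q := by linarith
  have hxq0 : 0 < x / q := div_pos hx hq0
  have hR3 : R ^ 3 ≤ L ^ (3 * Br) := by
    calc R ^ 3 ≤ (L ^ Br) ^ 3 := pow_le_pow_left₀ hR0 hR 3
      _ = L ^ (3 * Br) := by rw [← pow_mul, mul_comm]
  have t1 : P' * R ^ 3 ≤ η / 400 * (x / q) := by
    calc P' * R ^ 3 ≤ L ^ B' * L ^ (3 * Br) :=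
          mul_le_mul hP' hR3 (by positivity) (by positivity)
      _ = L ^ (B' + 3 * Br) := by rw [← pow_add]
      _ ≤ η / 400 * y := h8
      _ ≤ η / 400 * (x / q) := mul_le_mul_of_nonneg_left hy (by positivity)
  have hsum : L + R ^ 3 ≤ 2 * L ^ (3 * Br + 1) := by
    have h1 : L ≤ L ^ (3 * Br + 1) := by
      calc L = L ^ 1 := (pow_one L).symm
        _ ≤ L ^ (3 * Br + 1) := pow_le_pow_right₀ (by linarith) (by omega)
    have h2 : L ^ (3 * Br) ≤ L ^ (3 * Br + 1) := pow_le_pow_right₀ (by linarith) (by omega)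
    linarith
  have hLB : 0 < L ^ B := by positivity
  have hP0 : 0 < P := lt_of_lt_of_le (by positivity) hP
  have hxP : x / (q * P) ≤ x / q * (2 / L ^ B) := by
    have h1 : x / (q * P) = x / q * (1 / P) := by
      field_simp
    rw [h1]
    apply mul_le_mul_of_nonneg_left _ hxq0.le
    rw [div_le_div_iff₀ hP0 hLB]
    linarith
  have t2 : l2 * (x / (q * P) + 1) * (L + R ^ 3) ≤ 2 * (η / 400 * (x / q)) := by
    have hA : l2 * (x / (q * P) + 1) ≤ 3 * L * (x / q * (2 / L ^ B) + 1) := by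
      apply mul_le_mul hl (by linarith) (by positivity) (by positivity)
    have hC : l2 * (x / (q * P) + 1) * (L + R ^ 3) ≤
        3 * L * (x / q * (2 / L ^ B) + 1) * (2 * L ^ (3 * Br + 1)) := by
      apply mul_le_mul hA hsum (by positivity) (by positivity)
    refine hC.trans ?_
    have hD : 3 * L * (x / q * (2 / L ^ B) + 1) * (2 * L ^ (3 * Br + 1)) =
        12 * (x / q) * (L ^ (3 * Br + 2) / L ^ B) + 6 * L ^ (3 * Br + 2) := by
      field_simp
      ring
    rw [hD]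
    have hF : L ^ (3 * Br + 2) / L ^ B ≤ η / 4800 := by
      rw [div_le_iff₀ hLB]
      have h1 : L ^ (3 * Br + 2) * L ^ 2 ≤ L ^ B := by
        rw [← pow_add]
        exact pow_le_pow_right₀ (by linarith) (by omega)
      have h2 : 1 ≤ η / 4800 * L ^ 2 := by
        have h3 := mul_le_mul_of_nonneg_left h9 (show 0 ≤ η / 4800 by positivity)
        have h4 : η / 4800 * (4800 / η) = 1 := by field_simp
        rw [h4] at h3
        exact h3
      have h5 : 0 < L ^ (3 * Br + 2) := by positivity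
      calc L ^ (3 * Br + 2) = L ^ (3 * Br + 2) * 1 := (mul_one _).symm
        _ ≤ L ^ (3 * Br + 2) * (η / 4800 * L ^ 2) := mul_le_mul_of_nonneg_left h2 h5.le
        _ = η / 4800 * (L ^ (3 * Br + 2) * L ^ 2) := by ring
        _ ≤ η / 4800 * L ^ B := mul_le_mul_of_nonneg_left h1 (by positivity)
    have hG : 12 * (x / q) * (L ^ (3 * Br + 2) / L ^ B) ≤ η / 400 * (x / q) := by
      calc 12 * (x / q) * (L ^ (3 * Br + 2) / L ^ B) ≤ 12 * (x / q) * (η / 4800) :=
            mul_le_mul_of_nonneg_left hF (by positivity)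
        _ = η / 400 * (x / q) := by ring
    have hH : 6 * L ^ (3 * Br + 2) ≤ η / 400 * (x / q) := by
      have : η / 2400 * y ≤ η / 2400 * (x / q) := mul_le_mul_of_nonneg_left hy (by positivity)
      linarith
    linarith
  have t3 : 3 * P' * (a / q + 1) * L ≤ 2 * (η / 800 * (x / q)) := by
    have hA : P' * L ≤ L ^ (B' + 1) := by
      rw [pow_succ]
      exact mul_le_mul_of_nonneg_right hP' hL0.le
    have hxt0 : 0 ≤ xt := ha0.trans hax
    have haq : a / q ≤ xt / q := div_le_div_of_nonneg_right hax hq0.le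
    have hB1 : 3 * P' * (a / q + 1) * L = 3 * (P' * L) * (a / q) + 3 * (P' * L) := by ring
    rw [hB1]
    have hP'L : 0 ≤ P' * L := by positivity
    have hC : 3 * (P' * L) * (a / q) ≤ η / 800 * (x / q) := by
      calc 3 * (P' * L) * (a / q) ≤ 3 * (η / 2400 * y) * (xt / q) := by
            apply mul_le_mul _ haq (by positivity)
            · have : 0 ≤ η / 2400 * y := (by positivity : (0 : ℝ) ≤ L ^ (B' + 1)).trans h11
              linarith
            · linarith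
        _ = η / 800 * (xt * y / q) := by ring
        _ = η / 800 * (x / q) := by rw [hxy]
    have hD : 3 * (P' * L) ≤ η / 800 * (x / q) := by
      have : η / 2400 * y ≤ η / 2400 * (x / q) := mul_le_mul_of_nonneg_left hy (by positivity)
      linarith
    linarith
  linarith

/-- lower bound for the number of terms of the progression -/
private lemma pt_K (x a q : ℕ) (y : ℝ) (hq : 1 ≤ q) (hy4 : 4 ≤ y) (hyq : y * q ≤ x)
    (ha : 4 * (a : ℝ) ≤ x) (hax : a ≤ x) : y / 2 ≤ (((x - a) / q : ℕ) : ℝ) := by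
  have hq0 : (0 : ℝ) < q := by exact_mod_cast hq
  have h1 : ((x - a : ℕ) : ℝ) = (x : ℝ) - a := by
    rw [Nat.cast_sub hax]
  have h2 : ((x - a : ℕ) : ℝ) < (((x - a) / q : ℕ) : ℝ) * q + q := by
    have h3 := Nat.lt_div_mul_add (a := x - a) (b := q) (by omega)
    exact_mod_cast h3
  rw [h1] at h2
  set K : ℝ := (((x - a) / q : ℕ) : ℝ) with hK
  have h4 : 3 / 4 * (y * q) < (K + 1) * q := by nlinarith
  have h5 : 3 / 4 * y < K + 1 := by
    have : (3 / 4 * y) * q < (K + 1) * q := by nlinarith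
    exact lt_of_mul_lt_mul_right this hq0.le
  linarith

theorem pt (hpnt : PntProp) (θ η : ℝ) (hθ0 : 0 < θ) (hθ : θ < 1) (hη : 0 < η) (hη1 : η ≤ 1) : ∃ M0 : ℝ,
    ∀ Br B B' : ℕ, 3 * Br + 4 ≤ B → B ≤ B' →
    (∃ x1 : ℕ, ∀ x : ℕ, x1 ≤ x → M0 ≤ Mu (PP (P1 x B) (P2 x B B'))) →
    ∃ x0 : ℕ, ∀ x : ℕ, x0 ≤ x → ∀ a q : ℕ, 1 ≤ a → (a : ℝ) ≤ (x : ℝ) ^ θ → 1 ≤ q →
      (q : ℝ) ≤ (x : ℝ) ^ θ → Nat.Coprime a q →
      η * ((Nat.primeCounting x : ℝ) / (q.totient : ℝ)) < |err x q (a : ZMod q)| →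
      η / 100 * ((x : ℝ) / q) ≤
        |∑ p ∈ PP (P1 x B) (P2 x B B'),
          ∑ n ∈ (Icc 1 x).filter (fun n => n ≡ a [MOD q * p]), hR (P1 x Br) n| ∨
      η / 100 * (1 / (q : ℝ)) ≤
        |1 / (q : ℝ) * gR (P1 x Br) q - 1 / (q.totient : ℝ)| ∨
      η / 100 * ((x : ℝ) / q) ≤ pps x q a := by
  obtain ⟨C, hC, K0, htkl⟩ := tkl
  set ρ : ℝ := 1 - θ with hρ
  have hρ0 : 0 < ρ := by linarith
  set c : ℝ := C * (2 / ρ) with hc
  have hc0 : 0 < c := by positivity
  refine ⟨2 + (100 * c / η) ^ 2, fun Br B B' hB hBB' hM1 => ?_⟩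
  obtain ⟨x1, hx1⟩ := hM1
  obtain ⟨x2, hx2⟩ := pi_asymp hpnt (η / 100) (by positivity)
  set δ : ℝ := η / 20 with hδ
  have hδ0 : 0 < δ := by positivity
  refine Filter.eventually_atTop.1 ?_
  filter_upwards [Filter.eventually_ge_atTop x1, Filter.eventually_ge_atTop x2,
    Filter.eventually_ge_atTop 2, pt_log_ge 4, pt_log_ge (((4 * (B' : ℝ) + 2) ^ 2 + 1) ^ 2),
    pt_rpow_ge ρ 4 hρ0, pt_log_ge (2 * Real.log 2 / ρ), pt_pow_le B' (ρ / 10) (1 / 2) (by positivity) (by norm_num),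
    pt_pow_le 1 (ρ / 10) (1 / 2) (by positivity) (by norm_num), pt_rpow_ge ρ (2 * K0) hρ0,
    pt_pow_le (B' + 3 * Br) ρ (η / 400) hρ0 (by positivity), pt_log_ge (4800 / η),
    pt_pow_le (3 * Br + 2) ρ (η / 2400) hρ0 (by positivity),
    pt_pow_le (B' + 1) ρ (η / 2400) hρ0 (by positivity),
    pt_pow_le 1 δ (η / 200) hδ0 (by positivity), pt_pow_le 1 ρ (η / 200) hρ0 (by positivity)]
    with x e1 e2 e3 e4 e5 e6 e7 e8 e9 e10 e11 e12 e13 e14 e15 e16
  intro a q ha1 hax hq1 hqx hcop herr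
  by_contra hcon
  push Not at hcon
  obtain ⟨hA, hG, hPs⟩ := hcon
  refine absurd herr (not_lt.2 ?_)
  have hx2' : (2 : ℝ) ≤ x := by exact_mod_cast e3
  have hxpos : (0 : ℝ) < x := by linarith
  set L : ℝ := Real.log (x : ℝ) with hL
  have hL0 : 0 < L := by linarith
  rw [pow_one] at e9 e15 e16
  have hq0 : (0 : ℝ) < q := by exact_mod_cast hq1
  have hq1' : (1 : ℝ) ≤ q := by exact_mod_cast hq1
  set y : ℝ := (x : ℝ) ^ ρ with hy
  set xt : ℝ := (x : ℝ) ^ θ with hxt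
  have hxt0 : 0 < xt := Real.rpow_pos_of_pos hxpos _
  have hy0 : 0 < y := Real.rpow_pos_of_pos hxpos _
  have hxy : xt * y = x := by
    rw [hxt, hy, ← Real.rpow_add hxpos, hρ]
    norm_num
  have hyq : y * q ≤ x := by
    calc y * q ≤ y * xt := mul_le_mul_of_nonneg_left hqx hy0.le
      _ = x := by rw [mul_comm]; exact hxy
  have hyxq : y ≤ x / q := by
    rw [le_div_iff₀ hq0]
    exact hyq
  have h4a : 4 * (a : ℝ) ≤ x := by
    calc 4 * (a : ℝ) ≤ y * xt := mul_le_mul e6 hax (Nat.cast_nonneg _) hy0.le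
      _ = x := by rw [mul_comm]; exact hxy
  have haxn : a ≤ x := by
    have : (a : ℝ) ≤ x := by
      have : (0 : ℝ) ≤ a := Nat.cast_nonneg _
      linarith
    exact_mod_cast this
  have hxtx : xt ≤ x := by
    calc xt = xt * 1 := (mul_one _).symm
      _ ≤ xt * y := mul_le_mul_of_nonneg_left (by linarith) hxt0.le
      _ = x := hxy
  -- the number of terms
  set K : ℕ := (x - a) / q with hK
  have hKy : y / 2 ≤ (K : ℝ) := pt_K x a q y hq1 e6 hyq h4a haxn
  have hKq : K * q ≤ x - a := Nat.div_mul_le_self _ _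
  have hKq' : (K : ℝ) * q ≤ x := by
    have : K * q ≤ x := hKq.trans (Nat.sub_le _ _)
    exact_mod_cast this
  have hK0' : (0 : ℝ) < K := by linarith
  have hlogK : ρ * L / 2 ≤ Real.log (K : ℝ) := by
    have h1 : Real.log (y / 2) ≤ Real.log (K : ℝ) := Real.log_le_log (by positivity) hKy
    have h2 : Real.log (y / 2) = ρ * L - Real.log 2 := by
      rw [Real.log_div (by positivity) (by norm_num), hy, Real.log_rpow hxpos]
    rw [div_le_iff₀ hρ0] at e7
    linarith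
  have hlogK0 : 0 < Real.log (K : ℝ) := lt_of_lt_of_le (by positivity) hlogK
  have hK10 : 1 / 2 * (x : ℝ) ^ (ρ / 10) ≤ (K : ℝ) ^ ((1 : ℝ) / 10) := by
    have h1 : (y / 2) ^ ((1 : ℝ) / 10) ≤ (K : ℝ) ^ ((1 : ℝ) / 10) :=
      Real.rpow_le_rpow (by positivity) hKy (by norm_num)
    refine le_trans ?_ h1
    have h3 : (y / 2) ^ ((1 : ℝ) / 10) = (2 : ℝ)⁻¹ ^ ((1 : ℝ) / 10) * (x : ℝ) ^ (ρ / 10) := by
      rw [div_eq_mul_inv, Real.mul_rpow (by positivity) (by positivity), hy,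
        ← Real.rpow_mul hxpos.le, mul_comm]
      congr 2
      ring
    rw [h3]
    apply mul_le_mul_of_nonneg_right _ (by positivity)
    calc (1 / 2 : ℝ) = ((2 : ℝ)⁻¹) ^ (1 : ℝ) := by rw [Real.rpow_one]; norm_num
      _ ≤ ((2 : ℝ)⁻¹) ^ ((1 : ℝ) / 10) :=
          Real.rpow_le_rpow_of_exponent_ge (by norm_num) (by norm_num) (by norm_num)
  have haqK : (a : ℝ) + q * K ≤ x := by
    have h1 : a + q * K ≤ x := by
      have := hKq
      rw [mul_comm] at this
      omega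
    exact_mod_cast h1
  have haqK0 : (0 : ℝ) < (a : ℝ) + q * K := by
    have : (1 : ℝ) ≤ a := by exact_mod_cast ha1
    positivity
  have hlogaq : Real.log ((a : ℝ) + q * K) ≤ L := Real.log_le_log haqK0 haqK
  -- the parameters
  have hL1 : 1 ≤ L := by linarith
  have hP1le : ∀ b : ℕ, (P1 x b : ℝ) ≤ L ^ b := fun b => pt_P1_le x b hL0.le
  have hP1ge : ∀ b : ℕ, L ^ b - 1 ≤ (P1 x b : ℝ) := fun b => pt_P1_ge x b
  have hLB4 : L ^ 4 ≤ L ^ B := pow_le_pow_right₀ hL1 (by omega)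
  have hL4 : 4 * L ≤ L ^ 4 := by
    have : L ^ 4 = L * L ^ 3 := by ring
    have h3 : (4 : ℝ) ≤ L ^ 3 := by
      calc (4 : ℝ) ≤ 4 ^ 3 := by norm_num
        _ ≤ L ^ 3 := pow_le_pow_left₀ (by norm_num) e4 3
    rw [this]
    nlinarith
  have hPbig : 3 * L ≤ (P1 x B : ℝ) := by
    have := hP1ge B
    linarith
  have hP1pos : 1 ≤ P1 x B := by
    have : (1 : ℝ) ≤ (P1 x B : ℝ) := by linarith
    exact_mod_cast this
  have hPP1 : P1 x B ≤ P1 x B' := pt_P1_mono x B B' hBB' hL1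
  have hRP : P1 x Br ≤ P1 x B := pt_P1_mono x Br B (by omega) hL1
  have hP2le : (P2 x B B' : ℝ) ≤ L ^ B' := by
    have := p2_le x B B' hP1pos hPP1
    have h2 : (P2 x B B' : ℝ) ≤ (P1 x B' : ℝ) := by exact_mod_cast this
    exact h2.trans (hP1le B')
  have hP2pos : 1 ≤ P2 x B B' := by
    unfold P2
    exact Nat.one_le_iff_ne_zero.2 (by positivity)
  have hLlog : (2 + B' * Real.log L) ^ 2 ≤ L - 1 := pt_loglog B' L hL1 e5
  set R : ℕ := P1 x Br with hRd
  set P : ℕ := P1 x B with hP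
  set P' : ℕ := P2 x B B' with hP'
  set S : Finset ℕ := PPc P P' (a * q) with hS
  have haq1 : 1 ≤ a * q := Nat.one_le_iff_ne_zero.2 (by positivity)
  have hl2 : (Nat.log 2 (a * q) : ℝ) ≤ 3 * L := by
    apply pt_log2 (a * q) haq1 L _ hL0.le
    push_cast
    have h1 : (a : ℝ) * q ≤ x * x :=
      mul_le_mul (hax.trans hxtx) (hqx.trans hxtx) hq0.le hxpos.le
    have h2 : Real.log ((a : ℝ) * q) ≤ Real.log ((x : ℝ) * x) := by
      apply Real.log_le_log _ h1
      have : (1 : ℝ) ≤ a := by exact_mod_cast ha1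
      positivity
    rw [Real.log_mul hxpos.ne' hxpos.ne'] at h2
    linarith
  have hMlow : 1 + (100 * c / η) ^ 2 ≤ Mu S := by
    have h1 := mu_ppc P P' (a * q) haq1 hP1pos
    have h2 := hx1 x e1
    have h3 : (Nat.log 2 (a * q) : ℝ) / P ≤ 1 := by
      rw [div_le_one (by exact_mod_cast hP1pos)]
      linarith
    linarith
  have hM1 : 1 ≤ Mu S := by
    have : 0 ≤ (100 * c / η) ^ 2 := by positivity
    linarith
  have hMup : Mu S ≤ 1 + B' * Real.log L := by
    have h1 : Mu S ≤ Mu (PP P P') := Mu_mono (filter_subset _ _)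
    have h2 := mu_le P P' hP2pos
    have h3 : Real.log (P' : ℝ) ≤ B' * Real.log L := by
      have h4 : Real.log (P' : ℝ) ≤ Real.log (L ^ B') :=
        Real.log_le_log (by exact_mod_cast hP2pos) hP2le
      rw [Real.log_pow] at h4
      exact h4
    linarith
  have hMP : (Mu S + 1) ^ 2 ≤ (P : ℝ) := by
    have h1 : (Mu S + 1) ^ 2 ≤ (2 + B' * Real.log L) ^ 2 := by
      apply pow_le_pow_left₀ (by linarith)
      linarith
    linarith
  have hT := htkl K (by
      have : (K0 : ℝ) ≤ (K : ℝ) := by linarith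
      exact_mod_cast this) a q P S hq1 hcop (by
      intro p hp
      rw [hS, PPc, PP, mem_filter, mem_filter, mem_Ioc] at hp
      refine ⟨hp.1.2, hp.1.1.1, ?_, hp.2⟩
      have h1 : (p : ℝ) ≤ (P' : ℝ) := by exact_mod_cast hp.1.1.2
      linarith) hM1 hMP (by linarith)
  have hidn := idn x a q P P' R e3 hq1 ha1 haxn hcop hP1pos hRP
  -- totients
  have hφ1 : 1 ≤ q.totient := Nat.totient_pos.2 hq1
  have hφ1' : (1 : ℝ) ≤ (q.totient : ℝ) := by exact_mod_cast hφ1
  have hφq : (q.totient : ℝ) ≤ q := by exact_mod_cast Nat.totient_le q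
  have hφ0 : (0 : ℝ) < (q.totient : ℝ) := by linarith
  have hT2 : ∑ k ∈ Icc 1 K, |(Om S k : ℝ) - Mu S| * Lam (a + q * k) ≤
      Real.sqrt (Mu S) * c * ((x : ℝ) / q.totient) := by
    refine hT.trans ?_
    have h1 : Real.log ((a : ℝ) + q * K) / Real.log K ≤ 2 / ρ := by
      rw [div_le_div_iff₀ hlogK0 hρ0]
      calc Real.log ((a : ℝ) + q * K) * ρ ≤ L * ρ := mul_le_mul_of_nonneg_right hlogaq hρ0.le
        _ = 2 * (ρ * L / 2) := by ring
        _ ≤ 2 * Real.log K := by linarith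
    have h2 : (K : ℝ) * ((q : ℝ) / q.totient) ≤ (x : ℝ) / q.totient := by
      rw [← mul_div_assoc]
      exact div_le_div_of_nonneg_right hKq' hφ0.le
    have hs0 : 0 ≤ Real.sqrt (Mu S) := Real.sqrt_nonneg _
    calc C * Real.sqrt (Mu S) * (Real.log ((a : ℝ) + q * K) / Real.log K)
          * (K * ((q : ℝ) / q.totient))
        ≤ C * Real.sqrt (Mu S) * (2 / ρ) * ((x : ℝ) / q.totient) := by
          apply mul_le_mul _ h2 (by positivity) (by positivity)
          exact mul_le_mul_of_nonneg_left h1 (by positivity)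
      _ = Real.sqrt (Mu S) * c * ((x : ℝ) / q.totient) := by
          rw [hc]
          ring
  have hPhalf : L ^ B / 2 ≤ (P : ℝ) := by
    have := hP1ge B
    linarith
  have hE := pt_err x L q a P P' R (Nat.log 2 (a * q)) η y xt Br B B' (by linarith) hq1' hη hxpos
    (Nat.cast_nonneg _) (Nat.cast_nonneg _) (Nat.cast_nonneg _) (Nat.cast_nonneg _) hB (hP1le Br)
    hP2le hPhalf hl2 hyxq hax hxy e11 (by
      have h1 : L ≤ L ^ 2 := by nlinarith
      linarith) e13 e14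
  -- the prime counts
  have hpin := pin_eq x q a
  have hup := pin_le x q a δ e3 hq1 hδ0 (by linarith)
  have hlow := psi_le x q a hq1
  have hW : ((x : ℝ) ^ (1 - δ) / q + 1) * L ≤ η / 100 * ((x : ℝ) / q) := by
    have h1 : (x : ℝ) ^ (1 - δ) * L ≤ η / 200 * x := by
      have h2 : (x : ℝ) ^ (1 - δ) * (x : ℝ) ^ δ = x := by
        rw [← Real.rpow_add hxpos]
        norm_num
      have h3 : 0 ≤ (x : ℝ) ^ (1 - δ) := Real.rpow_nonneg hxpos.le _
      calc (x : ℝ) ^ (1 - δ) * L ≤ (x : ℝ) ^ (1 - δ) * (η / 200 * (x : ℝ) ^ δ) :=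
            mul_le_mul_of_nonneg_left e15 h3
        _ = η / 200 * ((x : ℝ) ^ (1 - δ) * (x : ℝ) ^ δ) := by ring
        _ = η / 200 * x := by rw [h2]
    have h4 : (x : ℝ) ^ (1 - δ) / q * L ≤ η / 200 * ((x : ℝ) / q) := by
      calc (x : ℝ) ^ (1 - δ) / q * L = ((x : ℝ) ^ (1 - δ) * L) / q := by ring
        _ ≤ (η / 200 * x) / q := div_le_div_of_nonneg_right h1 hq0.le
        _ = η / 200 * ((x : ℝ) / q) := by ring
    have h5 : L ≤ η / 200 * ((x : ℝ) / q) :=
      e16.trans (mul_le_mul_of_nonneg_left hyxq (by positivity))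
    linarith
  have hpi := hx2 x e2
  have hcM : c ≤ η / 100 * Real.sqrt (Mu S) := by
    have h1 : 100 * c / η ≤ Real.sqrt (Mu S) := by
      apply Real.le_sqrt_of_sq_le
      linarith
    rw [div_le_iff₀ hη] at h1
    linarith
  have hfin := pt_comb x L q q.totient (psiA x q a) (gR R q) (Mu S)
    (∑ k ∈ Icc 1 K, |(Om S k : ℝ) - Mu S| * Lam (a + q * k))
    ((P' : ℝ) * (R : ℝ) ^ 3
        + (Nat.log 2 (a * q) : ℝ) * ((x : ℝ) / (q * P) + 1) * (L + (R : ℝ) ^ 3)
        + 3 * P' * ((a : ℝ) / q + 1) * L)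
    (|∑ p ∈ PP P P', ∑ n ∈ (Icc 1 x).filter (fun n => n ≡ a [MOD q * p]), hR R n|)
    (Nat.primeCounting x) (pin x q a) (pps x q a) η δ (((x : ℝ) ^ (1 - δ) / q + 1) * L) c
    hxpos hL0 hφ1' hφq hη hη1 hδ0 (le_of_eq hδ) hM1 hcM hidn hA.le hT2 hE hG.le hPs.le hup hW
    hlow hpi
  have h9 : err x q (a : ZMod q) = (pin x q a : ℝ) - (Nat.primeCounting x : ℝ) / (q.totient : ℝ) := by
    linarith
  rw [h9]
  exact hfin

end Pool.Agent.H87.WL
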