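import Pool.Agent.H87.WL.Sel2
import Pool.Agent.H87.WL.Sel3
import Pool.Agent.H87.WL.Sel4

/-!
# WL TK: the weighted Turan-Kubilius inequality

`(Om - Mu)² = ∑_{p,p'} [p | k][p' | k] - 2 Mu ∑_p [p | k] + Mu²`, hence
`∑_k (Om S k - Mu S)² Ψ(a+qk)² = ∑_{p ≠ p'} T(p p') + (1 - 2 Mu) ∑_p T(p) + Mu² T(1)`
(`p | k` and `p' | k` iff `p p' | k`). `td_qf`, `qf_eq`: `T(d) = (K/d) Sd D q d + O(2 D^4)` (`(a, q d) = 1`,
`(d,q) = 1` because `p ∤ a q`). Upper bounds (`sd_le_two`, `sd_le_prime`) for the first sum and `∑_p T(p)`,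
lower bound `sd_ge` in `-2 Mu ∑_p T(p)`. `p ≥ P + 1` gives `p/(p-1) ≤ 1 + 1/P` and, `P ≥ 1`,
`(1+1/P)^4 ≤ 1 + 15/P`. The coefficient of `K G` is at most
`Mu² (1+15/P) + Mu (1+15/P) - 2 Mu² + 2 Mu ∑ 1/p² + Mu² ≤ 15 Mu²/P + 16 Mu + 2 Mu²/P
≤ 17 + 16 Mu ≤ 40 (Mu + 1)` because `(Mu+1)² ≤ P`, `P ≥ 1` and `∑ 1/p² ≤ Mu/P`
(`∑_{p ≠ p'} 1/(pp') ≤ Mu²`). The error terms are at most
`2 D^4 (|S|² + (1 + 2 Mu)|S| + Mu²) ≤ 40 D^4 (1 + |S|)²`, since `Mu ≤ |S|`.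
-/

set_option autoImplicit false

namespace Pool.Agent.H87.WL

open Finset
open Pool.Agent.H91.EHA (Lam lamR hR ramS psiA err)

private lemma tk_Gs_nonneg (D q : ℕ) : 0 ≤ Gs D q := by
  unfold Gs
  exact sum_nonneg fun h _ => by positivity

private lemma tk_ratio (p P : ℕ) (hP : 1 ≤ P) (hp : P < p) :
    (p : ℝ) / (p - 1) ≤ 1 + 1 / (P : ℝ) ∧ 0 ≤ (p : ℝ) / (p - 1) := by
  have hP' : (1 : ℝ) ≤ P := by exact_mod_cast hP
  have hp' : (P : ℝ) + 1 ≤ p := by exact_mod_cast hp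
  have h1 : (0 : ℝ) < (p : ℝ) - 1 := by linarith
  constructor
  · rw [div_le_iff₀ h1]
    have h2 : 1 ≤ ((p : ℝ) - 1) / P := by
      rw [le_div_iff₀ (by linarith)]
      linarith
    have h3 : (1 + 1 / (P : ℝ)) * ((p : ℝ) - 1) = (p : ℝ) - 1 + ((p : ℝ) - 1) / P := by ring
    rw [h3]
    linarith
  · exact div_nonneg (by linarith) h1.le

/-- bounds for one prime -/
private lemma tk_one_prime (D q a K P p : ℕ) (hq : 1 ≤ q) (haq : Nat.Coprime a q) (hP : 1 ≤ P)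
    (hp : p.Prime) (hPp : P < p) (hd : ¬ p ∣ a * q) :
    Td D q a p K ≤ (K : ℝ) * Gs D q / p * (1 + 3 / P) + 2 * (D : ℝ) ^ 4 ∧
      (K : ℝ) * Gs D q / p * (1 - 1 / P) - 2 * (D : ℝ) ^ 4 ≤ Td D q a p K := by
  have hpa : ¬ p ∣ a := fun h => hd (h.mul_right q)
  have hpq : ¬ p ∣ q := fun h => hd (h.mul_left a)
  have hcop : Nat.Coprime a (q * p) :=
    Nat.Coprime.mul_right haq (((Nat.Prime.coprime_iff_not_dvd hp).2 hpa).symm)
  have h1 := td_qf D q a p K hq hp.one_lt.le hcop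
  rw [qf_eq D q p hq hp.one_lt.le ((Nat.Prime.coprime_iff_not_dvd hp).2 hpq)] at h1
  obtain ⟨h2, h3⟩ := abs_le.1 h1
  have hG := tk_Gs_nonneg D q
  have hP' : (1 : ℝ) ≤ P := by exact_mod_cast hP
  have hPp' : (P : ℝ) + 1 ≤ p := by exact_mod_cast hPp
  have hp0 : (0 : ℝ) < p := by linarith
  have hKp : 0 ≤ (K : ℝ) / p := by positivity
  obtain ⟨r1, r2⟩ := tk_ratio p P hP hPp
  have hu1 : 1 / (P : ℝ) ≤ 1 := by
    rw [div_le_one (by linarith)]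
    exact hP'
  have hu0 : 0 < 1 / (P : ℝ) := by positivity
  constructor
  · have h4 : ((p : ℝ) / (p - 1)) ^ 2 ≤ 1 + 3 * (1 / (P : ℝ)) := by
      have h5 : ((p : ℝ) / (p - 1)) ^ 2 ≤ (1 + 1 / (P : ℝ)) ^ 2 := pow_le_pow_left₀ r2 r1 2
      nlinarith
    have h6 : Sd D q p ≤ (1 + 3 * (1 / (P : ℝ))) * Gs D q :=
      (sd_le_prime D q p hp).trans (mul_le_mul_of_nonneg_right h4 hG)
    have h7 := mul_le_mul_of_nonneg_left h6 hKp
    have h8 : (K : ℝ) / p * ((1 + 3 * (1 / (P : ℝ))) * Gs D q) =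
        (K : ℝ) * Gs D q / p * (1 + 3 / P) := by ring
    rw [h8] at h7
    linarith
  · have h4 : (1 - 1 / (P : ℝ)) * Gs D q ≤ Sd D q p := by
      refine le_trans (mul_le_mul_of_nonneg_right ?_ hG) (sd_ge D q p hp hpq)
      have h5 : 1 / (p : ℝ) ≤ 1 / (P : ℝ) := one_div_le_one_div_of_le (by linarith) (by linarith)
      linarith
    have h7 := mul_le_mul_of_nonneg_left h4 hKp
    have h8 : (K : ℝ) / p * ((1 - 1 / (P : ℝ)) * Gs D q) =
        (K : ℝ) * Gs D q / p * (1 - 1 / P) := by ring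
    rw [h8] at h7
    linarith

/-- bound for two primes -/
private lemma tk_two_primes (D q a K P p p' : ℕ) (hq : 1 ≤ q) (haq : Nat.Coprime a q) (hP : 1 ≤ P)
    (hp : p.Prime) (hPp : P < p) (hd : ¬ p ∣ a * q) (hp' : p'.Prime) (hPp' : P < p')
    (hd' : ¬ p' ∣ a * q) (hne : p ≠ p') :
    Td D q a (p * p') K ≤
      (K : ℝ) * Gs D q * (1 + 15 / P) * (1 / (p : ℝ) * (1 / (p' : ℝ))) + 2 * (D : ℝ) ^ 4 := by
  have hpa : ¬ p ∣ a := fun h => hd (h.mul_right q)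
  have hpq : ¬ p ∣ q := fun h => hd (h.mul_left a)
  have hpa' : ¬ p' ∣ a := fun h => hd' (h.mul_right q)
  have hpq' : ¬ p' ∣ q := fun h => hd' (h.mul_left a)
  have hcop : Nat.Coprime a (q * (p * p')) :=
    Nat.Coprime.mul_right haq (Nat.Coprime.mul_right
      (((Nat.Prime.coprime_iff_not_dvd hp).2 hpa).symm)
      (((Nat.Prime.coprime_iff_not_dvd hp').2 hpa').symm))
  have hcop2 : Nat.Coprime (p * p') q :=
    Nat.Coprime.mul_left ((Nat.Prime.coprime_iff_not_dvd hp).2 hpq)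
      ((Nat.Prime.coprime_iff_not_dvd hp').2 hpq')
  have hd1 : 1 ≤ p * p' := Nat.mul_pos hp.pos hp'.pos
  have h1 := td_qf D q a (p * p') K hq hd1 hcop
  rw [qf_eq D q (p * p') hq hd1 hcop2] at h1
  obtain ⟨h2, h3⟩ := abs_le.1 h1
  have hG := tk_Gs_nonneg D q
  have hP' : (1 : ℝ) ≤ P := by exact_mod_cast hP
  obtain ⟨r1, r2⟩ := tk_ratio p P hP hPp
  obtain ⟨r3, r4⟩ := tk_ratio p' P hP hPp'
  have hu1 : 1 / (P : ℝ) ≤ 1 := by
    rw [div_le_one (by linarith)]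
    exact hP'
  have hu0 : 0 < 1 / (P : ℝ) := by positivity
  set u := 1 / (P : ℝ) with hu
  have h4 : ((p : ℝ) / (p - 1)) ^ 2 * ((p' : ℝ) / (p' - 1)) ^ 2 ≤ 1 + 15 * u := by
    have h5 : ((p : ℝ) / (p - 1)) ^ 2 ≤ (1 + u) ^ 2 := pow_le_pow_left₀ r2 r1 2
    have h6 : ((p' : ℝ) / (p' - 1)) ^ 2 ≤ (1 + u) ^ 2 := pow_le_pow_left₀ r4 r3 2
    have h7 := mul_le_mul h5 h6 (by positivity) (by positivity)
    have h8 : u ^ 2 ≤ u := by nlinarith
    have h9 : u ^ 3 ≤ u := by nlinarith [mul_nonneg hu0.le (sub_nonneg.2 hu1)]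
    have h10 : u ^ 4 ≤ u := by nlinarith [mul_nonneg hu0.le (sub_nonneg.2 hu1)]
    nlinarith
  have h6 : Sd D q (p * p') ≤ (1 + 15 * u) * Gs D q :=
    (sd_le_two D q p p' hp hp' hne).trans (mul_le_mul_of_nonneg_right h4 hG)
  have hKp : 0 ≤ (K : ℝ) / ((p * p' : ℕ) : ℝ) := by positivity
  have h7 := mul_le_mul_of_nonneg_left h6 hKp
  have h8 : (K : ℝ) / ((p * p' : ℕ) : ℝ) * ((1 + 15 * u) * Gs D q) =
      (K : ℝ) * Gs D q * (1 + 15 / P) * (1 / (p : ℝ) * (1 / (p' : ℝ))) := by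
    rw [hu]
    push_cast
    rw [div_eq_mul_inv, mul_inv]
    ring
  rw [h8] at h7
  linarith

private lemma tk_Td (D q a K d : ℕ) :
    Td D q a d K = ∑ k ∈ Icc 1 K, (if d ∣ k then Ps D q (a + q * k) ^ 2 else 0) := by
  unfold Td
  rw [sum_filter]

private lemma tk_expand (S : Finset ℕ) (M : ℝ) (w : ℕ → ℝ) (K : ℕ) :
    ∑ k ∈ Icc 1 K, ((Om S k : ℝ) - M) ^ 2 * w k =
      (∑ p ∈ S, ∑ p' ∈ S, ∑ k ∈ Icc 1 K, (if p ∣ k ∧ p' ∣ k then w k else 0)) -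
        2 * M * (∑ p ∈ S, ∑ k ∈ Icc 1 K, (if p ∣ k then w k else 0)) + M ^ 2 * ∑ k ∈ Icc 1 K, w k := by
  have h1 : ∑ p ∈ S, ∑ p' ∈ S, ∑ k ∈ Icc 1 K, (if p ∣ k ∧ p' ∣ k then w k else 0) =
      ∑ k ∈ Icc 1 K, (Om S k : ℝ) ^ 2 * w k := by
    have h2 : ∀ p ∈ S, ∑ p' ∈ S, ∑ k ∈ Icc 1 K, (if p ∣ k ∧ p' ∣ k then w k else 0) =
        ∑ k ∈ Icc 1 K, ∑ p' ∈ S, (if p ∣ k ∧ p' ∣ k then w k else 0) := fun p _ => sum_comm
    rw [sum_congr rfl h2, sum_comm]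
    refine sum_congr rfl fun k _ => ?_
    have h3 : (Om S k : ℝ) = ∑ p ∈ S, (if p ∣ k then (1 : ℝ) else 0) := by
      unfold Om
      rw [card_filter]
      push_cast
      rfl
    rw [h3, sq, sum_mul_sum, sum_mul]
    refine sum_congr rfl fun p _ => ?_
    rw [sum_mul]
    refine sum_congr rfl fun p' _ => ?_
    by_cases h4 : p ∣ k <;> by_cases h5 : p' ∣ k <;> simp [h4, h5]
  have h6 : ∑ p ∈ S, ∑ k ∈ Icc 1 K, (if p ∣ k then w k else 0) =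
      ∑ k ∈ Icc 1 K, (Om S k : ℝ) * w k := by
    rw [sum_comm]
    refine sum_congr rfl fun k _ => ?_
    unfold Om
    rw [card_filter]
    push_cast
    rw [sum_mul]
    refine sum_congr rfl fun p _ => ?_
    split_ifs <;> simp
  rw [h1, h6, mul_sum, mul_sum, ← sum_sub_distrib, ← sum_add_distrib]
  refine sum_congr rfl fun k _ => ?_
  ring

private theorem tk_one_weighted_aux (D q a K : ℕ) (hq : 1 ≤ q) (haq : Nat.Coprime a q) :
    ∑ k ∈ Icc 1 K, Ps D q (a + q * k) ^ 2 ≤ K * Gs D q + 2 * (D : ℝ) ^ 4 := by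
  have h1 := td_qf D q a 1 K hq le_rfl (by rw [mul_one]; exact haq)
  rw [qf_eq D q 1 hq le_rfl (Nat.coprime_one_left q), sd_one] at h1
  have h2 : Td D q a 1 K = ∑ k ∈ Icc 1 K, Ps D q (a + q * k) ^ 2 := by
    rw [tk_Td]
    refine sum_congr rfl fun k _ => ?_
    rw [if_pos (one_dvd k)]
  rw [h2] at h1
  have h3 := (abs_le.1 h1).2
  rw [Nat.cast_one, div_one] at h3
  linarith

theorem tk_weighted (D q a K P : ℕ) (S : Finset ℕ) (hq : 1 ≤ q) (haq : Nat.Coprime a q)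
    (hS : ∀ p ∈ S, p.Prime ∧ P < p ∧ ¬ p ∣ a * q) (hP : (Mu S + 1) ^ 2 ≤ P) :
    ∑ k ∈ Icc 1 K, ((Om S k : ℝ) - Mu S) ^ 2 * Ps D q (a + q * k) ^ 2 ≤
      40 * (Mu S + 1) * K * Gs D q + 40 * (D : ℝ) ^ 4 * (1 + (S.card : ℝ)) ^ 2 := by
  have hM := Mu_nonneg S
  have hG := tk_Gs_nonneg D q
  have hP1 : 1 ≤ P := by
    have : (1 : ℝ) ≤ P := by nlinarith
    exact_mod_cast this
  have hP' : (1 : ℝ) ≤ P := by exact_mod_cast hP1
  have hP0 : (0 : ℝ) < P := by linarith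
  set M := Mu S with hMdef
  set A : ℝ := (K : ℝ) * Gs D q with hA
  set E : ℝ := 2 * (D : ℝ) ^ 4 with hE
  set s : ℝ := (S.card : ℝ) with hs
  have hA0 : 0 ≤ A := by positivity
  have hE0 : 0 ≤ E := by positivity
  have hs0 : 0 ≤ s := by positivity
  have hMs : M ≤ s := by
    rw [hMdef, hs]
    unfold Mu
    calc ∑ p ∈ S, 1 / (p : ℝ) ≤ ∑ _p ∈ S, (1 : ℝ) := by
          refine sum_le_sum fun p hp => ?_
          have h1 := (hS p hp).1.one_lt.le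
          have h2 : (1 : ℝ) ≤ p := by exact_mod_cast h1
          rw [div_le_one (by linarith)]
          exact h2
      _ = (S.card : ℝ) := by rw [sum_const, nsmul_eq_mul, mul_one]
  rw [tk_expand S M (fun k => Ps D q (a + q * k) ^ 2) K]
  -- second moment
  have hB2 : (∑ p ∈ S, ∑ p' ∈ S, ∑ k ∈ Icc 1 K,
      (if p ∣ k ∧ p' ∣ k then Ps D q (a + q * k) ^ 2 else 0)) ≤
      A * (1 + 15 / P) * M ^ 2 + s ^ 2 * E + (A * (1 + 3 / P) * M + s * E) := by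
    have hterm : ∀ p ∈ S, ∀ p' ∈ S, ∑ k ∈ Icc 1 K,
        (if p ∣ k ∧ p' ∣ k then Ps D q (a + q * k) ^ 2 else 0) ≤
        (A * (1 + 15 / P) * (1 / (p : ℝ) * (1 / (p' : ℝ))) + E) +
          (if p = p' then A * (1 + 3 / P) * (1 / (p : ℝ)) + E else 0) := by
      intro p hp p' hp'
      obtain ⟨a1, a2, a3⟩ := hS p hp
      obtain ⟨b1, b2, b3⟩ := hS p' hp'
      by_cases hpp : p = p'
      · subst hpp
        rw [if_pos rfl]
        have h1 : ∑ k ∈ Icc 1 K, (if p ∣ k ∧ p ∣ k then Ps D q (a + q * k) ^ 2 else 0) =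
            Td D q a p K := by
          rw [tk_Td]
          refine sum_congr rfl fun k _ => ?_
          simp only [and_self]
        rw [h1]
        have h2 := (tk_one_prime D q a K P p hq haq hP1 a1 a2 a3).1
        have h3 : (K : ℝ) * Gs D q / p * (1 + 3 / P) = A * (1 + 3 / P) * (1 / (p : ℝ)) := by
          rw [hA]; ring
        rw [h3] at h2
        have h4 : 0 ≤ A * (1 + 15 / P) * (1 / (p : ℝ) * (1 / (p : ℝ))) := by positivity
        linarith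
      · rw [if_neg hpp]
        have h1 : ∑ k ∈ Icc 1 K, (if p ∣ k ∧ p' ∣ k then Ps D q (a + q * k) ^ 2 else 0) =
            Td D q a (p * p') K := by
          rw [tk_Td]
          refine sum_congr rfl fun k _ => ?_
          have hcop : Nat.Coprime p p' := (Nat.coprime_primes a1 b1).2 hpp
          have h5 : (p ∣ k ∧ p' ∣ k) ↔ p * p' ∣ k :=
            ⟨fun h => hcop.mul_dvd_of_dvd_of_dvd h.1 h.2,
              fun h => ⟨(Dvd.intro _ rfl).trans h, (Dvd.intro_left _ rfl).trans h⟩⟩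
          simp only [h5]
        rw [h1, add_zero]
        exact tk_two_primes D q a K P p p' hq haq hP1 a1 a2 a3 b1 b2 b3 hpp
    calc (∑ p ∈ S, ∑ p' ∈ S, ∑ k ∈ Icc 1 K,
          (if p ∣ k ∧ p' ∣ k then Ps D q (a + q * k) ^ 2 else 0))
        ≤ ∑ p ∈ S, ∑ p' ∈ S, ((A * (1 + 15 / P) * (1 / (p : ℝ) * (1 / (p' : ℝ))) + E) +
          (if p = p' then A * (1 + 3 / P) * (1 / (p : ℝ)) + E else 0)) :=
          sum_le_sum fun p hp => sum_le_sum fun p' hp' => hterm p hp p' hp'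
      _ = ∑ p ∈ S, (A * (1 + 15 / P) * (1 / (p : ℝ) * M) + s * E +
          (A * (1 + 3 / P) * (1 / (p : ℝ)) + E)) := by
          refine sum_congr rfl fun p hp => ?_
          rw [sum_add_distrib, sum_add_distrib, ← mul_sum, ← mul_sum, sum_const, nsmul_eq_mul,
            sum_ite_eq, if_pos hp]
          rfl
      _ = A * (1 + 15 / P) * M ^ 2 + s ^ 2 * E + (A * (1 + 3 / P) * M + s * E) := by
          have h1 : ∑ p ∈ S, 1 / (p : ℝ) = M := rfl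
          have h2 : ∑ p ∈ S, A * (1 + 15 / P) * (1 / (p : ℝ) * M) = A * (1 + 15 / P) * M ^ 2 := by
            rw [← mul_sum, ← sum_mul, h1]
            ring
          have h3 : ∑ _p ∈ S, s * E = s ^ 2 * E := by
            rw [sum_const, nsmul_eq_mul, ← hs]
            ring
          have h4 : ∑ p ∈ S, A * (1 + 3 / P) * (1 / (p : ℝ)) = A * (1 + 3 / P) * M := by
            rw [← mul_sum, h1]
          have h5 : ∑ _p ∈ S, E = s * E := by
            rw [sum_const, nsmul_eq_mul]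
          rw [sum_add_distrib, sum_add_distrib, sum_add_distrib, h2, h3, h4, h5]
  -- first moment
  have hB1 : A * (1 - 1 / P) * M - s * E ≤
      ∑ p ∈ S, ∑ k ∈ Icc 1 K, (if p ∣ k then Ps D q (a + q * k) ^ 2 else 0) := by
    calc A * (1 - 1 / P) * M - s * E = ∑ p ∈ S, (A * (1 - 1 / P) * (1 / (p : ℝ)) - E) := by
          rw [sum_sub_distrib, ← mul_sum, sum_const, nsmul_eq_mul]
          rfl
      _ ≤ ∑ p ∈ S, ∑ k ∈ Icc 1 K, (if p ∣ k then Ps D q (a + q * k) ^ 2 else 0) := by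
          refine sum_le_sum fun p hp => ?_
          obtain ⟨a1, a2, a3⟩ := hS p hp
          have h2 := (tk_one_prime D q a K P p hq haq hP1 a1 a2 a3).2
          have h3 : (K : ℝ) * Gs D q / p * (1 - 1 / P) = A * (1 - 1 / P) * (1 / (p : ℝ)) := by
            rw [hA]; ring
          rw [h3, tk_Td] at h2
          exact h2
  have hB0 : ∑ k ∈ Icc 1 K, Ps D q (a + q * k) ^ 2 ≤ A + E := tk_one_weighted_aux D q a K hq haq
  -- conclusion
  have hu1 : 1 / (P : ℝ) ≤ 1 := by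
    rw [div_le_one hP0]
    exact hP'
  have hu0 : 0 < 1 / (P : ℝ) := by positivity
  have huM : 1 / (P : ℝ) * M ^ 2 ≤ 1 := by
    rw [one_div, inv_mul_le_iff₀ hP0]
    nlinarith
  have e1 : 2 * M * (A * (1 - 1 / P) * M - s * E) ≤
      2 * M * (∑ p ∈ S, ∑ k ∈ Icc 1 K, (if p ∣ k then Ps D q (a + q * k) ^ 2 else 0)) :=
    mul_le_mul_of_nonneg_left hB1 (by positivity)
  have e2 : M ^ 2 * ∑ k ∈ Icc 1 K, Ps D q (a + q * k) ^ 2 ≤ M ^ 2 * (A + E) :=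
    mul_le_mul_of_nonneg_left hB0 (by positivity)
  have e3 : A * (17 * (1 / (P : ℝ) * M ^ 2) + (1 + 3 * (1 / (P : ℝ))) * M) ≤
      A * (40 * (M + 1)) := by
    apply mul_le_mul_of_nonneg_left _ hA0
    have h1 : (1 / (P : ℝ)) * M ≤ 1 * M := mul_le_mul_of_nonneg_right hu1 hM
    nlinarith
  have e4 : E * (s ^ 2 + s + 2 * M * s + M ^ 2) ≤ E * (20 * (1 + s) ^ 2) := by
    apply mul_le_mul_of_nonneg_left _ hE0
    have h1 : M * s ≤ s * s := mul_le_mul_of_nonneg_right hMs hs0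
    have h2 : M ^ 2 ≤ s ^ 2 := pow_le_pow_left₀ hM hMs 2
    nlinarith
  have e5 : A * (1 + 15 / P) * M ^ 2 + s ^ 2 * E + (A * (1 + 3 / P) * M + s * E) -
      2 * M * (A * (1 - 1 / P) * M - s * E) + M ^ 2 * (A + E) =
      A * (17 * (1 / (P : ℝ) * M ^ 2) + (1 + 3 * (1 / (P : ℝ))) * M) +
        E * (s ^ 2 + s + 2 * M * s + M ^ 2) := by
    ring
  calc (∑ p ∈ S, ∑ p' ∈ S, ∑ k ∈ Icc 1 K,
        (if p ∣ k ∧ p' ∣ k then Ps D q (a + q * k) ^ 2 else 0)) -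
        2 * M * (∑ p ∈ S, ∑ k ∈ Icc 1 K, (if p ∣ k then Ps D q (a + q * k) ^ 2 else 0)) +
        M ^ 2 * ∑ k ∈ Icc 1 K, Ps D q (a + q * k) ^ 2
      ≤ A * (1 + 15 / P) * M ^ 2 + s ^ 2 * E + (A * (1 + 3 / P) * M + s * E) -
        2 * M * (A * (1 - 1 / P) * M - s * E) + M ^ 2 * (A + E) := by linarith
    _ = A * (17 * (1 / (P : ℝ) * M ^ 2) + (1 + 3 * (1 / (P : ℝ))) * M) +
        E * (s ^ 2 + s + 2 * M * s + M ^ 2) := e5
    _ ≤ A * (40 * (M + 1)) + E * (20 * (1 + s) ^ 2) := add_le_add e3 e4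
    _ = 40 * (M + 1) * K * Gs D q + 40 * (D : ℝ) ^ 4 * (1 + s) ^ 2 := by
        rw [hA, hE]
        ring

theorem one_weighted (D q a K : ℕ) (hq : 1 ≤ q) (haq : Nat.Coprime a q) :
    ∑ k ∈ Icc 1 K, Ps D q (a + q * k) ^ 2 ≤ K * Gs D q + 2 * (D : ℝ) ^ 4 :=
  tk_one_weighted_aux D q a K hq haq

end Pool.Agent.H87.WL
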