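import Pool.Agent.H87.WL.TK
import Pool.Agent.H87.WL.Gl

/-!
# WL TKL: the pointwise Turan-Kubilius inequality for prime powers in a progression

`D = ⌊K^{1/10}⌋`, `X = log (a + q K)` (`≥ log K`), `μ = Mu S ≥ 1`, `G = Gs D q ≥ 1`.
(1) `n = a + q k` with `Λ(n) ≠ 0` and `n.minFac ≤ D`: `n = p^j` with `p ≤ D`, `j ≤ 2 X`; at most `2 D X`
such `n` (different `k` give different `n`), each contributes at most `|S| X`
(`0 ≤ Om S k ≤ |S|`, `0 ≤ Mu S ≤ |S|`, `|S| ≤ K^{1/10}`, `Λ(n) ≤ log n ≤ X`): at most `2 K^{0.4}`.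
(2) the other `k`: `Λ(n) ≤ X` and `1 = Ψ(n)²/G²` by `ps_pp`, so with
`|Om - μ| ≤ (√μ + (Om - μ)²/√μ)/2` the sum is at most
`X/(2 G²) (√μ (K G + 2 D^4) + (40 (μ+1) K G + 40 D^4 (1+|S|)²)/√μ)`; `(μ+1)/√μ ≤ 2 √μ`,
`1/G ≤ q/(φ(q) log (D+1)) ≤ 10 q/(φ(q) log K)`, and the terms with `D^4` are `≤ 200 X K^{0.6} ≤ 200 K^{0.7}`.
Everything is `≤ C √μ (X/log K) K q/φ(q)` for `K ≥ K0` (the right side is at least `C K`).
-/

set_option autoImplicit false

namespace Pool.Agent.H87.WL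

open Finset
open Pool.Agent.H91.EHA (Lam lamR hR ramS psiA err)

private lemma tkl_count (a q K D : ℕ) (X : ℝ) (hq : 1 ≤ q) (hX0 : 0 ≤ X)
    (hX : ∀ k ∈ Icc 1 K, Real.log ((a + q * k : ℕ) : ℝ) ≤ X) :
    (((Icc 1 K).filter (fun k => Lam (a + q * k) ≠ 0 ∧ (a + q * k).minFac ≤ D)).card : ℝ) ≤
      D * (2 * X) := by
  set A := (Icc 1 K).filter (fun k => Lam (a + q * k) ≠ 0 ∧ (a + q * k).minFac ≤ D) with hA
  have hpp : ∀ k ∈ A, IsPrimePow (a + q * k) := by
    intro k hk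
    rw [hA, mem_filter] at hk
    exact ArithmeticFunction.vonMangoldt_ne_zero_iff.1 hk.2.1
  have h1 : A.card ≤ (Icc 1 D ×ˢ Icc 1 ⌊2 * X⌋₊).card := by
    apply card_le_card_of_injOn
      (fun k => ((a + q * k).minFac, (a + q * k).factorization (a + q * k).minFac))
    · intro k hk
      have hk' : k ∈ A := hk
      have h2 := hpp k hk'
      have h3 := h2.minFac_pow_factorization_eq
      rw [hA, mem_filter] at hk'
      have hn0 : a + q * k ≠ 0 := h2.ne_zero
      have hprime : (a + q * k).minFac.Prime := Nat.minFac_prime h2.ne_one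
      rw [mem_coe, mem_product, mem_Icc, mem_Icc]
      refine ⟨⟨hprime.one_le, hk'.2.2⟩, ?_, ?_⟩
      · show 1 ≤ (a + q * k).factorization (a + q * k).minFac
        exact hprime.factorization_pos_of_dvd hn0 (Nat.minFac_dvd _)
      · show (a + q * k).factorization (a + q * k).minFac ≤ ⌊2 * X⌋₊
        apply Nat.le_floor
        set j := (a + q * k).factorization (a + q * k).minFac with hj
        have h4 : 2 ^ j ≤ a + q * k := by
          calc 2 ^ j ≤ (a + q * k).minFac ^ j := Nat.pow_le_pow_left hprime.two_le j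
            _ = a + q * k := h3
        have h5 : (j : ℝ) * Real.log 2 ≤ X := by
          refine le_trans ?_ (hX k hk'.1)
          rw [← Real.log_pow]
          apply Real.log_le_log (by positivity)
          exact_mod_cast h4
        have h6 : (1:ℝ) / 2 ≤ Real.log 2 := by
          have := Real.log_two_gt_d9
          linarith
        have h7 : (0:ℝ) ≤ j := Nat.cast_nonneg _
        nlinarith
    · intro k hk k' hk' h
      have h2 := (hpp k hk).minFac_pow_factorization_eq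
      have h3 := (hpp k' hk').minFac_pow_factorization_eq
      simp only [Prod.mk.injEq] at h
      rw [← h.2, ← h.1] at h3
      rw [h2] at h3
      have h4 : q * k = q * k' := by omega
      exact Nat.eq_of_mul_eq_mul_left (by omega) h4
  rw [card_product, Nat.card_Icc, Nat.card_Icc, Nat.add_sub_cancel, Nat.add_sub_cancel] at h1
  calc (A.card : ℝ) ≤ ((D * ⌊2 * X⌋₊ : ℕ) : ℝ) := by exact_mod_cast h1
    _ = D * (⌊2 * X⌋₊ : ℝ) := by push_cast; ring
    _ ≤ D * (2 * X) := mul_le_mul_of_nonneg_left (Nat.floor_le (by linarith)) (Nat.cast_nonneg _)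

private lemma tkl_amgm (t s : ℝ) (hs : 0 < s) : |t| ≤ (s + t ^ 2 / s) / 2 := by
  rw [le_div_iff₀ (by norm_num), ← sub_nonneg]
  have h : s + t ^ 2 / s - |t| * 2 = (|t| - s) ^ 2 / s := by
    rw [← sq_abs t]
    field_simp
    ring
  rw [h]
  positivity

theorem tkl : ∃ C : ℝ, 0 < C ∧ ∃ K0 : ℕ, ∀ K : ℕ, K0 ≤ K → ∀ (a q P : ℕ) (S : Finset ℕ),
    1 ≤ q → Nat.Coprime a q →
    (∀ p ∈ S, p.Prime ∧ P < p ∧ (p : ℝ) ≤ (K : ℝ) ^ ((1 : ℝ) / 10) ∧ ¬ p ∣ a * q) →
    1 ≤ Mu S → (Mu S + 1) ^ 2 ≤ P →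
    Real.log ((a : ℝ) + q * K) ≤ (K : ℝ) ^ ((1 : ℝ) / 10) →
    ∑ k ∈ Icc 1 K, |(Om S k : ℝ) - Mu S| * Lam (a + q * k) ≤
      C * Real.sqrt (Mu S) * (Real.log ((a : ℝ) + q * K) / Real.log K)
        * (K * ((q : ℝ) / q.totient)) := by
  refine ⟨488, by norm_num, 3, ?_⟩
  intro K hK a q P S hq haq hS hMu hP hX
  have hK3 : (3:ℝ) ≤ K := by exact_mod_cast hK
  have hK0 : (0:ℝ) < K := by linarith
  set X := Real.log ((a : ℝ) + q * K) with hXdef
  set μ := Mu S with hμ
  set T : ℝ := (K : ℝ) ^ ((1 : ℝ) / 10) with hT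
  set D := ⌊T⌋₊ with hD
  set G := Gs D q with hG
  set s := Real.sqrt μ with hs
  have hqR : (1:ℝ) ≤ q := by exact_mod_cast hq
  -- facts on T and D
  have hT1 : 1 ≤ T := Real.one_le_rpow (by linarith) (by norm_num)
  have hT0 : 0 < T := by linarith
  have hT10 : T ^ 10 = K := by
    rw [hT, ← Real.rpow_natCast, ← Real.rpow_mul hK0.le]
    norm_num
  have hDT : (D : ℝ) ≤ T := Nat.floor_le hT0.le
  have hTD : T < (D : ℝ) + 1 := Nat.lt_floor_add_one T
  have hD1 : 1 ≤ D := by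
    rw [hD, Nat.one_le_floor_iff]
    exact hT1
  have hD1' : (1:ℝ) ≤ D := by exact_mod_cast hD1
  -- log K
  have hlogK : 0 < Real.log K := Real.log_pos (by linarith)
  have hXK : Real.log K ≤ X := by
    apply Real.log_le_log hK0
    have h1 : (0:ℝ) ≤ a := Nat.cast_nonneg _
    nlinarith
  have hX0 : 0 < X := by linarith
  have hlogT : Real.log T = Real.log K / 10 := by
    rw [hT, Real.log_rpow hK0]
    ring
  have hG1 : 1 ≤ G := gs_one_le D q hD1
  have hG0 : 0 < G := by linarith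
  have hs1 : 1 ≤ s := by
    rw [hs]
    exact Real.one_le_sqrt.2 hMu
  have hs0 : 0 < s := by linarith
  have hss : s * s = μ := Real.mul_self_sqrt (by linarith)
  -- size of S
  have hSc : S.card ≤ D := by
    have h1 : S ⊆ Icc 1 D := by
      intro p hp
      obtain ⟨h2, _, h3, _⟩ := hS p hp
      rw [mem_Icc]
      exact ⟨h2.one_le, Nat.le_floor h3⟩
    have h2 := card_le_card h1
    rw [Nat.card_Icc, Nat.add_sub_cancel] at h2
    exact h2
  have hScR : (S.card : ℝ) ≤ D := by exact_mod_cast hSc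
  have hμS : μ ≤ S.card := by
    rw [hμ, Mu]
    calc ∑ p ∈ S, 1 / (p : ℝ) ≤ ∑ p ∈ S, (1:ℝ) := by
          refine sum_le_sum fun p hp => ?_
          have h1 : (1:ℝ) ≤ p := by exact_mod_cast (hS p hp).1.one_le
          rw [div_le_one (by linarith)]
          exact h1
      _ = S.card := by simp
  have hOm : ∀ k, |(Om S k : ℝ) - μ| ≤ D := by
    intro k
    have h1 : (Om S k : ℝ) ≤ S.card := by
      exact_mod_cast card_le_card (filter_subset _ _)
    have h2 : (0:ℝ) ≤ Om S k := Nat.cast_nonneg _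
    rw [abs_le]
    constructor <;> linarith
  -- a ≥ 1 is not needed: log n ≤ X for n = a + q k, k ≤ K
  have hlogn : ∀ k ∈ Icc 1 K, Real.log ((a + q * k : ℕ) : ℝ) ≤ X := by
    intro k hk
    rw [mem_Icc] at hk
    have h1 : 0 < a + q * k := by
      have : 0 < q * k := Nat.mul_pos (by omega) (by omega)
      omega
    apply Real.log_le_log (by exact_mod_cast h1)
    push_cast
    have h2 : (k:ℝ) ≤ K := by exact_mod_cast hk.2
    nlinarith
  have hLam : ∀ k ∈ Icc 1 K, Lam (a + q * k) ≤ X := fun k hk =>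
    (ArithmeticFunction.vonMangoldt_le_log).trans (hlogn k hk)
  have hLam0 : ∀ k, 0 ≤ Lam (a + q * k) := fun k => ArithmeticFunction.vonMangoldt_nonneg
  -- the termwise bound
  have hterm : ∀ k ∈ Icc 1 K, |(Om S k : ℝ) - μ| * Lam (a + q * k) ≤
      (if Lam (a + q * k) ≠ 0 ∧ (a + q * k).minFac ≤ D then (D : ℝ) * X else 0) +
      X / (2 * G ^ 2) * (s * Ps D q (a + q * k) ^ 2 +
        (((Om S k : ℝ) - μ) ^ 2 * Ps D q (a + q * k) ^ 2) / s) := by
    intro k hk
    have hg : 0 ≤ X / (2 * G ^ 2) * (s * Ps D q (a + q * k) ^ 2 +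
        (((Om S k : ℝ) - μ) ^ 2 * Ps D q (a + q * k) ^ 2) / s) := by positivity
    split_ifs with hc
    · have h1 : |(Om S k : ℝ) - μ| * Lam (a + q * k) ≤ D * X :=
        mul_le_mul (hOm k) (hLam k hk) (hLam0 k) (by positivity)
      linarith
    · by_cases h0 : Lam (a + q * k) = 0
      · rw [h0, mul_zero, zero_add]
        exact hg
      · have h1 : D < (a + q * k).minFac := by
          by_contra h2
          exact hc ⟨h0, by omega⟩
        have h2 := ps_pp D q (a + q * k) h0 h1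
        rw [h2, zero_add, ← hG]
        have h3 : X / (2 * G ^ 2) * (s * G ^ 2 + (((Om S k : ℝ) - μ) ^ 2 * G ^ 2) / s) =
            ((s + ((Om S k : ℝ) - μ) ^ 2 / s) / 2) * X := by
          field_simp
        rw [h3]
        exact mul_le_mul (tkl_amgm _ s hs0) (hLam k hk) (hLam0 k) (by positivity)
  have hsum := sum_le_sum hterm
  rw [sum_add_distrib, ← mul_sum, sum_add_distrib, ← mul_sum, ← sum_div] at hsum
  -- part 1
  have hpart1 : ∑ k ∈ Icc 1 K, (if Lam (a + q * k) ≠ 0 ∧ (a + q * k).minFac ≤ D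
      then (D : ℝ) * X else 0) ≤ 2 * K := by
    rw [← sum_filter, sum_const, nsmul_eq_mul]
    have h1 := tkl_count a q K D X hq hX0.le hlogn
    calc _ ≤ (D * (2 * X)) * ((D:ℝ) * X) := mul_le_mul_of_nonneg_right h1 (by positivity)
      _ = 2 * ((D:ℝ) * D * (X * X)) := by ring
      _ ≤ 2 * (T * T * (T * T)) := by
          apply mul_le_mul_of_nonneg_left _ (by norm_num)
          exact mul_le_mul (mul_le_mul hDT hDT (by positivity) hT0.le)
            (mul_le_mul hX hX hX0.le hT0.le) (by positivity) (by positivity)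
      _ = 2 * T ^ 4 := by ring
      _ ≤ 2 * T ^ 10 := by
          apply mul_le_mul_of_nonneg_left _ (by norm_num)
          exact pow_le_pow_right₀ hT1 (by norm_num)
      _ = 2 * K := by rw [hT10]
  -- part 2
  have hS' : ∀ p ∈ S, p.Prime ∧ P < p ∧ ¬ p ∣ a * q := fun p hp =>
    ⟨(hS p hp).1, (hS p hp).2.1, (hS p hp).2.2.2⟩
  have htk := tk_weighted D q a K P S hq haq hS' hP
  have hone := one_weighted D q a K hq haq
  rw [← hμ, ← hG] at htk
  rw [← hG] at hone
  have hKG : 0 ≤ (K:ℝ) * G := by positivity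
  have hD6 : (D:ℝ) ^ 4 * (1 + (S.card:ℝ)) ^ 2 ≤ 4 * (D:ℝ) ^ 6 := by
    have h1 : (1 + (S.card:ℝ)) ^ 2 ≤ (2 * D) ^ 2 := by
      apply pow_le_pow_left₀ (by positivity)
      linarith
    calc (D:ℝ) ^ 4 * (1 + (S.card:ℝ)) ^ 2 ≤ (D:ℝ) ^ 4 * (2 * D) ^ 2 :=
          mul_le_mul_of_nonneg_left h1 (by positivity)
      _ = 4 * (D:ℝ) ^ 6 := by ring
  have hD46 : (D:ℝ) ^ 4 ≤ (D:ℝ) ^ 6 := pow_le_pow_right₀ hD1' (by norm_num)
  have hmain : s * ∑ k ∈ Icc 1 K, Ps D q (a + q * k) ^ 2 +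
      (∑ k ∈ Icc 1 K, ((Om S k : ℝ) - μ) ^ 2 * Ps D q (a + q * k) ^ 2) / s ≤
      s * (81 * (K * G) + 162 * (D:ℝ) ^ 6) := by
    have h1 : s * ∑ k ∈ Icc 1 K, Ps D q (a + q * k) ^ 2 ≤ s * (K * G + 2 * (D:ℝ) ^ 6) := by
      apply mul_le_mul_of_nonneg_left _ hs0.le
      linarith
    have h2 : (∑ k ∈ Icc 1 K, ((Om S k : ℝ) - μ) ^ 2 * Ps D q (a + q * k) ^ 2) / s ≤
        s * (80 * (K * G) + 160 * (D:ℝ) ^ 6) := by
      rw [div_le_iff₀ hs0]
      have h3 : s * (80 * (K * G) + 160 * (D:ℝ) ^ 6) * s =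
          μ * (80 * (K * G) + 160 * (D:ℝ) ^ 6) := by
        rw [← hss]; ring
      rw [h3]
      have h4 : 0 ≤ (D:ℝ) ^ 6 := by positivity
      nlinarith
    linarith
  have hX2 : 0 ≤ X / (2 * G ^ 2) := by positivity
  have hpart2 := mul_le_mul_of_nonneg_left hmain hX2
  -- first term of part 2
  have hphi : (0:ℝ) < q.totient := by exact_mod_cast Nat.totient_pos.2 hq
  have hq0 : (0:ℝ) < q := by linarith
  have hR1 : 1 ≤ (q:ℝ) / q.totient := by
    rw [le_div_iff₀ hphi, one_mul]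
    exact_mod_cast Nat.totient_le q
  have hXL : 1 ≤ X / Real.log K := by
    rw [le_div_iff₀ hlogK, one_mul]
    exact hXK
  have hGge : (q.totient : ℝ) / q * (Real.log K / 10) ≤ G := by
    refine le_trans ?_ (gs_ge D q hq)
    apply mul_le_mul_of_nonneg_left _ (by positivity)
    rw [← hlogT]
    exact Real.log_le_log hT0 hTD.le
  have hinv : 1 / G ≤ 10 * ((q:ℝ) / q.totient) / Real.log K := by
    rw [div_le_iff₀ hG0]
    have h1 : 10 * ((q:ℝ) / q.totient) / Real.log K * ((q.totient : ℝ) / q * (Real.log K / 10))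
        = 1 := by
      field_simp
    calc (1:ℝ) = 10 * ((q:ℝ) / q.totient) / Real.log K *
          ((q.totient : ℝ) / q * (Real.log K / 10)) := h1.symm
      _ ≤ 10 * ((q:ℝ) / q.totient) / Real.log K * G :=
          mul_le_mul_of_nonneg_left hGge (by positivity)
  set M := s * (X / Real.log K) * (K * ((q:ℝ) / q.totient)) with hM
  have hMs : s * K ≤ M := by
    rw [hM]
    calc s * K = s * 1 * (K * 1) := by ring
      _ ≤ s * (X / Real.log K) * (K * ((q:ℝ) / q.totient)) := by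
          apply mul_le_mul
          · exact mul_le_mul_of_nonneg_left hXL hs0.le
          · exact mul_le_mul_of_nonneg_left hR1 hK0.le
          · positivity
          · positivity
  have hMK : (K:ℝ) ≤ M := le_trans (le_mul_of_one_le_left hK0.le hs1) hMs
  have hA : X / (2 * G ^ 2) * (s * (81 * (K * G))) ≤ 405 * M := by
    have h1 : X / (2 * G ^ 2) * (s * (81 * (K * G))) = 81 / 2 * (s * X * K) * (1 / G) := by
      field_simp
    rw [h1]
    calc 81 / 2 * (s * X * K) * (1 / G) ≤ 81 / 2 * (s * X * K) *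
          (10 * ((q:ℝ) / q.totient) / Real.log K) :=
          mul_le_mul_of_nonneg_left hinv (by positivity)
      _ = 405 * M := by rw [hM]; ring
  have hB : X / (2 * G ^ 2) * (s * (162 * (D:ℝ) ^ 6)) ≤ 81 * M := by
    have h1 : X / (2 * G ^ 2) ≤ X / 2 := by
      apply div_le_div_of_nonneg_left hX0.le (by norm_num)
      nlinarith
    calc X / (2 * G ^ 2) * (s * (162 * (D:ℝ) ^ 6)) ≤ X / 2 * (s * (162 * (D:ℝ) ^ 6)) :=
          mul_le_mul_of_nonneg_right h1 (by positivity)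
      _ = 81 * (s * (X * (D:ℝ) ^ 6)) := by ring
      _ ≤ 81 * (s * (T * T ^ 6)) := by
          have h2 : (D:ℝ) ^ 6 ≤ T ^ 6 := pow_le_pow_left₀ (by positivity) hDT 6
          have h3 : X * (D:ℝ) ^ 6 ≤ T * T ^ 6 := mul_le_mul hX h2 (by positivity) hT0.le
          exact mul_le_mul_of_nonneg_left (mul_le_mul_of_nonneg_left h3 hs0.le) (by norm_num)
      _ = 81 * (s * T ^ 7) := by ring
      _ ≤ 81 * (s * T ^ 10) := by
          have h2 : T ^ 7 ≤ T ^ 10 := pow_le_pow_right₀ hT1 (by norm_num)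
          exact mul_le_mul_of_nonneg_left (mul_le_mul_of_nonneg_left h2 hs0.le) (by norm_num)
      _ = 81 * (s * K) := by rw [hT10]
      _ ≤ 81 * M := by linarith
  have hsplit : X / (2 * G ^ 2) * (s * (81 * (K * G) + 162 * (D:ℝ) ^ 6)) =
      X / (2 * G ^ 2) * (s * (81 * (K * G))) + X / (2 * G ^ 2) * (s * (162 * (D:ℝ) ^ 6)) := by
    ring
  rw [hsplit] at hpart2
  have hfinal : 488 * s * (X / Real.log K) * (K * ((q:ℝ) / q.totient)) = 488 * M := by
    rw [hM]; ring
  rw [hfinal]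
  linarith

end Pool.Agent.H87.WL
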