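import Pool.Agent.H87.WL.W2PB
import Pool.Agent.H35.W.VB
import Pool.Agent.H35.W.Dec
import Pool.Agent.H35.W.HRq
import Pool.Agent.H76.EHB.HRe
import Pool.Agent.H91.EHA.T1fin

/-!
# WL W2P: `WProp` from project W

`c1 = 2c+6`, `C0 = Br+c+3`, `C' = B'+b+2`, `m = max m0 20 (c+2)`, `M = a0 + H + ⌈x/L^{C0}⌉`, `N = x`.
-/

set_option autoImplicit false

namespace Pool.Agent.H87.WL

open Finset
open Pool.Agent.H91.EHA (Lam lamR hR ramS psiA err log_pow_le_rpow log_ge)
open Pool.Agent.H76.EHB (S2 hR_abs)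
open Pool.Agent.H35.W (pb CorB dec v_bound fac_sum hr_sq)

/-- the asymptotic facts -/
private theorem w2p_J (L : ℝ) (B' J : ℕ) (hL : ((36 * B' + 36 : ℕ) : ℝ) ^ 2 ≤ L)
    (hJ : (2 : ℝ) ^ J ≤ L ^ B') : (J : ℝ) ≤ L / 9 := by
  have hL1 : 1 ≤ L := by
    refine le_trans ?_ hL
    have : (1 : ℝ) ≤ ((36 * B' + 36 : ℕ) : ℝ) := by
      push_cast
      have : (0 : ℝ) ≤ B' := by positivity
      linarith
    nlinarith
  have hL0 : 0 < L := by linarith
  have hs : ((36 * B' + 36 : ℕ) : ℝ) ≤ Real.sqrt L := Real.le_sqrt_of_sq_le hL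
  have hlog : Real.log L ≤ 2 * Real.sqrt L := by
    have h1 : Real.log (Real.sqrt L) ≤ Real.sqrt L := by
      have := Real.log_le_sub_one_of_pos (Real.sqrt_pos.2 hL0)
      linarith
    rw [Real.log_sqrt hL0.le] at h1
    linarith
  have h2 : (J : ℝ) * Real.log 2 ≤ B' * Real.log L := by
    have := Real.log_le_log (by positivity) hJ
    rwa [Real.log_pow, Real.log_pow] at this
  have h3 : (1 : ℝ) / 2 ≤ Real.log 2 := by
    have := Real.log_two_gt_d9
    linarith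
  have hJ0 : (0 : ℝ) ≤ J := by positivity
  have hB0 : (0 : ℝ) ≤ B' := by positivity
  have h4 : (J : ℝ) ≤ 4 * B' * Real.sqrt L := by nlinarith [Real.sqrt_nonneg L]
  have h5 : Real.sqrt L * Real.sqrt L = L := Real.mul_self_sqrt hL0.le
  push_cast at hs
  nlinarith [Real.sqrt_nonneg L]

private theorem w2p_sqrt (L : ℝ) (c : ℕ) (hL : 1 ≤ L) :
    Real.sqrt ((L + 1) ^ 3 / L ^ (2 * c + 6)) ≤ 3 / L ^ (c + 1) := by
  have hL0 : 0 < L := by linarith
  apply Real.sqrt_le_iff.2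
  refine ⟨by positivity, ?_⟩
  rw [div_pow, div_le_div_iff₀ (by positivity) (by positivity)]
  have h1 : (L + 1) ^ 3 ≤ (2 * L) ^ 3 := by
    apply pow_le_pow_left₀ (by linarith)
    linarith
  have h2 : (L ^ (c + 1)) ^ 2 * L ^ 3 ≤ L ^ (2 * c + 6) := by
    have : (L ^ (c + 1)) ^ 2 * L ^ 3 = L ^ (2 * c + 5) := by ring
    rw [this]
    exact pow_le_pow_right₀ hL (by omega)
  calc (L + 1) ^ 3 * (L ^ (c + 1)) ^ 2 ≤ (2 * L) ^ 3 * (L ^ (c + 1)) ^ 2 := by
        apply mul_le_mul_of_nonneg_right h1 (by positivity)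
    _ = 8 * ((L ^ (c + 1)) ^ 2 * L ^ 3) := by ring
    _ ≤ 8 * L ^ (2 * c + 6) := by linarith
    _ ≤ 3 ^ 2 * L ^ (2 * c + 6) := by
        have : 0 ≤ L ^ (2 * c + 6) := by positivity
        linarith

private theorem w2p_num (L x H Q M U xt : ℝ) (c Br B' C0 m J : ℕ) (hL : 12 ≤ L) (hx : 0 ≤ x)
    (hH : 0 ≤ H) (hQ : 0 ≤ Q) (hU : U ≤ 2 * L ^ Br) (hU0 : 0 ≤ U)
    (hM0 : 0 ≤ M) (hM : M ≤ 2 * x / L ^ C0) (hC0 : C0 = Br + c + 3)
    (hQx : Q ≤ xt) (hxt : xt * L ^ (Br + B' + c + 2) ≤ x) (hm : c + 2 ≤ m) (hJ : (J : ℝ) ≤ L / 9) :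
    U * (H * M * L + H * Q * L ^ B') + H * x * L / L ^ (2 * m)
      + J * (H * x * (3 / L ^ (c + 1))) ≤ H * x / L ^ c := by
  have hL0 : 0 < L := by linarith
  have hHx : 0 ≤ H * x := by positivity
  -- first term
  have t1 : U * (H * M * L) ≤ 1 / 6 * (H * x / L ^ c) := by
    calc U * (H * M * L) ≤ (2 * L ^ Br) * (H * (2 * x / L ^ C0) * L) := by
          apply mul_le_mul hU _ (by positivity) (by positivity)
          apply mul_le_mul_of_nonneg_right _ hL0.le
          exact mul_le_mul_of_nonneg_left hM hH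
      _ = (H * x / L ^ c) * (4 / L ^ 2) := by
          rw [hC0]
          have : L ^ (Br + c + 3) = L ^ Br * L ^ c * L ^ 2 * L := by ring
          rw [this]
          field_simp
          ring
      _ ≤ (H * x / L ^ c) * (1 / 6) := by
          apply mul_le_mul_of_nonneg_left _ (by positivity)
          rw [div_le_div_iff₀ (by positivity) (by norm_num)]
          nlinarith
      _ = _ := by ring
  have t2 : U * (H * Q * L ^ B') ≤ 1 / 6 * (H * x / L ^ c) := by
    have h1 : Q * L ^ (Br + B' + c + 2) ≤ x :=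
      (mul_le_mul_of_nonneg_right hQx (by positivity)).trans hxt
    calc U * (H * Q * L ^ B') ≤ (2 * L ^ Br) * (H * Q * L ^ B') :=
          mul_le_mul_of_nonneg_right hU (by positivity)
      _ = H * (Q * L ^ (Br + B' + c + 2)) * 2 / (L ^ c * L ^ 2) := by
          have : L ^ (Br + B' + c + 2) = L ^ Br * L ^ B' * L ^ c * L ^ 2 := by ring
          rw [this]
          field_simp
      _ ≤ H * x * 2 / (L ^ c * L ^ 2) := by
          apply div_le_div_of_nonneg_right _ (by positivity)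
          apply mul_le_mul_of_nonneg_right _ (by norm_num)
          exact mul_le_mul_of_nonneg_left h1 hH
      _ = (H * x / L ^ c) * (2 / L ^ 2) := by
          field_simp
      _ ≤ (H * x / L ^ c) * (1 / 6) := by
          apply mul_le_mul_of_nonneg_left _ (by positivity)
          rw [div_le_div_iff₀ (by positivity) (by norm_num)]
          nlinarith
      _ = _ := by ring
  have t3 : H * x * L / L ^ (2 * m) ≤ 1 / 12 * (H * x / L ^ c) := by
    have h1 : L ^ c * L ^ 2 ≤ L ^ (2 * m) := by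
      rw [← pow_add]
      exact pow_le_pow_right₀ (by linarith) (by omega)
    calc H * x * L / L ^ (2 * m) ≤ H * x * L / (L ^ c * L ^ 2) := by
          apply div_le_div_of_nonneg_left (by positivity) (by positivity) h1
      _ = (H * x / L ^ c) * (1 / L) := by
          field_simp
      _ ≤ (H * x / L ^ c) * (1 / 12) := by
          apply mul_le_mul_of_nonneg_left _ (by positivity)
          exact one_div_le_one_div_of_le (by norm_num) hL
      _ = _ := by ring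
  have t4 : J * (H * x * (3 / L ^ (c + 1))) ≤ 1 / 3 * (H * x / L ^ c) := by
    calc J * (H * x * (3 / L ^ (c + 1))) ≤ (L / 9) * (H * x * (3 / L ^ (c + 1))) :=
          mul_le_mul_of_nonneg_right hJ (by positivity)
      _ = 1 / 3 * (H * x / L ^ c) := by
          rw [pow_succ]
          field_simp
          ring
  have hpos : 0 ≤ H * x / L ^ c := by positivity
  have : U * (H * M * L + H * Q * L ^ B') = U * (H * M * L) + U * (H * Q * L ^ B') := by ring
  rw [this]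
  linarith

theorem w_prop : WProp := by
  intro θ hθ c
  refine ⟨2 * c + 12, fun Br hBr => ?_⟩
  have hkap0 : 0 < (1 - θ) / 2 := by linarith
  obtain ⟨η, hη, hdec⟩ := dec ((1 - θ) / 2) hkap0 Br
  obtain ⟨b, m0, hvb⟩ := v_bound (2 * c + 6) Br (Br + c + 3) (by omega) η hη
  refine ⟨b + 1, fun B hB B' hBB' => ?_⟩
  obtain ⟨m, hm⟩ : ∃ m, m = max (max m0 20) (c + 2) := ⟨_, rfl⟩
  have hm1 : m0 ≤ m := by omega
  have hm2 : 20 ≤ m := by omega
  have hm3 : c + 2 ≤ m := by omega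
  obtain ⟨C', hC'⟩ : ∃ C', C' = B' + b + 2 := ⟨_, rfl⟩
  obtain ⟨x1, hx1⟩ := hdec m hm2
  obtain ⟨x2, hx2⟩ := hvb m hm1
  obtain ⟨x3, hx3⟩ := hr_sq Br
  obtain ⟨x4, hx4⟩ := log_ge (((36 * B' + 36 : ℕ) : ℝ) ^ 2)
  obtain ⟨x5, hx5⟩ := log_pow_le_rpow (B' + 1) ((1 - θ) / 2) hkap0
  obtain ⟨x6, hx6⟩ := log_pow_le_rpow (Br + c + 3 + 1) (1 - θ) (by linarith)
  obtain ⟨x7, hx7⟩ := log_pow_le_rpow (Br + c + 3 + C' + 2) 1 (by norm_num)
  obtain ⟨x8, hx8⟩ := log_pow_le_rpow (Br + B' + c + 2) (1 - θ) (by linarith)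
  obtain ⟨x9, hx9⟩ := log_pow_le_rpow (2 * C') 1 (by norm_num)
  refine ⟨C', x1 + x2 + x3 + x4 + x5 + x6 + x7 + x8 + x9 + 2, fun x hx a0 Q H hH ha0 hHQ hQx => ?_⟩
  have e1 := hx1 x (by omega)
  have e2 := hx2 x (by omega)
  have e3 := hx3 x (by omega)
  have e4 := hx4 x (by omega)
  have e5 := hx5 x (by omega)
  have e6 := hx6 x (by omega)
  have e7 := hx7 x (by omega)
  have e8 := hx8 x (by omega)
  have e9 := hx9 x (by omega)
  rw [Real.rpow_one] at e7 e9
  have hx0 : (0 : ℝ) < x := by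
    have : 0 < x := by omega
    exact_mod_cast this
  obtain ⟨L, hL⟩ : ∃ L, L = Real.log x := ⟨_, rfl⟩
  rw [← hL] at e4 e5 e6 e7 e8 e9 ⊢
  have hL36 : (1296 : ℝ) ≤ L := by
    refine le_trans ?_ e4
    push_cast
    have : (0 : ℝ) ≤ B' := by positivity
    nlinarith
  have hL1 : 1 ≤ L := by linarith
  have hL0 : 0 < L := by linarith
  -- P1, P2, J
  have hP1B : L ^ b ≤ (P1 x B : ℝ) := by
    have h1 : L ^ b + 1 ≤ L ^ B := by
      have h2 : L ^ (b + 1) ≤ L ^ B := pow_le_pow_right₀ hL1 hB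
      have h3 : 1 ≤ L ^ b := one_le_pow₀ hL1
      rw [pow_succ] at h2
      nlinarith
    have h2 : L ^ B < (P1 x B : ℝ) + 1 := by
      unfold P1
      rw [← hL]
      exact Nat.lt_floor_add_one _
    linarith
  have hP1 : 1 ≤ P1 x B := by
    have h3 : (1 : ℝ) ≤ (P1 x B : ℝ) := (one_le_pow₀ hL1).trans hP1B
    exact_mod_cast h3
  have hP1P1 : P1 x B ≤ P1 x B' := by
    unfold P1
    rw [← hL]
    exact Nat.floor_mono (pow_le_pow_right₀ hL1 hBB')
  have hP1' : (P1 x B' : ℝ) ≤ L ^ B' := by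
    unfold P1
    rw [← hL]
    exact Nat.floor_le (by positivity)
  have hP2le : P2 x B B' ≤ P1 x B' := p2_le x B B' hP1 hP1P1
  obtain ⟨J, hJ⟩ : ∃ J, J = Nat.log 2 (P1 x B' / P1 x B) := ⟨_, rfl⟩
  have hP2eq : P2 x B B' = P1 x B * 2 ^ J := by
    unfold P2
    rw [hJ]
  have hP2R : (P2 x B B' : ℝ) ≤ L ^ B' := by
    refine le_trans ?_ hP1'
    exact_mod_cast hP2le
  have hJL : (J : ℝ) ≤ L / 9 := by
    apply w2p_J L B' J e4
    refine le_trans ?_ hP2R
    rw [hP2eq]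
    have : 2 ^ J ≤ P1 x B * 2 ^ J := Nat.le_mul_of_pos_left _ hP1
    exact_mod_cast this
  -- the set of primes
  obtain ⟨S, hS⟩ : ∃ S, S = PP (P1 x B) (P2 x B B') := ⟨_, rfl⟩
  have hS1 : ∀ p ∈ S, 1 ≤ p := by
    intro p hp
    rw [hS] at hp
    exact (Finset.mem_filter.1 hp).2.one_lt.le
  have hSle : ∀ p ∈ S, p ≤ P2 x B B' := by
    intro p hp
    rw [hS] at hp
    exact (Finset.mem_Ioc.1 (Finset.mem_filter.1 hp).1).2
  have hScard : (S.card : ℝ) ≤ L ^ B' := by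
    refine le_trans ?_ hP2R
    have h1 : S.card ≤ P2 x B B' := by
      have h2 : S ⊆ Icc 1 (P2 x B B') := by
        intro p hp
        exact Finset.mem_Icc.2 ⟨hS1 p hp, hSle p hp⟩
      have := Finset.card_le_card h2
      rwa [Nat.card_Icc, Nat.add_sub_cancel] at this
    exact_mod_cast h1
  have hP2one : 1 ≤ P2 x B B' := by
    rw [hP2eq]
    exact Nat.mul_pos hP1 (by positivity)
  have hSMu : Mu S ≤ L := by
    rw [hS]
    have h1 := mu_le (P1 x B) (P2 x B B') hP2one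
    have h2 : Real.log (P2 x B B' : ℝ) ≤ B' * Real.log L := by
      have := Real.log_le_log (by exact_mod_cast hP2one) hP2R
      rwa [Real.log_pow] at this
    have h3 : Real.log L ≤ 2 * Real.sqrt L := by
      have h4 : Real.log (Real.sqrt L) ≤ Real.sqrt L := by
        have := Real.log_le_sub_one_of_pos (Real.sqrt_pos.2 hL0)
        linarith
      rw [Real.log_sqrt hL0.le] at h4
      linarith
    have h5 : ((36 * B' + 36 : ℕ) : ℝ) ≤ Real.sqrt L := Real.le_sqrt_of_sq_le e4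
    have h6 : Real.sqrt L * Real.sqrt L = L := Real.mul_self_sqrt hL0.le
    push_cast at h5
    have h7 : (0 : ℝ) ≤ B' := by positivity
    nlinarith [Real.sqrt_nonneg L]
  -- H, M
  have hHr : (H : ℝ) ≤ L ^ C' := by
    rw [hH, ← hL]
    exact Nat.floor_le (by positivity)
  have hHr2 : L ^ (B' + b) ≤ (H : ℝ) := by
    have h1 : L ^ (B' + b) + 1 ≤ L ^ C' := by
      have h2 : L ^ (B' + b + 1) ≤ L ^ C' := pow_le_pow_right₀ hL1 (by omega)
      have h3 : 1 ≤ L ^ (B' + b) := one_le_pow₀ hL1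
      rw [pow_succ] at h2
      nlinarith
    have h2 : L ^ C' < (H : ℝ) + 1 := by
      rw [hH, ← hL]
      exact Nat.lt_floor_add_one _
    linarith
  have hH1 : 1 ≤ H := by
    have h3 : (1 : ℝ) ≤ (H : ℝ) := (one_le_pow₀ hL1).trans hHr2
    exact_mod_cast h3
  have hQ1 : 1 ≤ Q := hH1.trans hHQ
  have hQ0 : (0 : ℝ) < Q := by exact_mod_cast hQ1
  obtain ⟨M, hM⟩ : ∃ M, M = a0 + H + ⌈(x : ℝ) / L ^ (Br + c + 3)⌉₊ := ⟨_, rfl⟩
  have hMa : a0 + H ≤ M := by omega
  have hMlow : (a0 : ℝ) + x / Real.log x ^ (Br + c + 3) ≤ M := by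
    rw [hM, ← hL]
    push_cast
    have := Nat.le_ceil ((x : ℝ) / L ^ (Br + c + 3))
    have h2 : (0 : ℝ) ≤ H := by positivity
    linarith
  have hMup : (M : ℝ) ≤ 2 * x / L ^ (Br + c + 3) := by
    have h1 : ((⌈(x : ℝ) / L ^ (Br + c + 3)⌉₊ : ℕ) : ℝ) < (x : ℝ) / L ^ (Br + c + 3) + 1 :=
      Nat.ceil_lt_add_one (by positivity)
    have h2 : (a0 : ℝ) ≤ x / L ^ (Br + c + 3) / 4 := by
      refine ha0.trans ?_
      rw [le_div_iff₀ (by norm_num), le_div_iff₀ (by positivity)]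
      have h3 : (x : ℝ) ^ θ * (x : ℝ) ^ (1 - θ) = x := by
        rw [← Real.rpow_add hx0]
        have : θ + (1 - θ) = 1 := by ring
        rw [this, Real.rpow_one]
      have h4 : 4 * L ^ (Br + c + 3) ≤ (x : ℝ) ^ (1 - θ) := by
        refine le_trans ?_ e6
        rw [pow_succ L (Br + c + 3)]
        have : 0 < L ^ (Br + c + 3) := by positivity
        nlinarith
      have h5 : 0 ≤ (x : ℝ) ^ θ := by positivity
      calc (x : ℝ) ^ θ * 4 * L ^ (Br + c + 3) = (x : ℝ) ^ θ * (4 * L ^ (Br + c + 3)) := by ring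
        _ ≤ (x : ℝ) ^ θ * (x : ℝ) ^ (1 - θ) := mul_le_mul_of_nonneg_left h4 h5
        _ = x := h3
    have h6 : (H : ℝ) + 1 ≤ x / L ^ (Br + c + 3) / 4 := by
      rw [le_div_iff₀ (by norm_num), le_div_iff₀ (by positivity)]
      refine le_trans ?_ e7
      have h7 : L ^ (Br + c + 3 + C' + 2) = L ^ (Br + c + 3) * L ^ C' * L ^ 2 := by ring
      rw [h7]
      have h8 : 1 ≤ L ^ C' := one_le_pow₀ hL1
      have h9 : 0 < L ^ (Br + c + 3) := by positivity
      have h10 : ((H : ℝ) + 1) * 4 ≤ L ^ C' * L ^ 2 := by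
        have h11 : (8 : ℝ) ≤ L ^ 2 := by nlinarith
        nlinarith
      calc ((H : ℝ) + 1) * 4 * L ^ (Br + c + 3) ≤ (L ^ C' * L ^ 2) * L ^ (Br + c + 3) :=
            mul_le_mul_of_nonneg_right h10 h9.le
        _ = _ := by ring
    rw [hM]
    push_cast
    have h12 : 2 * (x : ℝ) / L ^ (Br + c + 3) = 2 * (x / L ^ (Br + c + 3)) := by ring
    rw [h12]
    have h13 : 0 ≤ (x : ℝ) / L ^ (Br + c + 3) := by positivity
    linarith
  -- the decomposition
  obtain ⟨f, hf⟩ : ∃ f : ℕ → ℝ, f = fun n => if n ∈ Ioc M x then hR (P1 x Br) n else 0 := ⟨_, rfl⟩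
  have hf1 : ∀ n ∈ Ioc M x, f n = hR ⌊Real.log x ^ Br⌋₊ n := by
    intro n hn
    rw [hf]
    show (if n ∈ Ioc M x then hR (P1 x Br) n else 0) = _
    rw [if_pos hn]
    rfl
  have hf2 : ∀ n, n ∉ Ioc M x → f n = 0 := by
    intro n hn
    rw [hf]
    show (if n ∈ Ioc M x then hR (P1 x Br) n else 0) = _
    rw [if_neg hn]
  have hf3 : S2 f x ≤ x * Real.log x ^ 2 := by
    have h1 : S2 f x ≤ S2 (hR ⌊Real.log x ^ Br⌋₊) x := by
      unfold S2
      apply Finset.sum_le_sum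
      intro n _
      by_cases hn : n ∈ Ioc M x
      · rw [hf1 n hn]
      · rw [hf2 n hn]
        have := sq_nonneg (hR ⌊Real.log x ^ Br⌋₊ n)
        simpa using this
    refine h1.trans ((e3 x le_rfl).trans ?_)
    rw [← hL]
    have h2 : 0 ≤ (x : ℝ) * L := by positivity
    calc 15 * (x : ℝ) * L = (x * L) * 15 := by ring
      _ ≤ (x * L) * L := mul_le_mul_of_nonneg_left (by linarith) h2
      _ = x * L ^ 2 := by ring
  obtain ⟨fb, g, hfg, hcor, -, hfb⟩ := e1 x M a0 H f le_rfl hMa hf1 hf2 hf3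
  have hgs : ∀ n, n ∉ Ioc M x → g n = 0 := hcor.supp
  -- second moment
  have hxC : ((H : ℕ) : ℝ) ^ 2 ≤ x := by
    refine le_trans ?_ e9
    have : L ^ (2 * C') = (L ^ C') ^ 2 := by ring
    rw [this]
    exact pow_le_pow_left₀ (by positivity) hHr 2
  have hV : ∀ i < J, ∑ m ∈ Icc 1 (x / (P1 x B * 2 ^ i)), ∑ a ∈ Ioc a0 (a0 + H),
      (∑ p ∈ pb (P1 x B * 2 ^ i), g (a + p * m)) ^ 2
        ≤ H * x * ((P1 x B * 2 ^ i : ℕ) : ℝ) / Real.log x ^ (2 * c + 6) := by
    intro i hi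
    have h1 : L ^ b ≤ ((P1 x B * 2 ^ i : ℕ) : ℝ) := by
      refine hP1B.trans ?_
      have : P1 x B ≤ P1 x B * 2 ^ i := Nat.le_mul_of_pos_right _ (by positivity)
      exact_mod_cast this
    have h2 : ((P1 x B * 2 ^ i : ℕ) : ℝ) ≤ L ^ B' := by
      refine le_trans ?_ hP2R
      have : P1 x B * 2 ^ i ≤ P2 x B B' := by
        rw [hP2eq]
        exact Nat.mul_le_mul_left _ (Nat.pow_le_pow_right (by norm_num) hi.le)
      exact_mod_cast this
    have h3 : ((P1 x B * 2 ^ i : ℕ) : ℝ) * L ^ b ≤ (H : ℝ) := by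
      refine le_trans ?_ hHr2
      rw [pow_add]
      exact mul_le_mul_of_nonneg_right h2 (by positivity)
    rw [hL] at h1 h3
    exact e2 g x M a0 (P1 x B * 2 ^ i) H (x / (P1 x B * 2 ^ i)) hcor le_rfl hMlow h1 h3 hxC
  have hG := w2p_g g x M a0 H Q (P1 x B) J (2 * c + 6) hP1 hgs hMa (by rw [← hL]; exact hL0) hV
  rw [← hP2eq, ← hL, ← hS] at hG
  -- pointwise
  obtain ⟨U, hU⟩ : ∃ U : ℝ, U = L + (P1 x Br : ℝ) := ⟨_, rfl⟩
  have hU0 : 0 ≤ U := by
    rw [hU]
    positivity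
  have hU2 : U ≤ 2 * L ^ Br := by
    have h1 : (P1 x Br : ℝ) ≤ L ^ Br := by
      unfold P1
      rw [← hL]
      exact Nat.floor_le (by positivity)
    have h2 : L ≤ L ^ Br := le_self_pow₀ hL1 (by omega)
    rw [hU]
    linarith
  have hpt : ∀ a ∈ Ioc a0 (a0 + H), ∀ q ∈ Ioc Q (2 * Q),
      |∑ p ∈ S, ∑ n ∈ (Icc 1 x).filter (fun n => n ≡ a [MOD q * p]), hR (P1 x Br) n| ≤
      (U * ((M : ℝ) / Q * L + L ^ B') + (x : ℝ) / Q / L ^ (2 * m) * L) +
      |∑ p ∈ S, ∑ n ∈ (Icc 1 x).filter (fun n => n ≡ a [MOD q * p]), g n| := by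
    intro a ha q hq
    rw [Finset.mem_Ioc] at hq
    have hq1 : 1 ≤ q := by omega
    have hqQ : (Q : ℝ) ≤ q := by exact_mod_cast hq.1.le
    have hq0 : (0 : ℝ) < q := by exact_mod_cast hq1
    have h1 := w2p_point x M a q (P1 x Br) S fb g hS1 hq1
      (fun n hn => by
        rw [← hfg n, hf1 n hn]
        rfl) hgs U hU0 (fun n hn hn' => by
        rw [hU, hL]
        exact hR_abs _ n x hn hn') (L ^ (2 * m)) (fun p hp => by
        have hp1 := hS1 p hp
        have hqp : 1 ≤ q * p := Nat.mul_pos hq1 hp1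
        have hqpH : H ≤ q * p := by
          calc H ≤ Q := hHQ
            _ ≤ q := hq.1.le
            _ ≤ q * p := Nat.le_mul_of_pos_right _ hp1
        have hqpx : ((q * p : ℕ) : ℝ) ≤ (x : ℝ) ^ (1 - (1 - θ) / 2) := by
          have h2 : (q : ℝ) ≤ 2 * (x : ℝ) ^ θ := by
            have : (q : ℝ) ≤ ((2 * Q : ℕ) : ℝ) := by exact_mod_cast hq.2
            push_cast at this
            linarith
          have h3 : (p : ℝ) ≤ L ^ B' := by
            refine le_trans ?_ hP2R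
            exact_mod_cast hSle p hp
          have h4 : 2 * L ^ B' ≤ (x : ℝ) ^ ((1 - θ) / 2) := by
            refine le_trans ?_ e5
            rw [pow_succ]
            have : 0 < L ^ B' := by positivity
            nlinarith
          have h5 : (x : ℝ) ^ (1 - (1 - θ) / 2) = (x : ℝ) ^ θ * (x : ℝ) ^ ((1 - θ) / 2) := by
            rw [← Real.rpow_add hx0]
            congr 1
            ring
          rw [h5]
          push_cast
          calc (q : ℝ) * p ≤ (2 * (x : ℝ) ^ θ) * L ^ B' :=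
                mul_le_mul h2 h3 (by positivity) (by positivity)
            _ = (x : ℝ) ^ θ * (2 * L ^ B') := by ring
            _ ≤ _ := mul_le_mul_of_nonneg_left h4 (by positivity)
        have := hfb a ha (q * p) hqp hqpH hqpx
        rwa [← hL] at this)
    refine h1.trans ?_
    have h6 : (M : ℝ) / q ≤ (M : ℝ) / Q := div_le_div_of_nonneg_left (by positivity) hQ0 hqQ
    have h7 : (x : ℝ) / q ≤ (x : ℝ) / Q := div_le_div_of_nonneg_left (by positivity) hQ0 hqQ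
    have h8 : (M : ℝ) / q * Mu S + S.card ≤ (M : ℝ) / Q * L + L ^ B' := by
      have := mul_le_mul h6 hSMu (Mu_nonneg S) (by positivity)
      linarith
    have h9 : (x : ℝ) / q / L ^ (2 * m) * Mu S ≤ (x : ℝ) / Q / L ^ (2 * m) * L := by
      apply mul_le_mul _ hSMu (Mu_nonneg S) (by positivity)
      exact div_le_div_of_nonneg_right h7 (by positivity)
    have h10 := mul_le_mul_of_nonneg_left h8 hU0
    linarith
  have hsum : ∑ a ∈ Ioc a0 (a0 + H), ∑ q ∈ Ioc Q (2 * Q),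
      |∑ p ∈ S, ∑ n ∈ (Icc 1 x).filter (fun n => n ≡ a [MOD q * p]), hR (P1 x Br) n| ≤
      H * Q * (U * ((M : ℝ) / Q * L + L ^ B') + (x : ℝ) / Q / L ^ (2 * m) * L) +
      J * (H * x * Real.sqrt ((L + 1) ^ 3 / L ^ (2 * c + 6))) := by
    refine (Finset.sum_le_sum fun a ha => Finset.sum_le_sum fun q hq => hpt a ha q hq).trans ?_
    simp only [Finset.sum_add_distrib, Finset.sum_const, Nat.card_Ioc, nsmul_eq_mul]
    have h1 : a0 + H - a0 = H := by omega
    have h2 : 2 * Q - Q = Q := by omega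
    rw [h1, h2]
    have h3 : (H : ℝ) * (Q * (U * ((M : ℝ) / Q * L + L ^ B') + (x : ℝ) / Q / L ^ (2 * m) * L)) =
      H * Q * (U * ((M : ℝ) / Q * L + L ^ B') + (x : ℝ) / Q / L ^ (2 * m) * L) := by ring
    linarith
  rw [← hS]
  refine hsum.trans ?_
  have hfin := w2p_num L x H Q M U ((x : ℝ) ^ θ) c Br B' (Br + c + 3) m J (by linarith) hx0.le
    (by positivity) (by positivity) hU2 hU0 (by positivity) hMup rfl hQx (by
      have h3 : (x : ℝ) ^ θ * (x : ℝ) ^ (1 - θ) = x := by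
        rw [← Real.rpow_add hx0]
        have : θ + (1 - θ) = 1 := by ring
        rw [this, Real.rpow_one]
      calc (x : ℝ) ^ θ * L ^ (Br + B' + c + 2) ≤ (x : ℝ) ^ θ * (x : ℝ) ^ (1 - θ) :=
            mul_le_mul_of_nonneg_left e8 (by positivity)
        _ = x := h3) hm3 hJL
  refine le_trans ?_ hfin
  have h1 : (H : ℝ) * Q * (U * ((M : ℝ) / Q * L + L ^ B') + (x : ℝ) / Q / L ^ (2 * m) * L) =
      U * (H * M * L + H * Q * L ^ B') + H * x * L / L ^ (2 * m) := by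
    field_simp
  rw [h1]
  have h2 := w2p_sqrt L c hL1
  have h3 : (J : ℝ) * (H * x * Real.sqrt ((L + 1) ^ 3 / L ^ (2 * c + 6))) ≤
      J * (H * x * (3 / L ^ (c + 1))) := by
    apply mul_le_mul_of_nonneg_left _ (by positivity)
    exact mul_le_mul_of_nonneg_left h2 (by positivity)
  linarith

end Pool.Agent.H87.WL
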