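import Pool.Agent.H87.WL.Defs
import Pool.Agent.H87.WL.MuL

/-!
# WL W2PA: elementary lemmas for the derivation of `WProp` from project W
-/

set_option autoImplicit false

namespace Pool.Agent.H87.WL

open Finset
open Pool.Agent.H91.EHA (Lam lamR hR ramS psiA err)

/-- the primes of the block `(P, 2P]` -/
def pbk (P : ℕ) : Finset ℕ := (Ioc P (2 * P)).filter Nat.Prime

theorem w2p_count (M m a : ℕ) (hm : 1 ≤ m) :
    (((Icc 1 M).filter (fun n => n ≡ a [MOD m])).card : ℝ) ≤ (M : ℝ) / m + 1 := by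
  have h0 : (Icc 1 M).filter (fun n => n ≡ a [MOD m]) = (Ioc 0 M).filter (fun n => n ≡ a [MOD m]) := by
    congr 1
  have hr : 0 < m := hm
  have h1 := Nat.Ioc_filter_modEq_card 0 M hr a
  rw [h0]
  have h2 : (((Ioc 0 M).filter (fun n => n ≡ a [MOD m])).card : ℤ) ≤ (M : ℤ) / m + 1 := by
    rw [h1]
    apply max_le _ (by positivity)
    have hmq : (0 : ℚ) < m := by exact_mod_cast hr
    have h3 : ⌊((M : ℕ) - (a : ℕ) : ℚ) / (m : ℚ)⌋ - ⌊(((0 : ℕ) : ℚ) - (a : ℕ)) / (m : ℚ)⌋ ≤ (M : ℤ) / m + 1 := by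
      have h4 : ((M : ℕ) - (a : ℕ) : ℚ) / (m : ℚ) = (M : ℚ) / m + (((0 : ℕ) : ℚ) - (a : ℕ)) / (m : ℚ) := by
        push_cast
        field_simp
        ring
      rw [h4]
      have h5 := Int.le_floor_add_floor ((M : ℚ) / m) ((((0 : ℕ) : ℚ) - (a : ℕ)) / (m : ℚ))
      have h6 : ⌊(M : ℚ) / m⌋ = (M : ℤ) / m := by
        exact_mod_cast Rat.floor_natCast_div_natCast M m
      omega
    exact_mod_cast h3
  have h7 : ((((Ioc 0 M).filter (fun n => n ≡ a [MOD m])).card : ℤ) : ℝ) ≤ (((M : ℤ) / m + 1 : ℤ) : ℝ) := by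
    exact_mod_cast h2
  have h8 : (((M : ℤ) / m : ℤ) : ℝ) ≤ (M : ℝ) / m := by
    have : ((M / m : ℕ) : ℝ) ≤ (M : ℝ) / m := Nat.cast_div_le
    exact_mod_cast this
  push_cast at h7
  have h9 : ((((Ioc 0 M).filter (fun n => n ≡ a [MOD m])).card : ℕ) : ℝ) ≤ (((M : ℤ) / m : ℤ) : ℝ) + 1 := by
    exact_mod_cast h7
  linarith

theorem w2p_blocks (F : ℕ → ℝ) (P J : ℕ) :
    ∑ p ∈ PP P (P * 2 ^ J), F p = ∑ i ∈ range J, ∑ p ∈ pbk (P * 2 ^ i), F p := by
  induction J with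
  | zero => simp [PP]
  | succ J ih =>
    rw [Finset.sum_range_succ, ← ih]
    unfold PP pbk
    have h1 : Ioc P (P * 2 ^ (J + 1)) = Ioc P (P * 2 ^ J) ∪ Ioc (P * 2 ^ J) (2 * (P * 2 ^ J)) := by
      have h2 : P ≤ P * 2 ^ J := Nat.le_mul_of_pos_right P (by positivity)
      have h3 : P * 2 ^ J ≤ 2 * (P * 2 ^ J) := by omega
      rw [Finset.Ioc_union_Ioc_eq_Ioc h2 h3, pow_succ]
      congr 1
      ring
    rw [h1, Finset.filter_union, Finset.sum_union]
    apply Finset.disjoint_filter_filter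
    rw [Finset.disjoint_left]
    intro z hz hz'
    rw [Finset.mem_Ioc] at hz hz'
    omega

theorem w2p_prog (g : ℕ → ℝ) (M x a m : ℕ) (hg : ∀ n, n ∉ Ioc M x → g n = 0) (ha : a ≤ M)
    (hm : 1 ≤ m) :
    ∑ n ∈ (Icc 1 x).filter (fun n => n ≡ a [MOD m]), g n = ∑ k ∈ Icc 1 x, g (a + m * k) := by
  have h1 : ∑ n ∈ (Icc 1 x).filter (fun n => n ≡ a [MOD m]), g n =
      ∑ n ∈ (Ioc M x).filter (fun n => n ≡ a [MOD m]), g n := by
    symm
    apply Finset.sum_subset
    · intro n hn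
      rw [Finset.mem_filter, Finset.mem_Ioc] at hn
      rw [Finset.mem_filter, Finset.mem_Icc]
      exact ⟨⟨by omega, by omega⟩, hn.2⟩
    · intro n hn hn'
      apply hg
      intro h
      apply hn'
      rw [Finset.mem_filter] at hn ⊢
      exact ⟨h, hn.2⟩
  have h2 : ∑ k ∈ Icc 1 x, g (a + m * k) =
      ∑ k ∈ (Icc 1 x).filter (fun k => a + m * k ∈ Ioc M x), g (a + m * k) := by
    rw [Finset.sum_filter]
    apply Finset.sum_congr rfl
    intro k _
    split_ifs with h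
    · rfl
    · exact hg _ h
  rw [h1, h2]
  symm
  apply Finset.sum_nbij' (fun k => a + m * k) (fun n => (n - a) / m)
  · intro k hk
    rw [Finset.mem_filter] at hk
    rw [Finset.mem_filter]
    refine ⟨hk.2, ?_⟩
    unfold Nat.ModEq
    rw [Nat.add_mul_mod_self_left]
  · intro n hn
    rw [Finset.mem_filter, Finset.mem_Ioc] at hn
    have hd : m ∣ n - a := (Nat.modEq_iff_dvd' (by omega)).1 hn.2.symm
    have hna : m * ((n - a) / m) = n - a := Nat.mul_div_cancel' hd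
    rw [Finset.mem_filter, Finset.mem_Icc, Finset.mem_Ioc]
    refine ⟨⟨?_, ?_⟩, ?_⟩
    · have h3 : 0 < n - a := by omega
      exact Nat.div_pos (Nat.le_of_dvd h3 hd) hm
    · exact (Nat.div_le_self _ _).trans (by omega)
    · rw [hna]
      omega
  · intro k hk
    show (a + m * k - a) / m = k
    rw [Nat.add_sub_cancel_left, Nat.mul_div_cancel_left _ hm]
  · intro n hn
    rw [Finset.mem_filter, Finset.mem_Ioc] at hn
    have hd : m ∣ n - a := (Nat.modEq_iff_dvd' (by omega)).1 hn.2.symm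
    have hna : m * ((n - a) / m) = n - a := Nat.mul_div_cancel' hd
    show a + m * ((n - a) / m) = n
    rw [hna]
    omega
  · intro k hk
    rfl

end Pool.Agent.H87.WL
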