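import Pool.Agent.H87.WL.W2PA
import Pool.Agent.H35.W.FacSum

/-!
# WL W2PB: the two main inequalities for the derivation of `WProp`
-/

set_option autoImplicit false

namespace Pool.Agent.H87.WL

open Finset
open Pool.Agent.H91.EHA (Lam lamR hR ramS psiA err)
open Pool.Agent.H35.W (pb fac_sum)

theorem w2p_point (x M a q R : ℕ) (S : Finset ℕ) (fb g : ℕ → ℝ) (hS : ∀ p ∈ S, 1 ≤ p) (hq : 1 ≤ q)
    (hf : ∀ n ∈ Ioc M x, hR R n = fb n + g n) (hg : ∀ n, n ∉ Ioc M x → g n = 0)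
    (U : ℝ) (hU0 : 0 ≤ U) (hU : ∀ n, 1 ≤ n → n ≤ x → |hR R n| ≤ U) (V : ℝ)
    (hfb : ∀ p ∈ S, |∑ n ∈ (Ioc M x).filter (fun n => n ≡ a [MOD q * p]), fb n|
      ≤ (x : ℝ) / ((q * p : ℕ) : ℝ) / V) :
    |∑ p ∈ S, ∑ n ∈ (Icc 1 x).filter (fun n => n ≡ a [MOD q * p]), hR R n| ≤
      U * ((M : ℝ) / q * Mu S + S.card) + (x : ℝ) / q / V * Mu S +
      |∑ p ∈ S, ∑ n ∈ (Icc 1 x).filter (fun n => n ≡ a [MOD q * p]), g n| := by
  have hq0 : (0 : ℝ) < q := by exact_mod_cast hq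
  have hsplit : ∀ p ∈ S, ∑ n ∈ (Icc 1 x).filter (fun n => n ≡ a [MOD q * p]), hR R n =
      (∑ n ∈ ((Icc 1 x).filter (fun n => n ≡ a [MOD q * p])).filter (fun n => n ≤ M), hR R n) +
      (∑ n ∈ (Ioc M x).filter (fun n => n ≡ a [MOD q * p]), fb n) +
      ∑ n ∈ (Icc 1 x).filter (fun n => n ≡ a [MOD q * p]), g n := by
    intro p _
    have h1 : ∑ n ∈ (Ioc M x).filter (fun n => n ≡ a [MOD q * p]), fb n =
        ∑ n ∈ ((Icc 1 x).filter (fun n => n ≡ a [MOD q * p])).filter (fun n => ¬ n ≤ M), fb n := by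
      apply Finset.sum_congr _ (fun _ _ => rfl)
      ext n
      simp only [Finset.mem_filter, Finset.mem_Ioc, Finset.mem_Icc]
      constructor
      · rintro ⟨⟨h1, h2⟩, h3⟩
        exact ⟨⟨⟨by omega, h2⟩, h3⟩, by omega⟩
      · rintro ⟨⟨⟨h1, h2⟩, h3⟩, h4⟩
        exact ⟨⟨by omega, h2⟩, h3⟩
    have h2 : ∑ n ∈ (Icc 1 x).filter (fun n => n ≡ a [MOD q * p]), g n =
        ∑ n ∈ ((Icc 1 x).filter (fun n => n ≡ a [MOD q * p])).filter (fun n => ¬ n ≤ M), g n := by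
      symm
      apply Finset.sum_subset (Finset.filter_subset _ _)
      intro n hn hn'
      apply hg
      intro h
      apply hn'
      rw [Finset.mem_filter]
      rw [Finset.mem_Ioc] at h
      exact ⟨hn, by omega⟩
    rw [h1, h2, add_assoc, ← Finset.sum_add_distrib,
      ← Finset.sum_filter_add_sum_filter_not ((Icc 1 x).filter (fun n => n ≡ a [MOD q * p]))
        (fun n => n ≤ M)]
    congr 1
    apply Finset.sum_congr rfl
    intro n hn
    simp only [Finset.mem_filter, Finset.mem_Icc] at hn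
    apply hf
    rw [Finset.mem_Ioc]
    exact ⟨by omega, hn.1.1.2⟩
  rw [Finset.sum_congr rfl hsplit, Finset.sum_add_distrib, Finset.sum_add_distrib]
  have hA : |∑ p ∈ S, ∑ n ∈ ((Icc 1 x).filter (fun n => n ≡ a [MOD q * p])).filter
      (fun n => n ≤ M), hR R n| ≤ U * ((M : ℝ) / q * Mu S + S.card) := by
    have h1 : ∀ p ∈ S, |∑ n ∈ ((Icc 1 x).filter (fun n => n ≡ a [MOD q * p])).filter
        (fun n => n ≤ M), hR R n| ≤ U * ((M : ℝ) / q * (1 / (p : ℝ)) + 1) := by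
      intro p hp
      have hp1 := hS p hp
      have hp0 : (0 : ℝ) < p := by exact_mod_cast hp1
      have hc := w2p_count M (q * p) a (Nat.mul_pos hq hp1)
      have h2 : |∑ n ∈ ((Icc 1 x).filter (fun n => n ≡ a [MOD q * p])).filter
          (fun n => n ≤ M), hR R n| ≤ ∑ n ∈ ((Icc 1 x).filter (fun n => n ≡ a [MOD q * p])).filter
          (fun n => n ≤ M), U := by
        refine (Finset.abs_sum_le_sum_abs _ _).trans (Finset.sum_le_sum ?_)
        intro n hn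
        simp only [Finset.mem_filter, Finset.mem_Icc] at hn
        exact hU n hn.1.1.1 hn.1.1.2
      have h3 : ((((Icc 1 x).filter (fun n => n ≡ a [MOD q * p])).filter
          (fun n => n ≤ M)).card : ℝ) ≤ (((Icc 1 M).filter (fun n => n ≡ a [MOD q * p])).card : ℝ) := by
        have : ((Icc 1 x).filter (fun n => n ≡ a [MOD q * p])).filter (fun n => n ≤ M) ⊆
            (Icc 1 M).filter (fun n => n ≡ a [MOD q * p]) := by
          intro n hn
          simp only [Finset.mem_filter, Finset.mem_Icc] at hn ⊢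
          exact ⟨⟨hn.1.1.1, hn.2⟩, hn.1.2⟩
        exact_mod_cast Finset.card_le_card this
      rw [Finset.sum_const, nsmul_eq_mul] at h2
      have h4 : (M : ℝ) / ((q * p : ℕ) : ℝ) = (M : ℝ) / q * (1 / (p : ℝ)) := by
        push_cast
        field_simp
      calc _ ≤ _ := h2
        _ ≤ ((M : ℝ) / q * (1 / (p : ℝ)) + 1) * U := by
            apply mul_le_mul_of_nonneg_right _ hU0
            rw [← h4]
            exact h3.trans hc
        _ = _ := by ring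
    refine (Finset.abs_sum_le_sum_abs _ _).trans ((Finset.sum_le_sum h1).trans (le_of_eq ?_))
    rw [← Finset.mul_sum, Finset.sum_add_distrib, ← Finset.mul_sum]
    simp [Mu]
  have hB : |∑ p ∈ S, ∑ n ∈ (Ioc M x).filter (fun n => n ≡ a [MOD q * p]), fb n| ≤
      (x : ℝ) / q / V * Mu S := by
    refine (Finset.abs_sum_le_sum_abs _ _).trans ((Finset.sum_le_sum hfb).trans (le_of_eq ?_))
    unfold Mu
    rw [Finset.mul_sum]
    apply Finset.sum_congr rfl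
    intro p hp
    push_cast
    rw [div_div, div_div, div_mul_div_comm, mul_one]
    congr 1
    ring
  have hab := abs_add_le
    ((∑ p ∈ S, ∑ n ∈ ((Icc 1 x).filter (fun n => n ≡ a [MOD q * p])).filter
      (fun n => n ≤ M), hR R n) + ∑ p ∈ S, ∑ n ∈ (Ioc M x).filter (fun n => n ≡ a [MOD q * p]), fb n)
    (∑ p ∈ S, ∑ n ∈ (Icc 1 x).filter (fun n => n ≡ a [MOD q * p]), g n)
  have hab2 := abs_add_le
    (∑ p ∈ S, ∑ n ∈ ((Icc 1 x).filter (fun n => n ≡ a [MOD q * p])).filter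
      (fun n => n ≤ M), hR R n) (∑ p ∈ S, ∑ n ∈ (Ioc M x).filter (fun n => n ≡ a [MOD q * p]), fb n)
  linarith

theorem w2p_g (g : ℕ → ℝ) (x M a0 H Q P J c1 : ℕ) (hP : 1 ≤ P)
    (hg : ∀ n, n ∉ Ioc M x → g n = 0) (haM : a0 + H ≤ M) (hL : 0 < Real.log x)
    (hV : ∀ i < J, ∑ m ∈ Icc 1 (x / (P * 2 ^ i)), ∑ a ∈ Ioc a0 (a0 + H),
      (∑ p ∈ pb (P * 2 ^ i), g (a + p * m)) ^ 2
        ≤ H * x * ((P * 2 ^ i : ℕ) : ℝ) / Real.log x ^ c1) :
    ∑ a ∈ Ioc a0 (a0 + H), ∑ q ∈ Ioc Q (2 * Q),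
      |∑ p ∈ PP P (P * 2 ^ J), ∑ n ∈ (Icc 1 x).filter (fun n => n ≡ a [MOD q * p]), g n| ≤
      J * (H * x * Real.sqrt ((Real.log x + 1) ^ 3 / Real.log x ^ c1)) := by
  have h1 : ∀ a ∈ Ioc a0 (a0 + H), ∀ q ∈ Ioc Q (2 * Q),
      |∑ p ∈ PP P (P * 2 ^ J), ∑ n ∈ (Icc 1 x).filter (fun n => n ≡ a [MOD q * p]), g n| ≤
      ∑ i ∈ range J, ∑ k ∈ Icc 1 x, |∑ p ∈ pb (P * 2 ^ i), g (a + (p * k) * q)| := by
    intro a ha q hq
    rw [Finset.mem_Ioc] at ha hq
    rw [w2p_blocks]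
    have h2 : ∀ i ∈ range J, ∑ p ∈ pbk (P * 2 ^ i),
        ∑ n ∈ (Icc 1 x).filter (fun n => n ≡ a [MOD q * p]), g n =
        ∑ k ∈ Icc 1 x, ∑ p ∈ pb (P * 2 ^ i), g (a + (p * k) * q) := by
      intro i _
      rw [Finset.sum_comm]
      apply Finset.sum_congr rfl
      intro p hp
      have hp1 : 1 ≤ p := (Finset.mem_filter.1 hp).2.one_lt.le
      rw [w2p_prog g M x a (q * p) hg (by omega) (Nat.mul_pos (by omega) hp1)]
      apply Finset.sum_congr rfl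
      intro k _
      congr 1
      ring
    rw [Finset.sum_congr rfl h2]
    refine (Finset.abs_sum_le_sum_abs _ _).trans (Finset.sum_le_sum ?_)
    intro i _
    exact Finset.abs_sum_le_sum_abs _ _
  have h3 : ∑ a ∈ Ioc a0 (a0 + H), ∑ q ∈ Ioc Q (2 * Q),
      |∑ p ∈ PP P (P * 2 ^ J), ∑ n ∈ (Icc 1 x).filter (fun n => n ≡ a [MOD q * p]), g n| ≤
      ∑ i ∈ range J, ∑ q ∈ Ioc Q (2 * Q), ∑ a ∈ Ioc a0 (a0 + H), ∑ k ∈ Icc 1 x,
        |∑ p ∈ pb (P * 2 ^ i), g (a + (p * k) * q)| := by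
    refine (Finset.sum_le_sum fun a ha => Finset.sum_le_sum fun q hq => h1 a ha q hq).trans
      (le_of_eq ?_)
    rw [Finset.sum_comm]
    conv_rhs => rw [Finset.sum_comm]
    apply Finset.sum_congr rfl
    intro q _
    rw [Finset.sum_comm]
  refine h3.trans ?_
  have h4 : ∀ i ∈ range J, ∑ q ∈ Ioc Q (2 * Q), ∑ a ∈ Ioc a0 (a0 + H), ∑ k ∈ Icc 1 x,
      |∑ p ∈ pb (P * 2 ^ i), g (a + (p * k) * q)| ≤
      H * x * Real.sqrt ((Real.log x + 1) ^ 3 / Real.log x ^ c1) := by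
    intro i hi
    have hi' := Finset.mem_range.1 hi
    have hPi : 1 ≤ P * 2 ^ i := Nat.mul_pos hP (by positivity)
    have hPi0 : (0 : ℝ) < ((P * 2 ^ i : ℕ) : ℝ) := by exact_mod_cast hPi
    have h5 := fac_sum g x (P * 2 ^ i) a0 H Q x hPi (fun n hn => hg n (by
      rw [Finset.mem_Ioc]
      omega)) _ (hV i hi')
    refine h5.trans (le_of_eq ?_)
    have h6 : (H : ℝ) * ((x : ℝ) / ((P * 2 ^ i : ℕ) : ℝ) * (Real.log x + 1) ^ 3) *
        (H * x * ((P * 2 ^ i : ℕ) : ℝ) / Real.log x ^ c1) =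
        (H * x) ^ 2 * ((Real.log x + 1) ^ 3 / Real.log x ^ c1) := by
      have : Real.log x ^ c1 ≠ 0 := by positivity
      field_simp
    rw [h6, Real.sqrt_mul (by positivity), Real.sqrt_sq (by positivity)]
  refine (Finset.sum_le_sum h4).trans (le_of_eq ?_)
  rw [Finset.sum_const, Finset.card_range, nsmul_eq_mul]

end Pool.Agent.H87.WL
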